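import Mathlib

/-!
# Basic facts on universal enveloping algebras (for MP_6e5a6a_al)

* `derLift`: a cocycle `L → U(L)` extends to a derivation of `U(L)`;
* `uea_induction`: `U(L)` is generated by `L`;
* `Coord`: a coordinate system on `L / [L, L]`;
* `Coord.chi`: the map of `U(L)` onto the polynomial ring `S(L/[L,L])`;
* `eps`: the augmentation of `U(L)`;
* `Coord.factor`: algebra maps from `U(L)` with commutative image factor through `chi`.
-/

open UniversalEnvelopingAlgebra MvPolynomial

attribute [local instance 100] LieRing.ofAssociativeRing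

namespace MP6e5a6a

section basic

variable {F : Type*} [Field F] {L : Type*} [LieRing L] [LieAlgebra F L]

/-- `U(L)` is generated by `L`. -/
theorem uea_induction {P : UniversalEnvelopingAlgebra F L → Prop}
    (h1 : ∀ c : F, P (algebraMap F _ c)) (hι : ∀ x : L, P (ι F x))
    (hadd : ∀ u v, P u → P v → P (u + v)) (hmul : ∀ u v, P u → P v → P (u * v))
    (u : UniversalEnvelopingAlgebra F L) : P u := by
  let s : Subalgebra F (UniversalEnvelopingAlgebra F L) :=
    { carrier := {u | P u}
      mul_mem' := fun {a b} ha hb => hmul a b ha hb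
      add_mem' := fun {a b} ha hb => hadd a b ha hb
      algebraMap_mem' := h1 }
  let g : L →ₗ⁅F⁆ s :=
    { toFun := fun x => ⟨ι F x, hι x⟩
      map_add' := fun x y => by ext; simp
      map_smul' := fun c x => by ext; simp
      map_lie' := fun {x y} => by
        ext
        simp [LieRing.of_associative_ring_bracket] }
  have h : s.val.comp (lift F g) = AlgHom.id F _ := by
    apply hom_ext
    ext x
    simp [g]
  have h2 := DFunLike.congr_fun h u
  have h3 : ((lift F g u : s) : UniversalEnvelopingAlgebra F L) = u := h2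
  rw [← h3]
  exact (lift F g u).2

/-- A cocycle `L → U(L)` extends to a derivation of `U(L)`. -/
theorem derLift (f : L →ₗ[F] UniversalEnvelopingAlgebra F L)
    (hf : ∀ x y : L, f ⁅x, y⁆ = ⁅f x, ι F y⁆ + ⁅ι F x, f y⁆) :
    ∃ δ : UniversalEnvelopingAlgebra F L →ₗ[F] UniversalEnvelopingAlgebra F L,
      (∀ u v, δ (u * v) = δ u * v + u * δ v) ∧ ∀ x, δ (ι F x) = f x := by
  let g : L →ₗ⁅F⁆ (TrivSqZeroExt (UniversalEnvelopingAlgebra F L) (UniversalEnvelopingAlgebra F L)) :=
    { toFun := fun x => TrivSqZeroExt.inl (ι F x) + TrivSqZeroExt.inr (f x)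
      map_add' := fun x y => by ext <;> simp
      map_smul' := fun c x => by ext <;> simp
      map_lie' := fun {x y} => by
        ext
        · simp [LieRing.of_associative_ring_bracket]
        · simp [LieRing.of_associative_ring_bracket, hf]
          abel }
  have h : (TrivSqZeroExt.fstHom F (UniversalEnvelopingAlgebra F L) (UniversalEnvelopingAlgebra F L)).comp (lift F g) = AlgHom.id F _ := by
    apply hom_ext
    ext x
    simp [g]
  have h2 : ∀ u, (lift F g u).fst = u := fun u => DFunLike.congr_fun h u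
  refine ⟨{ toFun := fun u => (lift F g u).snd
            map_add' := fun u v => by simp
            map_smul' := fun c u => by simp }, ?_, ?_⟩
  · intro u v
    have e1 : (lift F g (u * v)).snd = (lift F g u * lift F g v).snd := by rw [map_mul]
    change (lift F g (u * v)).snd = (lift F g u).snd * v + u * (lift F g v).snd
    rw [e1, TrivSqZeroExt.snd_mul, h2, h2]
    simp [add_comm]
  · intro x
    change (lift F g (ι F x)).snd = f x
    rw [lift_ι_apply]
    simp [g]

/-- the span of all brackets -/
def brk (F : Type*) [Field F] (L : Type*) [LieRing L] [LieAlgebra F L] : Submodule F L :=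
  Submodule.span F {z | ∃ a b : L, ⁅a, b⁆ = z}

theorem lie_mem_brk (a b : L) : ⁅a, b⁆ ∈ brk F L := Submodule.subset_span ⟨a, b, rfl⟩

/-- the augmentation -/
noncomputable def eps (F : Type*) [Field F] (L : Type*) [LieRing L] [LieAlgebra F L] :
    UniversalEnvelopingAlgebra F L →ₐ[F] F := lift F (0 : L →ₗ⁅F⁆ F)

theorem eps_ι (x : L) : eps F L (ι F x) = 0 := by
  unfold eps; rw [lift_ι_apply]; rfl

/-- A coordinate system on `L / [L, L]`. -/
structure Coord (F : Type*) [Field F] (L : Type*) [LieRing L] [LieAlgebra F L]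
    (κ : Type*) [Fintype κ] [DecidableEq κ] where
  x : κ → L
  c : κ → (L →ₗ[F] F)
  c_lie : ∀ (i : κ) (a b : L), c i ⁅a, b⁆ = 0
  c_x : ∀ i j, c i (x j) = if i = j then 1 else 0
  mem : ∀ l : L, (∀ i, c i l = 0) → l ∈ brk F L

namespace Coord

variable {κ : Type*} [Fintype κ] [DecidableEq κ] (B : Coord F L κ)

theorem c_brk (i : κ) {m : L} (hm : m ∈ brk F L) : B.c i m = 0 := by
  refine Submodule.span_induction ?_ ?_ ?_ ?_ hm
  · rintro _ ⟨a, b, rfl⟩; exact B.c_lie i a b
  · simp
  · intro u v _ _ hu hv; simp [hu, hv]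
  · intro r u _ hu; simp [hu]

theorem sub_mem (l : L) : l - ∑ i, B.c i l • B.x i ∈ brk F L := by
  apply B.mem
  intro i
  simp [B.c_x]

/-- the projection of `U(L)` onto the polynomial ring on `L/[L,L]` -/
noncomputable def chi : UniversalEnvelopingAlgebra F L →ₐ[F] MvPolynomial κ F :=
  lift F
    { toFun := fun l => ∑ i, C (B.c i l) * X i
      map_add' := fun l l' => by simp [add_mul, Finset.sum_add_distrib]
      map_smul' := fun r l => by
        simp [Finset.smul_sum, MvPolynomial.smul_eq_C_mul, mul_assoc]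
      map_lie' := fun {l l'} => by
        simp [LieRing.of_associative_ring_bracket, mul_comm, B.c_lie] }

theorem chi_ι (l : L) : B.chi (ι F l) = ∑ i, C (B.c i l) * X i := by
  unfold chi; rw [lift_ι_apply]; rfl

theorem chi_x (j : κ) : B.chi (ι F (B.x j)) = X j := by
  rw [chi_ι]
  simp [B.c_x]

theorem chi_brk {m : L} (hm : m ∈ brk F L) : B.chi (ι F m) = 0 := by
  rw [chi_ι]
  simp [B.c_brk _ hm]

theorem constantCoeff_chi (u : UniversalEnvelopingAlgebra F L) : constantCoeff (B.chi u) = eps F L u := by
  refine uea_induction (P := fun u => constantCoeff (B.chi u) = eps F L u) ?_ ?_ ?_ ?_ u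
  · intro c; simp
  · intro x; rw [chi_ι, eps_ι]; simp
  · intro u v hu hv; simp only [map_add, hu, hv]
  · intro u v hu hv; simp only [map_mul, hu, hv]

theorem chi_surjective : Function.Surjective B.chi := by
  intro f
  induction f using MvPolynomial.induction_on with
  | C a => exact ⟨algebraMap F _ a, by simp [MvPolynomial.algebraMap_eq]⟩
  | add p q hp hq =>
    obtain ⟨u, rfl⟩ := hp
    obtain ⟨v, rfl⟩ := hq
    exact ⟨u + v, by simp⟩
  | mul_X p i hp =>
    obtain ⟨u, rfl⟩ := hp
    exact ⟨u * ι F (B.x i), by rw [map_mul, chi_x]⟩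

/-- Algebra maps `U(L) → A` for which the images of elements of `L` commute factor
through `chi`. -/
theorem factor {A : Type*} [Ring A] [Algebra F A] (g : UniversalEnvelopingAlgebra F L →ₐ[F] A)
    (hg : ∀ l l' : L, g (ι F l) * g (ι F l') = g (ι F l') * g (ι F l)) :
    ∃ gb : MvPolynomial κ F →ₐ[F] A, ∀ u, gb (B.chi u) = g u := by
  let s : Set A := Set.range (fun l : L => g (ι F l))
  have hs : ∀ a ∈ s, ∀ b ∈ s, a * b = b * a := by
    rintro _ ⟨l, rfl⟩ _ ⟨l', rfl⟩; exact hg l l'
  have hcomm : IsMulCommutative (Algebra.adjoin F s) := Algebra.isMulCommutative_adjoin F hs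
  let _ : CommRing (Algebra.adjoin F s) :=
    { (inferInstance : Ring (Algebra.adjoin F s)) with mul_comm := hcomm.is_comm.comm }
  let gb' : MvPolynomial κ F →ₐ[F] Algebra.adjoin F s :=
    MvPolynomial.aeval (fun i => (⟨g (ι F (B.x i)), Algebra.subset_adjoin ⟨_, rfl⟩⟩ :
      Algebra.adjoin F s))
  let gb : MvPolynomial κ F →ₐ[F] A := (Algebra.adjoin F s).val.comp gb'
  have hgX : ∀ i, gb (X i) = g (ι F (B.x i)) := by
    intro i
    simp [gb, gb']
  refine ⟨gb, ?_⟩
  intro u
  have : gb.comp B.chi = g := by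
    apply hom_ext
    ext l
    change gb (B.chi (ι F l)) = g (ι F l)
    have hl : l = (l - ∑ i, B.c i l • B.x i) + ∑ i, B.c i l • B.x i := by abel
    have h0 : ∀ m ∈ brk F L, g (ι F m) = 0 := by
      intro m hm
      refine Submodule.span_induction ?_ ?_ ?_ ?_ hm
      · rintro _ ⟨a, b, rfl⟩
        rw [LieHom.map_lie, LieRing.of_associative_ring_bracket, map_sub, map_mul, map_mul, hg,
          sub_self]
      · simp
      · intro u v _ _ hu hv; simp only [map_add, hu, hv, add_zero]
      · intro r u _ hu; simp only [map_smul, hu, smul_zero]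
    rw [chi_ι, map_sum]
    conv_rhs => rw [hl, map_add, map_add, h0 _ (B.sub_mem l), zero_add, map_sum, map_sum]
    apply Finset.sum_congr rfl
    intro i _
    rw [map_mul, hgX, map_smul, map_smul, ← MvPolynomial.algebraMap_eq, AlgHom.commutes,
      Algebra.smul_def]
  exact DFunLike.congr_fun this u

end Coord

/-- A solvable nonzero finite-dimensional Lie algebra has an ideal of codimension one. -/
theorem exists_codim_one {F : Type*} [Field F] {L : Type*} [LieRing L] [LieAlgebra F L]
    [FiniteDimensional F L] [LieAlgebra.IsSolvable L] [Nontrivial L] :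
    ∃ (K : LieIdeal F L) (x : L), x ∉ K ∧ ∀ l : L, ∃ c : F, l - c • x ∈ K := by
  have h := LieAlgebra.derivedSeries_lt_top_of_solvable (R := F) (L := L)
  have h' : (LieAlgebra.derivedSeries F L 1 : Submodule F L) < ⊤ := by
    exact h
  obtain ⟨f, hf, hle⟩ := Submodule.exists_le_ker_of_lt_top _ h'
  have hbr : ∀ a b : L, f ⁅a, b⁆ = 0 := by
    intro a b
    have : ⁅a, b⁆ ∈ (LieAlgebra.derivedSeries F L 1 : Submodule F L) := by
      change ⁅a, b⁆ ∈ LieAlgebra.derivedSeries F L 1
      simp only [LieAlgebra.derivedSeriesOfIdeal_succ, LieAlgebra.derivedSeriesOfIdeal_zero]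
      exact LieSubmodule.lie_mem_lie (LieSubmodule.mem_top a) (LieSubmodule.mem_top b)
    exact hle this
  have hx : ∃ x, f x ≠ 0 := by
    by_contra hcon
    push Not at hcon
    exact hf (LinearMap.ext hcon)
  obtain ⟨x, hx⟩ := hx
  refine ⟨{ (LinearMap.ker f) with
            lie_mem := fun {a m} _ => by
              change f ⁅a, m⁆ = 0
              exact hbr a m }, x, ?_, ?_⟩
  · intro hmem
    exact hx hmem
  · intro l
    refine ⟨f l / f x, ?_⟩
    change f (l - (f l / f x) • x) = 0
    rw [map_sub, map_smul, smul_eq_mul, div_mul_cancel₀ _ hx, sub_self]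

end basic

end MP6e5a6a
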