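import Pool.Agent.Lib.MP_6e5a6a_al.Flow

/-!
# The commutative algebra lemma (for MP_6e5a6a_al)
-/

open MvPolynomial Finset.HasAntidiagonal

namespace MP6e5a6a

set_option linter.unusedSectionVars false

section poly

variable {F κ : Type*} [Field F] [Fintype κ] [DecidableEq κ]

theorem hc_pderiv (m : ℕ) (k : κ) (f : MvPolynomial κ F) :
    homogeneousComponent m (pderiv k f) = pderiv k (homogeneousComponent (m + 1) f) := by
  have hf : f = ∑ n ∈ Finset.range (f.totalDegree + 1), homogeneousComponent n f :=
    (sum_homogeneousComponent f).symm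
  by_cases hm : m + 1 ∈ Finset.range (f.totalDegree + 1)
  · conv_lhs => rw [hf]
    rw [map_sum, map_sum, Finset.sum_eq_single (m + 1)]
    · apply homogeneousComponent_eq_self
      exact (homogeneousComponent_isHomogeneous (m + 1) f).pderiv
    · intro n hn hne
      rcases n with _ | n
      · rw [homogeneousComponent_zero, pderiv_C, map_zero]
      · rw [homogeneousComponent_of_mem (n := n)]
        · rw [if_neg (by omega)]
        · exact (homogeneousComponent_isHomogeneous (n + 1) f).pderiv
    · intro h; exact absurd hm h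
  · have h0 : homogeneousComponent (m + 1) f = 0 := by
      apply homogeneousComponent_eq_zero
      simp only [Finset.mem_range] at hm
      omega
    rw [h0, map_zero]
    conv_lhs => rw [hf]
    rw [map_sum, map_sum]
    apply Finset.sum_eq_zero
    intro n hn
    rcases n with _ | n
    · rw [homogeneousComponent_zero, pderiv_C, map_zero]
    · rw [homogeneousComponent_of_mem (n := n)]
      · rw [if_neg]
        simp only [Finset.mem_range] at hm hn
        omega
      · exact (homogeneousComponent_isHomogeneous (n + 1) f).pderiv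

/-- Euler's identity, componentwise. -/
theorem euler_hc (m : ℕ) (f : MvPolynomial κ F) :
    ∑ k, X k * homogeneousComponent m (pderiv k f) =
      ((m : F) + 1) • homogeneousComponent (m + 1) f := by
  simp_rw [hc_pderiv]
  rw [(homogeneousComponent_isHomogeneous (m + 1) f).sum_X_mul_pderiv]
  rw [← Nat.cast_smul_eq_nsmul F]
  push_cast
  rfl

theorem pderiv_comm' (j k : κ) (f : MvPolynomial κ F) :
    pderiv j (pderiv k f) = pderiv k (pderiv j f) := by
  have h : ⁅pderiv (R := F) j, pderiv (R := F) k⁆ = 0 := by
    apply derivation_ext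
    intro i
    rw [Derivation.commutator_apply, pderiv_X, pderiv_X]
    simp only [Pi.single_apply]
    split_ifs <;> simp
  have h1 := DFunLike.congr_fun h f
  rw [Derivation.commutator_apply] at h1
  exact sub_eq_zero.1 h1

theorem hc_X_mul_succ (m : ℕ) (k : κ) (f : MvPolynomial κ F) :
    homogeneousComponent (m + 1) (X k * f) = X k * homogeneousComponent m f := by
  ext d
  rw [coeff_homogeneousComponent, coeff_X_mul', coeff_X_mul']
  by_cases hk : k ∈ d.support
  · rw [if_pos hk, if_pos hk, coeff_homogeneousComponent]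
    have : (d - Finsupp.single k 1).degree + 1 = d.degree := by
      have h1 : Finsupp.single k 1 ≤ d := by
        rw [Finsupp.single_le_iff]
        exact Nat.one_le_iff_ne_zero.2 (Finsupp.mem_support_iff.1 hk)
      have h2 := congrArg Finsupp.degree (tsub_add_cancel_of_le h1)
      rw [map_add, Finsupp.degree_single] at h2
      exact h2
    by_cases hd : d.degree = m + 1
    · rw [if_pos hd, if_pos (by omega)]
    · rw [if_neg hd, if_neg (by omega)]
  · rw [if_neg hk, if_neg hk, ite_self]

theorem hc_X_mul_zero (k : κ) (f : MvPolynomial κ F) :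
    homogeneousComponent 0 (X k * f) = 0 := by
  rw [homogeneousComponent_zero]
  have : coeff 0 (X k * f) = 0 := by
    rw [coeff_X_mul', if_neg]
    simp
  rw [this, map_zero]

/-- membership in the ideal generated by the variables `X k`, `k ∈ nil`. -/
theorem mem_u [CharZero F] (nil : Set κ) (f : MvPolynomial κ F)
    (h0 : constantCoeff f = 0) (h : ∀ k, k ∉ nil → pderiv k f = 0) :
    f ∈ Ideal.span ((fun k => (X k : MvPolynomial κ F)) '' nil) := by
  rw [← sum_homogeneousComponent f]
  apply Ideal.sum_mem
  intro m _
  rcases m with _ | m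
  · rw [homogeneousComponent_zero]
    have : coeff 0 f = 0 := h0
    rw [this, map_zero]
    exact Ideal.zero_mem _
  · have hm : ((m : F) + 1) ≠ 0 := by exact_mod_cast Nat.succ_ne_zero m
    have h1 : homogeneousComponent (m + 1) f =
        ∑ k, C (((m : F) + 1)⁻¹) * homogeneousComponent m (pderiv k f) * X k := by
      have h2 := euler_hc m f
      have h3 := congrArg (fun z => ((m : F) + 1)⁻¹ • z) h2
      rw [smul_smul, inv_mul_cancel₀ hm, one_smul] at h3
      rw [← h3, Finset.smul_sum]
      apply Finset.sum_congr rfl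
      intro k _
      rw [smul_eq_C_mul]
      ring
    rw [h1]
    apply Ideal.sum_mem
    intro k _
    by_cases hk : k ∈ nil
    · apply Ideal.mul_mem_left
      exact Ideal.subset_span ⟨k, hk, rfl⟩
    · rw [h k hk, map_zero, mul_zero, zero_mul]
      exact Ideal.zero_mem _

/-- A polynomial with vanishing derivatives is constant. -/
theorem eq_C_of_pderiv [CharZero F] (f : MvPolynomial κ F) (h : ∀ k, pderiv k f = 0) :
    f = C (constantCoeff f) := by
  have h1 := mem_u (F := F) (∅ : Set κ) (f - C (constantCoeff f)) (by simp)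
    (fun k _ => by rw [map_sub, h k, pderiv_C, sub_zero])
  rw [Set.image_empty, Ideal.span_empty, Ideal.mem_bot] at h1
  exact sub_eq_zero.1 h1

theorem hc_one [CharZero F] (f : MvPolynomial κ F) :
    homogeneousComponent 1 f = ∑ k, C (constantCoeff (pderiv k f)) * X k := by
  have h := euler_hc 0 f
  simp only [Nat.cast_zero, zero_add, one_smul] at h
  rw [← h]
  apply Finset.sum_congr rfl
  intro k _
  rw [homogeneousComponent_zero, mul_comm]
  rfl

end poly

section main

variable {F κ N : Type*} [Field F] [Fintype κ] [DecidableEq κ]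
  [AddCommGroup N] [Module F N] [Module (MvPolynomial κ F) N]
  [IsScalarTower F (MvPolynomial κ F) N]

/-- The annihilator of `ker bar` is stable under liftable fields. -/
theorem ann_stable {bar : N →ₗ[MvPolynomial κ F] MvPolynomial κ F}
    {v : κ → MvPolynomial κ F} {D : N →ₗ[F] N} (hD : IsLift bar v D)
    {f : MvPolynomial κ F} (hf : f ∈ (LinearMap.ker bar).annihilator) :
    mkDerivation F v f ∈ (LinearMap.ker bar).annihilator := by
  rw [Submodule.mem_annihilator] at hf ⊢
  intro m hm
  have h1 : D (f • m) = 0 := by rw [hf m hm, map_zero]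
  have h2 : f • D m = 0 := by
    apply hf
    rw [LinearMap.mem_ker, hD.bar, LinearMap.mem_ker.1 hm, map_zero]
  rw [hD.smul, h2, add_zero] at h1
  exact h1

/-- The coefficients of a liftable field act nilpotently on `ker bar`. -/
theorem nil_of_lift [CharZero F] {bar : N →ₗ[MvPolynomial κ F] MvPolynomial κ F}
    (hfd : Module.Finite F (LinearMap.ker bar))
    {v : κ → MvPolynomial κ F} {D : N →ₗ[F] N} (hD : IsLift bar v D) (i : κ) :
    ∃ p : ℕ, v i ^ p ∈ (LinearMap.ker bar).annihilator := by
  set J := (LinearMap.ker bar).annihilator with hJ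
  -- a polynomial relation for `X i`
  obtain ⟨q, hq0, hq⟩ : ∃ q : Polynomial F, q ≠ 0 ∧ Polynomial.aeval (X i : MvPolynomial κ F) q ∈ J := by
    let φ : MvPolynomial κ F →ₐ[F] Module.End F (LinearMap.ker bar) :=
      Algebra.lsmul F F (LinearMap.ker bar)
    have hint : IsIntegral F (φ (X i)) := Algebra.IsIntegral.isIntegral _
    refine ⟨minpoly F (φ (X i)), minpoly.ne_zero hint, ?_⟩
    rw [hJ, Submodule.mem_annihilator]
    intro m hm
    have h1 : φ (Polynomial.aeval (X i : MvPolynomial κ F) (minpoly F (φ (X i)))) = 0 := by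
      rw [← Polynomial.aeval_algHom_apply]
      exact minpoly.aeval F (φ (X i))
    have h2 := congrArg (fun (g : Module.End F (LinearMap.ker bar)) => ((g ⟨m, hm⟩ :
      LinearMap.ker bar) : N)) h1
    simpa [φ] using h2
  -- descend on the degree
  have key : ∀ (d : ℕ) (q : Polynomial F) (a : ℕ), q.natDegree = d → q ≠ 0 →
      Polynomial.aeval (X i : MvPolynomial κ F) q * v i ^ a ∈ J → ∃ p : ℕ, v i ^ p ∈ J := by
    intro d
    induction d using Nat.strong_induction_on with
    | _ d ih =>
    intro q a hd hq0 hq
    by_cases hd0 : q.natDegree = 0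
    · obtain ⟨c, rfl⟩ : ∃ c, q = Polynomial.C c := ⟨_, Polynomial.eq_C_of_natDegree_eq_zero hd0⟩
      have hc : c ≠ 0 := by rintro rfl; simp at hq0
      refine ⟨a, ?_⟩
      have h1 := J.mul_mem_left (C c⁻¹) hq
      rw [Polynomial.aeval_C, MvPolynomial.algebraMap_eq, ← mul_assoc, ← C_mul,
        inv_mul_cancel₀ hc, C_1, one_mul] at h1
      exact h1
    · have h1 := ann_stable hD hq
      have h2 : mkDerivation F v (Polynomial.aeval (X i : MvPolynomial κ F) q) =
          Polynomial.aeval (X i : MvPolynomial κ F) (Polynomial.derivative q) * v i := by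
        rw [Derivation.map_aeval, mkDerivation_X, smul_eq_mul]
      rw [Derivation.leibniz, h2, Derivation.leibniz_pow] at h1
      have h3 := J.mul_mem_right (v i) h1
      have h4 : (Polynomial.aeval (X i : MvPolynomial κ F) q * v i ^ a) *
          (a * mkDerivation F v (v i)) ∈ J := J.mul_mem_right _ hq
      have h5 : Polynomial.aeval (X i : MvPolynomial κ F) (Polynomial.derivative q) *
          v i ^ (a + 2) ∈ J := by
        have h6 := J.sub_mem h3 h4
        rcases a with _ | a
        · convert h6 using 1
          simp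
          ring
        · convert h6 using 1
          simp only [smul_eq_mul, nsmul_eq_mul, Nat.add_sub_cancel]
          ring
      exact ih _ (hd ▸ Polynomial.natDegree_derivative_lt hd0) _ _ rfl
        (fun h => hd0 (Polynomial.derivative_eq_zero.1 h)) h5
  exact key _ q 0 rfl hq0 (by simpa using hq)

/-- The submodule of liftable fields. -/
def liftable (bar : N →ₗ[MvPolynomial κ F] MvPolynomial κ F) :
    Submodule (MvPolynomial κ F) (κ → MvPolynomial κ F) where
  carrier := {v | ∃ D : N →ₗ[F] N, IsLift bar v D}
  add_mem' := by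
    rintro v w ⟨D, hD⟩ ⟨E, hE⟩
    exact ⟨D + E, hD.add hE⟩
  zero_mem' := ⟨0, IsLift.zero⟩
  smul_mem' := by
    rintro f v ⟨D, hD⟩
    exact ⟨f • D, hD.smul' f⟩

/-- homogeneous component of a field -/
noncomputable def hv (m : ℕ) (v : κ → MvPolynomial κ F) : κ → MvPolynomial κ F :=
  fun i => homogeneousComponent m (v i)

theorem hv_add (m : ℕ) (v w : κ → MvPolynomial κ F) : hv m (v + w) = hv m v + hv m w := by
  funext i; simp [hv]

theorem hv_zero (m : ℕ) : hv m (0 : κ → MvPolynomial κ F) = 0 := by
  funext i; simp [hv]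

theorem hv_C_smul (m : ℕ) (c : F) (v : κ → MvPolynomial κ F) :
    hv m ((C c : MvPolynomial κ F) • v) = (C c : MvPolynomial κ F) • hv m v := by
  funext i; simp [hv, homogeneousComponent_C_mul]

theorem hv_X_smul_succ (m : ℕ) (k : κ) (v : κ → MvPolynomial κ F) :
    hv (m + 1) ((X k : MvPolynomial κ F) • v) = (X k : MvPolynomial κ F) • hv m v := by
  funext i; simp [hv, hc_X_mul_succ]

theorem hv_X_smul_zero (k : κ) (v : κ → MvPolynomial κ F) :
    hv 0 ((X k : MvPolynomial κ F) • v) = 0 := by
  funext i
  exact hc_X_mul_zero k (v i)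

/-- The fields all of whose homogeneous components are liftable and whose coefficients lie
in `u`. -/
def gradedLiftable (bar : N →ₗ[MvPolynomial κ F] MvPolynomial κ F)
    (u : Ideal (MvPolynomial κ F)) :
    Submodule (MvPolynomial κ F) (κ → MvPolynomial κ F) where
  carrier := {v | (∀ m, hv m v ∈ liftable bar) ∧ ∀ i, v i ∈ u}
  add_mem' := by
    rintro v w ⟨hv1, hv2⟩ ⟨hw1, hw2⟩
    refine ⟨fun m => ?_, fun i => u.add_mem (hv2 i) (hw2 i)⟩
    rw [hv_add]
    exact (liftable bar).add_mem (hv1 m) (hw1 m)
  zero_mem' := ⟨fun m => by rw [hv_zero]; exact (liftable bar).zero_mem, fun i => u.zero_mem⟩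
  smul_mem' := by
    rintro f v ⟨hv1, hv2⟩
    refine ⟨?_, fun i => u.mul_mem_left _ (hv2 i)⟩
    induction f using MvPolynomial.induction_on with
    | C a =>
      intro m
      rw [hv_C_smul]
      exact (liftable bar).smul_mem _ (hv1 m)
    | add p q hp hq =>
      intro m
      rw [add_smul, hv_add]
      exact (liftable bar).add_mem (hp m) (hq m)
    | mul_X p k hp =>
      intro m
      rw [mul_comm, mul_smul]
      rcases m with _ | m
      · rw [hv_X_smul_zero]; exact (liftable bar).zero_mem
      · rw [hv_X_smul_succ]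
        exact (liftable bar).smul_mem _ (hp m)

/-- Artin-Rees: `u ^ K N` meets `ker bar` trivially for large `K`. -/
theorem exists_K0 (bar : N →ₗ[MvPolynomial κ F] MvPolynomial κ F)
    (hfd : Module.Finite F (LinearMap.ker bar)) (u : Ideal (MvPolynomial κ F))
    (hu : u ≤ (LinearMap.ker bar).annihilator.radical) :
    ∃ K0 : ℕ, ∀ n ∈ u ^ K0 • (⊤ : Submodule (MvPolynomial κ F) N), bar n = 0 → n = 0 := by
  have hfin : Module.Finite (MvPolynomial κ F) N := by
    have h1 : Module.Finite (MvPolynomial κ F) (LinearMap.ker bar) :=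
      Module.Finite.of_restrictScalars_finite F _ _
    have h2 : Module.Finite (MvPolynomial κ F) (N ⧸ LinearMap.ker bar) := by
      have h3 : Module.Finite (MvPolynomial κ F) (LinearMap.range bar) := inferInstance
      exact Module.Finite.equiv bar.quotKerEquivRange.symm
    exact Module.Finite.of_submodule_quotient (LinearMap.ker bar)
  obtain ⟨p, hp⟩ := Ideal.exists_pow_le_of_le_radical_of_fg hu (IsNoetherian.noetherian u)
  obtain ⟨k, hk⟩ := Ideal.exists_pow_inf_eq_pow_smul u (LinearMap.ker bar)
  refine ⟨k + p, ?_⟩
  intro n hn hbn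
  have h1 : n ∈ u ^ (k + p) • ⊤ ⊓ LinearMap.ker bar := ⟨hn, hbn⟩
  rw [hk (k + p) (by omega), Nat.add_sub_cancel_left] at h1
  refine Submodule.smul_induction_on h1 ?_ ?_
  · intro f hf m hm
    exact Submodule.mem_annihilator.1 (hp hf) m hm.2
  · intro x y hx hy; rw [hx, hy, add_zero]

/-- The commutative algebra lemma. -/
theorem ca [CharZero F] (bar : N →ₗ[MvPolynomial κ F] MvPolynomial κ F)
    (hfd : Module.Finite F (LinearMap.ker bar))
    (P : Set (κ → MvPolynomial κ F))
    (hP1 : ∀ b ∈ P, ∀ k, (fun i => pderiv k (b i)) ∈ P)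
    (hP2 : ∀ b ∈ P, (fun i => b i - C (constantCoeff (b i))) ∈ liftable bar)
    (nil : Set κ)
    (hnil : ∀ i ∈ nil, ∃ p : ℕ, (X i : MvPolynomial κ F) ^ p ∈ (LinearMap.ker bar).annihilator)
    (hnil' : ∀ c : κ → F, (∃ p : ℕ, (∑ i, C (c i) * X i) ^ p ∈ (LinearMap.ker bar).annihilator) →
      ∀ i, i ∉ nil → c i = 0)
    (Ψ : κ → MvPolynomial κ F) (hΨ0 : ∀ i, constantCoeff (Ψ i) = 0)
    (hΨ1 : ∀ i j, constantCoeff (pderiv j (Ψ i)) = if i = j then 1 else 0)
    (a : κ → κ → MvPolynomial κ F) (haP : ∀ j, a j ∈ P)
    (ha : ∀ j k, ∑ i, pderiv j (Ψ i) * a i k = if j = k then 1 else 0)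
    (e : κ → N) (he : ∀ i, bar (e i) = X i) :
    ∃ T : N →ₗ[F] N, (∀ m, bar m = 0 → bar (T m) = 0) ∧ (∀ m, bar m = 0 → T m = 0 → m = 0) ∧
      (∀ j, bar (T (e j)) = Ψ j) ∧
      (∀ (j : κ) m, bar m = 0 → T ((X j : MvPolynomial κ F) • m) = Ψ j • T m) ∧
      (∀ j k : κ, T ((X j : MvPolynomial κ F) • e k - (X k : MvPolynomial κ F) • e j) =
        Ψ j • T (e k) - Ψ k • T (e j)) := by
  classical
  set u : Ideal (MvPolynomial κ F) :=
    Ideal.span ((fun k => (X k : MvPolynomial κ F)) '' nil) with hu
  -- bounded degree
  have hbound : ∀ b : κ → MvPolynomial κ F, ∃ d, ∀ i m, d < m → homogeneousComponent m (b i) = 0 := by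
    intro b
    refine ⟨∑ i, (b i).totalDegree, fun i m hm => homogeneousComponent_eq_zero _ _ ?_⟩
    exact lt_of_le_of_lt (Finset.single_le_sum (f := fun i => (b i).totalDegree)
      (fun _ _ => Nat.zero_le _) (Finset.mem_univ i)) hm
  have hsum : ∀ (f : MvPolynomial κ F) (d : ℕ), (∀ m, d < m → homogeneousComponent m f = 0) →
      f = ∑ m ∈ Finset.range (d + 1), homogeneousComponent m f := by
    intro f d hd
    ext s
    rw [coeff_sum]
    simp_rw [coeff_homogeneousComponent]
    rw [Finset.sum_ite_eq]
    split_ifs with h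
    · rfl
    · simp only [Finset.mem_range, not_lt] at h
      have h1 := congrArg (coeff s) (hd s.degree (by omega))
      rw [coeff_homogeneousComponent, if_pos rfl, coeff_zero] at h1
      exact h1
  -- Step A2: components of symbols are liftable
  have hA2 : ∀ d : ℕ, ∀ b ∈ P, (∀ i m, d < m → homogeneousComponent m (b i) = 0) →
      ∀ m, hv (m + 1) b ∈ liftable bar := by
    intro d
    induction d with
    | zero =>
      intro b _ hb m
      have : hv (m + 1) b = 0 := by funext i; exact hb i (m + 1) (by omega)
      rw [this]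
      exact (liftable bar).zero_mem
    | succ d ih =>
      intro b hbP hb
      have h1 : ∀ k m, hv (m + 1) (fun i => pderiv k (b i)) ∈ liftable bar := by
        intro k m
        apply ih _ (hP1 b hbP k)
        intro i m hm
        rw [hc_pderiv, hb i (m + 1) (by omega), map_zero]
      have h2 : ∀ m, hv (m + 2) b ∈ liftable bar := by
        intro m
        have hm : (((m + 1 : ℕ) : F) + 1) ≠ 0 := by exact_mod_cast Nat.succ_ne_zero (m + 1)
        have h3 : hv (m + 2) b = (C ((((m + 1 : ℕ) : F) + 1)⁻¹) : MvPolynomial κ F) •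
            ∑ k, (X k : MvPolynomial κ F) • hv (m + 1) (fun i => pderiv k (b i)) := by
          funext i
          have h4 := euler_hc (m + 1) (b i)
          simp only [hv, Pi.smul_apply, Finset.sum_apply, smul_eq_mul]
          rw [h4, ← smul_eq_C_mul, smul_smul, inv_mul_cancel₀ hm, one_smul]
        rw [h3]
        apply (liftable bar).smul_mem
        apply (liftable bar).sum_mem
        intro k _
        exact (liftable bar).smul_mem _ (h1 k m)
      intro m
      rcases m with _ | m
      · have h4 : hv 1 b = (fun i => b i - C (constantCoeff (b i))) -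
            ∑ m ∈ Finset.range d, hv (m + 2) b := by
          funext i
          have h5 := hsum (b i) (d + 1) (hb i)
          rw [Finset.sum_range_succ', Finset.sum_range_succ', homogeneousComponent_zero] at h5
          have h6 : b i = ∑ k ∈ Finset.range d, homogeneousComponent (k + 2) (b i) +
            homogeneousComponent 1 (b i) + C (constantCoeff (b i)) := h5
          simp only [hv, Pi.sub_apply, Finset.sum_apply]
          linear_combination (-1) * h6
        rw [zero_add, h4]
        apply (liftable bar).sub_mem (hP2 b hbP)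
        exact (liftable bar).sum_mem fun m _ => h2 m
      · exact h2 m
  have hA2' : ∀ b ∈ P, ∀ m, hv (m + 1) b ∈ liftable bar := by
    intro b hb
    obtain ⟨d, hd⟩ := hbound b
    exact hA2 d b hb hd
  -- Step A3: symbols only involve nil variables
  have hlin : ∀ b ∈ P, ∀ i k, k ∉ nil → constantCoeff (pderiv k (b i)) = 0 := by
    intro b hb i k hk
    obtain ⟨D, hD⟩ := hA2' b hb 0
    obtain ⟨p, hp⟩ := nil_of_lift hfd hD i
    apply hnil' (fun k => constantCoeff (pderiv k (b i))) ⟨p, ?_⟩ k hk
    have : hv (0 + 1) b i = ∑ k, C (constantCoeff (pderiv k (b i))) * X k := hc_one (b i)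
    rw [← this]
    exact hp
  have hA3 : ∀ d : ℕ, ∀ b ∈ P, (∀ i m, d < m → homogeneousComponent m (b i) = 0) →
      ∀ i k, k ∉ nil → pderiv k (b i) = 0 := by
    intro d
    induction d with
    | zero =>
      intro b _ hb i k _
      have h1 := hsum (b i) 0 (hb i)
      rw [Finset.sum_range_one, homogeneousComponent_zero] at h1
      rw [h1, pderiv_C]
    | succ d ih =>
      intro b hbP hb i k hk
      have h1 : ∀ j, pderiv j (pderiv k (b i)) = 0 := by
        intro j
        have h2 := ih _ (hP1 b hbP j) (fun i m hm => by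
          rw [hc_pderiv, hb i (m + 1) (by omega), map_zero]) i k hk
        rw [pderiv_comm' j k]
        exact h2
      rw [eq_C_of_pderiv _ h1, hlin b hbP i k hk, map_zero]
  have hA3' : ∀ b ∈ P, ∀ i k, k ∉ nil → pderiv k (b i) = 0 := by
    intro b hb
    obtain ⟨d, hd⟩ := hbound b
    exact hA3 d b hb hd
  -- the Jacobian matrix
  let Pm : Matrix κ κ (MvPolynomial κ F) := fun j i => pderiv j (Ψ i)
  let Am : Matrix κ κ (MvPolynomial κ F) := fun i k => a i k
  have hPA : Pm * Am = 1 := by
    ext1 j k
    rw [Matrix.mul_apply, Matrix.one_apply]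
    exact ha j k
  have hAP : Am * Pm = 1 := mul_eq_one_comm.1 hPA
  have hPnil : ∀ k, k ∉ nil → ∀ j i, pderiv k (pderiv j (Ψ i)) = 0 := by
    intro k hk
    have h1 : (Pm.map (pderiv k)) * Am = 0 := by
      ext1 j l
      have h2 := congrArg (pderiv k) (ha j l)
      rw [map_sum] at h2
      have h3 : pderiv k (if j = l then 1 else 0 : MvPolynomial κ F) = 0 := by
        split_ifs <;> simp
      rw [h3] at h2
      rw [Matrix.mul_apply, Matrix.zero_apply, ← h2]
      apply Finset.sum_congr rfl
      intro i _
      rw [Derivation.leibniz, hA3' (a i) (haP i) l k hk, smul_zero, zero_add, smul_eq_mul,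
        mul_comm]
      rfl
    have h4 : Pm.map (pderiv k) = 0 := by
      calc Pm.map (pderiv k) = Pm.map (pderiv k) * (Am * Pm) := by rw [hAP, mul_one]
        _ = 0 := by rw [← mul_assoc, h1, zero_mul]
    intro j i
    exact congrFun (congrFun h4 j) i
  let G : κ → MvPolynomial κ F := fun i => Ψ i - X i
  have hGd : ∀ i j, pderiv j (Ψ i) = pderiv j (G i) + if i = j then 1 else 0 := by
    intro i j
    simp only [G, map_sub, pderiv_X, Pi.single_apply]
    by_cases h : i = j
    · subst h; simp
    · rw [if_neg h]; ring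
  have hG0 : ∀ i, constantCoeff (G i) = 0 := by
    intro i; simp [G, hΨ0]
  have hGd0 : ∀ i j, constantCoeff (pderiv j (G i)) = 0 := by
    intro i j
    have h1 := congrArg constantCoeff (hGd i j)
    rw [hΨ1, map_add] at h1
    have h2 : constantCoeff (if i = j then 1 else 0 : MvPolynomial κ F) =
        if i = j then 1 else 0 := by split_ifs <;> simp
    rw [h2] at h1
    linear_combination -h1
  have hGnil : ∀ k, k ∉ nil → ∀ i, pderiv k (G i) = 0 := by
    intro k hk i
    rw [eq_C_of_pderiv (pderiv k (G i)) ?_, hGd0, map_zero]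
    intro j
    have h1 := hPnil k hk j i
    rw [hGd, map_add] at h1
    have h2 : pderiv k (if i = j then 1 else 0 : MvPolynomial κ F) = 0 := by
      split_ifs <;> simp
    rw [h2, add_zero] at h1
    rw [pderiv_comm']
    exact h1
  have ha0 : ∀ j k, constantCoeff (a j k) = if j = k then 1 else 0 := by
    intro j k
    have h1 := congrArg constantCoeff (ha j k)
    rw [map_sum] at h1
    simp_rw [map_mul, hΨ1] at h1
    rw [Finset.sum_eq_single j] at h1
    · rw [if_pos rfl, one_mul] at h1
      rw [h1]
      split_ifs <;> simp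
    · intro i _ hij
      rw [if_neg hij, zero_mul]
    · intro h; exact absurd (Finset.mem_univ _) h
  let at' : κ → κ → MvPolynomial κ F := fun j i => a j i - C (constantCoeff (a j i))
  have hat : ∀ j, at' j ∈ gradedLiftable bar u := by
    intro j
    refine ⟨fun m => ?_, fun i => ?_⟩
    · rcases m with _ | m
      · have : hv 0 (at' j) = 0 := by
          funext i
          simp only [hv, homogeneousComponent_zero, Pi.zero_apply]
          have : coeff 0 (at' j i) = constantCoeff (a j i - C (constantCoeff (a j i))) := rfl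
          rw [this, map_sub, constantCoeff_C, sub_self, map_zero]
        rw [this]; exact (liftable bar).zero_mem
      · have : hv (m + 1) (at' j) = hv (m + 1) (a j) := by
          funext i
          simp only [hv, at', map_sub]
          rw [homogeneousComponent_of_mem (n := 0) (isHomogeneous_C κ _), if_neg (by omega),
            sub_zero]
        rw [this]; exact hA2' _ (haP j) m
    · apply mem_u
      · simp [at']
      · intro k hk
        simp only [at', map_sub, pderiv_C, sub_zero]
        exact hA3' _ (haP j) i k hk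
  have hdG : ∀ j, (fun i => pderiv j (G i)) ∈ gradedLiftable bar u := by
    intro j
    have h1 : (fun i => pderiv j (G i)) = - at' j - ∑ i, pderiv j (G i) • at' i := by
      funext k
      have h2 : ∑ i, pderiv j (Ψ i) * a i k = ∑ i, pderiv j (G i) * at' i k + pderiv j (G k) +
          at' j k + if j = k then 1 else 0 := by
        have h3 : ∀ i, pderiv j (Ψ i) * a i k = pderiv j (G i) * at' i k +
            (if i = k then pderiv j (G i) else 0) + (if i = j then at' i k else 0) +
            (if i = j then (if i = k then 1 else 0) else 0) := by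
          intro i
          have h4 : a i k = at' i k + if i = k then 1 else 0 := by
            simp only [at', ha0]
            split_ifs <;> simp
          rw [hGd, h4]
          split_ifs <;> ring
        simp_rw [h3]
        rw [Finset.sum_add_distrib, Finset.sum_add_distrib, Finset.sum_add_distrib,
          Finset.sum_ite_eq', Finset.sum_ite_eq', Finset.sum_ite_eq', if_pos (Finset.mem_univ _),
          if_pos (Finset.mem_univ _), if_pos (Finset.mem_univ _)]
      rw [ha] at h2
      simp only [Pi.sub_apply, Pi.neg_apply, Finset.sum_apply, Pi.smul_apply, smul_eq_mul]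
      linear_combination -h2
    rw [h1]
    apply (gradedLiftable bar u).sub_mem ((gradedLiftable bar u).neg_mem (hat j))
    exact (gradedLiftable bar u).sum_mem fun i _ => (gradedLiftable bar u).smul_mem _ (hat i)
  have hdGu : ∀ i j, pderiv j (G i) ∈ u := fun i j => (hdG j).2 i
  obtain ⟨d, hd⟩ := hbound G
  have hdL : ∀ j, (fun i => pderiv j (G i)) ∈ liftable bar := by
    intro j
    have h1 : (fun i => pderiv j (G i)) =
        ∑ m ∈ Finset.range (d + 1), hv m (fun i => pderiv j (G i)) := by
      funext i
      rw [Finset.sum_apply]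
      apply hsum
      intro m hm
      rw [hc_pderiv, hd i (m + 1) (by omega), map_zero]
    rw [h1]
    exact (liftable bar).sum_mem fun m _ => (hdG j).1 m
  let w : κ → κ → MvPolynomial κ F := fun j =>
    ∑ m ∈ Finset.range (d + 1), (C (((m : F) + 1)⁻¹) : MvPolynomial κ F) •
      hv m (fun i => pderiv j (G i))
  have hwL : ∀ j, w j ∈ liftable bar := by
    intro j
    exact (liftable bar).sum_mem fun m _ => (liftable bar).smul_mem _ ((hdG j).1 m)
  have hwu : ∀ j i, w j i ∈ u := by
    intro j i
    simp only [w, Finset.sum_apply, Pi.smul_apply, smul_eq_mul]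
    apply Ideal.sum_mem
    intro m _
    apply Ideal.mul_mem_left
    apply mem_u
    · change coeff 0 (homogeneousComponent m (pderiv j (G i))) = 0
      rw [coeff_homogeneousComponent]
      split_ifs
      · exact hGd0 i j
      · rfl
    · intro k hk
      change pderiv k (homogeneousComponent m (pderiv j (G i))) = 0
      rcases m with _ | m
      · rw [homogeneousComponent_zero, pderiv_C]
      · rw [← hc_pderiv, pderiv_comm', hGnil k hk, map_zero, map_zero]
  let c : κ → MvPolynomial κ F := fun j => if j ∈ nil then X j else 0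
  have hcu : ∀ j, c j ∈ u := by
    intro j
    simp only [c]
    split_ifs with h
    · exact Ideal.subset_span ⟨j, h, rfl⟩
    · exact u.zero_mem
  have hGw : ∀ i, G i = ∑ j, c j * w j i := by
    intro i
    have h1 : ∀ j, c j * w j i = ∑ m ∈ Finset.range (d + 1), (C (((m : F) + 1)⁻¹)) *
        (X j * homogeneousComponent m (pderiv j (G i))) := by
      intro j
      have h2 : w j i = ∑ m ∈ Finset.range (d + 1), (C (((m : F) + 1)⁻¹)) *
          homogeneousComponent m (pderiv j (G i)) := by
        simp only [w, Finset.sum_apply, Pi.smul_apply, smul_eq_mul]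
        rfl
      rw [h2, Finset.mul_sum]
      apply Finset.sum_congr rfl
      intro m _
      simp only [c]
      split_ifs with h
      · ring
      · rw [hGnil j h, map_zero]; ring
    simp_rw [h1]
    rw [Finset.sum_comm]
    simp_rw [← Finset.mul_sum, euler_hc]
    have h3 := hsum (G i) (d + 1) (fun m hm => hd i m (by omega))
    rw [Finset.sum_range_succ', homogeneousComponent_zero] at h3
    have h4 : coeff 0 (G i) = 0 := hG0 i
    rw [h4, map_zero, add_zero] at h3
    conv_lhs => rw [h3]
    apply Finset.sum_congr rfl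
    intro m _
    have hm : ((m : F) + 1) ≠ 0 := by exact_mod_cast Nat.succ_ne_zero m
    rw [← smul_eq_C_mul, smul_smul, inv_mul_cancel₀ hm, one_smul]
  choose W hW using hwL
  choose E hE using hdL
  let D0 : N →ₗ[F] N := ∑ j, c j • W j
  have hD0 : IsLift bar G D0 := by
    have h1 : G = ∑ j, c j • w j := by
      funext i
      rw [hGw i, Finset.sum_apply]
      rfl
    rw [h1]
    exact IsLift.sum _ fun j _ => (hW j).smul' (c j)
  obtain ⟨K0, hK0⟩ := exists_K0 bar hfd u (by
    rw [hu, Ideal.span_le]
    rintro _ ⟨i, hi, rfl⟩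
    obtain ⟨p, hp⟩ := hnil i hi
    exact ⟨p, hp⟩)
  obtain ⟨T, hT1, hT2, hT3, hT4, hT5⟩ := flow bar u K0 hK0 G
    (fun i => by
      rw [hGw i, pow_two]
      exact Ideal.sum_mem _ fun j _ => Ideal.mul_mem_mul (hcu j) (hwu j i))
    hdGu E hE D0 hD0
    (by
      intro a n hn
      simp only [D0, LinearMap.sum_apply, LinearMap.smul_apply]
      apply Submodule.sum_mem
      intro j _
      have h1 := (hW j).preserves u (hwu j) a n hn
      have h2 := Submodule.smul_mem_smul (hcu j) h1
      rw [← Submodule.mul_smul, ← pow_succ'] at h2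
      exact h2)
    e he
  have hΨG : ∀ j, X j + G j = Ψ j := by intro j; simp [G]
  simp only [hΨG] at hT3 hT4 hT5
  exact ⟨T, hT1, hT2, hT3, hT4, hT5⟩

end main

end MP6e5a6a
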