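import Pool.Agent.Lib.MP_6e5a6a_al.Der

/-!
# Coordinate systems and normalisation (for MP_6e5a6a_al)
-/

open UniversalEnvelopingAlgebra MvPolynomial

attribute [local instance 100] LieRing.ofAssociativeRing

namespace MP6e5a6a

section adM

variable {F : Type*} [Field F] {L : Type*} [LieRing L] [LieAlgebra F L]

/-- the action of `L` on `[L, L]` -/
def adM (F : Type*) [Field F] (L : Type*) [LieRing L] [LieAlgebra F L] :
    L →ₗ[F] Module.End F (brk F L) where
  toFun l := (LieAlgebra.ad F L l : L →ₗ[F] L).restrict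
    (p := brk F L) (q := brk F L) (fun m _ => lie_mem_brk l m)
  map_add' x y := by ext m; simp
  map_smul' c x := by ext m; simp

@[simp] theorem adM_apply (l : L) (m : brk F L) : (adM F L l m : L) = ⁅l, (m : L)⁆ := rfl

theorem lie_brk_brk (hmeta : ∀ a b c d : L, ⁅⁅a, b⁆, ⁅c, d⁆⁆ = 0) {x y : L}
    (hx : x ∈ brk F L) (hy : y ∈ brk F L) : ⁅x, y⁆ = 0 := by
  refine Submodule.span_induction ?_ ?_ ?_ ?_ hx
  · rintro _ ⟨a, b, rfl⟩
    refine Submodule.span_induction ?_ ?_ ?_ ?_ hy
    · rintro _ ⟨c, d, rfl⟩; exact hmeta a b c d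
    · simp
    · intro u v _ _ hu hv; rw [lie_add, hu, hv, add_zero]
    · intro r u _ hu; rw [lie_smul, hu, smul_zero]
  · simp
  · intro u v _ _ hu hv; rw [add_lie, hu, hv, add_zero]
  · intro r u _ hu; rw [smul_lie, hu, smul_zero]

theorem adM_comm (hmeta : ∀ a b c d : L, ⁅⁅a, b⁆, ⁅c, d⁆⁆ = 0) (l l' : L) :
    Commute (adM F L l) (adM F L l') := by
  ext m
  simp only [Module.End.mul_apply, adM_apply]
  have h := lie_brk_brk (F := F) hmeta (lie_mem_brk l l') m.2
  rw [lie_lie] at h
  exact sub_eq_zero.1 h

theorem adM_brk (hmeta : ∀ a b c d : L, ⁅⁅a, b⁆, ⁅c, d⁆⁆ = 0) {d : L} (hd : d ∈ brk F L) :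
    adM F L d = 0 := by
  ext m
  simp only [adM_apply, LinearMap.zero_apply, Submodule.coe_zero]
  exact lie_brk_brk hmeta hd m.2

/-- Adapted coordinates. -/
theorem exists_coord [FiniteDimensional F L] (hmeta : ∀ a b c d : L, ⁅⁅a, b⁆, ⁅c, d⁆⁆ = 0) :
    ∃ (κ : Type) (_ : Fintype κ) (_ : DecidableEq κ) (B : Coord F L κ) (nil : Set κ),
      (∀ i ∈ nil, IsNilpotent (adM F L (B.x i))) ∧
      (∀ l, IsNilpotent (adM F L l) → ∀ i, i ∉ nil → B.c i l = 0) := by
  classical
  let Ln : Submodule F L :=
    { carrier := {l | IsNilpotent (adM F L l)}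
      add_mem' := by
        intro a b ha hb
        change IsNilpotent (adM F L (a + b))
        rw [map_add]
        exact (adM_comm hmeta a b).isNilpotent_add ha hb
      zero_mem' := by
        change IsNilpotent (adM F L 0)
        rw [map_zero]; exact IsNilpotent.zero
      smul_mem' := by
        intro c a ha
        change IsNilpotent (adM F L (c • a))
        rw [map_smul]
        exact IsNilpotent.smul ha c }
  have hLn : ∀ l, l ∈ Ln ↔ IsNilpotent (adM F L l) := fun l => Iff.rfl
  have hbrk : brk F L ≤ Ln := by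
    intro d hd
    rw [hLn, adM_brk hmeta hd]
    exact IsNilpotent.zero
  let W : Submodule F (L ⧸ brk F L) := Ln.map (brk F L).mkQ
  obtain ⟨Cc, hC⟩ := Submodule.exists_isCompl W
  let bW := Module.finBasis F W
  let bC := Module.finBasis F Cc
  let b : Module.Basis (Fin (Module.finrank F W) ⊕ Fin (Module.finrank F Cc)) F (L ⧸ brk F L) :=
    (bW.prod bC).map (Submodule.prodEquivOfIsCompl W Cc hC)
  choose x hx using fun i => (brk F L).mkQ_surjective (b i)
  refine ⟨Fin (Module.finrank F W) ⊕ Fin (Module.finrank F Cc), inferInstance, inferInstance,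
    { x := x
      c := fun i => (b.coord i) ∘ₗ (brk F L).mkQ
      c_lie := fun i a a' => by
        rw [LinearMap.comp_apply, Submodule.mkQ_apply,
          (Submodule.Quotient.mk_eq_zero _).2 (lie_mem_brk a a'), map_zero]
      c_x := fun i j => by
        rw [LinearMap.comp_apply, hx, Module.Basis.coord_apply, Module.Basis.repr_self,
          Finsupp.single_apply]
        by_cases h : j = i
        · subst h; simp
        · rw [if_neg h, if_neg (fun h' => h h'.symm)]
      mem := fun l hl => by
        have h1 : (brk F L).mkQ l = 0 := by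
          rw [← b.forall_coord_eq_zero_iff]
          exact hl
        rw [Submodule.mkQ_apply, Submodule.Quotient.mk_eq_zero] at h1
        exact h1 }, Set.range Sum.inl, ?_, ?_⟩
  · rintro _ ⟨i, rfl⟩
    change IsNilpotent (adM F L (x (Sum.inl i)))
    rw [← hLn]
    have h1 : b (Sum.inl i) = (bW i : L ⧸ brk F L) := by
      simp [b]
    obtain ⟨l, hl, hl'⟩ := (bW i).2
    have h2 : x (Sum.inl i) - l ∈ brk F L := by
      rw [← Submodule.Quotient.mk_eq_zero, Submodule.Quotient.mk_sub]
      have h3 := hx (Sum.inl i)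
      rw [Submodule.mkQ_apply] at h3 hl'
      rw [h3, hl', h1, sub_self]
    have h3 := Ln.add_mem (hbrk h2) hl
    rwa [sub_add_cancel] at h3
  · intro l hl i hi
    rcases i with i | i
    · exact absurd ⟨i, rfl⟩ hi
    · change b.coord (Sum.inr i) ((brk F L).mkQ l) = 0
      have h1 : (brk F L).mkQ l ∈ W := ⟨l, hl, rfl⟩
      rw [Module.Basis.coord_apply]
      simp only [b, Module.Basis.map_repr, LinearEquiv.trans_apply]
      have h2 : (Submodule.prodEquivOfIsCompl W Cc hC).symm ((brk F L).mkQ l) =
          (⟨(brk F L).mkQ l, h1⟩, 0) := by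
        rw [LinearEquiv.symm_apply_eq]
        simp
      rw [h2]
      simp

end adM

section norm

variable {F : Type*} [Field F] {L : Type*} [LieRing L] [LieAlgebra F L]
  {H : Type*} [LieRing H] [LieAlgebra F H]

/-- An isomorphism of enveloping algebras can be chosen to preserve the augmentations. -/
theorem exists_normalized (e : UniversalEnvelopingAlgebra F L ≃ₐ[F] UniversalEnvelopingAlgebra F H) :
    ∃ e' : UniversalEnvelopingAlgebra F L ≃ₐ[F] UniversalEnvelopingAlgebra F H, ∀ u, eps F H (e' u) = eps F L u := by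
  let c : H →ₗ[F] F := (eps F L).toLinearMap ∘ₗ e.symm.toLinearMap ∘ₗ (ι F : H →ₗ⁅F⁆ UniversalEnvelopingAlgebra F H).toLinearMap
  have hc : ∀ h, c h = eps F L (e.symm (ι F h)) := fun h => rfl
  have hcl : ∀ a b : H, c ⁅a, b⁆ = 0 := by
    intro a b
    rw [hc, LieHom.map_lie, LieRing.of_associative_ring_bracket]
    simp only [map_sub, map_mul]
    ring
  let g : F → H →ₗ⁅F⁆ UniversalEnvelopingAlgebra F H := fun s =>
    { toFun := fun h => ι F h + algebraMap F _ (s * c h)
      map_add' := fun x y => by
        simp only [map_add, mul_add]; abel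
      map_smul' := fun r x => by
        simp only [map_smul, smul_eq_mul, RingHom.id_apply, smul_add]
        rw [Algebra.smul_def r (algebraMap F (UniversalEnvelopingAlgebra F H) _), ← map_mul]
        congr 2
        ring
      map_lie' := fun {x y} => by
        rw [hcl, mul_zero, map_zero, add_zero, LieHom.map_lie,
          LieRing.of_associative_ring_bracket, LieRing.of_associative_ring_bracket]
        simp only [mul_add, add_mul]
        rw [Algebra.commutes (s * c x) (ι F y), Algebra.commutes (s * c y) (ι F x),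
          Algebra.commutes (s * c x) (algebraMap F _ (s * c y))]
        abel }
  have hg : ∀ s h, g s h = ι F h + algebraMap F _ (s * c h) := fun s h => rfl
  have hcomp : ∀ s, (lift F (g s)).comp (lift F (g (-s))) = AlgHom.id F _ := by
    intro s
    apply hom_ext
    ext h
    change lift F (g s) (lift F (g (-s)) (ι F h)) = ι F h
    rw [lift_ι_apply, hg, map_add, lift_ι_apply, hg, AlgHom.commutes, add_assoc, ← map_add]
    rw [show s * c h + -s * c h = 0 by ring, map_zero, add_zero]
  let τ : UniversalEnvelopingAlgebra F H ≃ₐ[F] UniversalEnvelopingAlgebra F H := AlgEquiv.ofAlgHom (lift F (g 1)) (lift F (g (-1)))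
    (hcomp 1) (by simpa using hcomp (-1))
  refine ⟨e.trans τ, ?_⟩
  have key : (eps F H).comp (lift F (g 1)) = (eps F L).comp (e.symm : UniversalEnvelopingAlgebra F H →ₐ[F] UniversalEnvelopingAlgebra F L) := by
    apply hom_ext
    ext h
    change eps F H (lift F (g 1) (ι F h)) = eps F L (e.symm (ι F h))
    rw [lift_ι_apply, hg, map_add, eps_ι, zero_add, one_mul, AlgHom.commutes]
    rfl
  intro u
  have h1 := DFunLike.congr_fun key (e u)
  change eps F H (lift F (g 1) (e u)) = eps F L (e.symm (e u)) at h1
  rw [AlgEquiv.symm_apply_apply] at h1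
  exact h1

variable {κ : Type*} [Fintype κ] [DecidableEq κ]

/-- linear part -/
noncomputable def lin (B : Coord F L κ) (k : κ) (u : UniversalEnvelopingAlgebra F L) : F :=
  constantCoeff (pderiv k (B.chi u))

theorem lin_add (B : Coord F L κ) (k : κ) (u v : UniversalEnvelopingAlgebra F L) :
    lin B k (u + v) = lin B k u + lin B k v := by simp [lin]

theorem lin_mul (B : Coord F L κ) (k : κ) (u v : UniversalEnvelopingAlgebra F L) :
    lin B k (u * v) = eps F L u * lin B k v + eps F L v * lin B k u := by
  simp only [lin, map_mul, Derivation.leibniz, map_add, smul_eq_mul, B.constantCoeff_chi]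

theorem lin_algebraMap (B : Coord F L κ) (k : κ) (c : F) :
    lin B k (algebraMap F _ c) = 0 := by
  simp only [lin, AlgHom.commutes, Derivation.map_algebraMap, map_zero]

theorem lin_smul (B : Coord F L κ) (k : κ) (c : F) (u : UniversalEnvelopingAlgebra F L) :
    lin B k (c • u) = c * lin B k u := by
  rw [Algebra.smul_def, lin_mul, lin_algebraMap, AlgHom.commutes, mul_zero, add_zero]
  rfl

theorem lin_x (B : Coord F L κ) (k i : κ) :
    lin B k (ι F (B.x i)) = if i = k then 1 else 0 := by
  simp only [lin, B.chi_x, pderiv_X, Pi.single_apply]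
  split_ifs <;> simp

theorem lin_sum (B : Coord F L κ) (k : κ) {α : Type*} (s : Finset α) (u : α → UniversalEnvelopingAlgebra F L) :
    lin B k (∑ a ∈ s, u a) = ∑ a ∈ s, lin B k (u a) := by
  simp only [lin, map_sum]

theorem lin_ι (B : Coord F L κ) (k : κ) (l : L) : lin B k (ι F l) = B.c k l := by
  have h1 : l = (l - ∑ i, B.c i l • B.x i) + ∑ i, B.c i l • B.x i := by abel
  conv_lhs => rw [h1]
  rw [map_add, lin_add, map_sum, lin_sum]
  have h2 : lin B k (ι F (l - ∑ i, B.c i l • B.x i)) = 0 := by
    simp only [lin, B.chi_brk (B.sub_mem l), map_zero]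
  rw [h2, zero_add]
  simp_rw [map_smul, lin_smul, lin_x]
  simp

/-- Coordinates on `H / [H, H]` adapted to those on `L / [L, L]`. -/
theorem exists_coord_H (B : Coord F L κ) (e : UniversalEnvelopingAlgebra F L ≃ₐ[F] UniversalEnvelopingAlgebra F H)
    (he : ∀ u, eps F H (e u) = eps F L u) :
    ∃ B' : Coord F H κ, ∀ i j,
      constantCoeff (pderiv j (B.chi (e.symm (ι F (B'.x i))))) = if i = j then 1 else 0 := by
  classical
  have he' : ∀ u, eps F L (e.symm u) = eps F H u := by
    intro u; rw [← he, AlgEquiv.apply_symm_apply]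
  let c : κ → H →ₗ[F] F := fun k =>
    { toFun := fun h => lin B k (e.symm (ι F h))
      map_add' := fun x y => by rw [map_add, map_add, lin_add]
      map_smul' := fun r x => by rw [map_smul, map_smul, lin_smul]; rfl }
  have hc : ∀ k h, c k h = lin B k (e.symm (ι F h)) := fun k h => rfl
  -- surjectivity
  have hW : ∀ u : UniversalEnvelopingAlgebra F H, ∃ h : H, ∀ k, c k h = lin B k (e.symm u) := by
    intro u
    refine uea_induction (P := fun u => ∃ h : H, ∀ k, c k h = lin B k (e.symm u)) ?_ ?_ ?_ ?_ u
    · intro r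
      refine ⟨0, fun k => ?_⟩
      rw [map_zero, AlgEquiv.commutes, lin_algebraMap]
    · intro h
      exact ⟨h, fun k => rfl⟩
    · rintro u v ⟨h, hu⟩ ⟨h', hv⟩
      refine ⟨h + h', fun k => ?_⟩
      rw [map_add, hu, hv, map_add, lin_add]
    · rintro u v ⟨h, hu⟩ ⟨h', hv⟩
      refine ⟨eps F H v • h + eps F H u • h', fun k => ?_⟩
      rw [map_add, map_smul, map_smul, hu, hv, map_mul, lin_mul, he', he']
      simp only [smul_eq_mul]
      ring
  choose x hx using fun i => hW (e (ι F (B.x i)))
  have hx' : ∀ i k, c k (x i) = if i = k then 1 else 0 := by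
    intro i k
    rw [hx, AlgEquiv.symm_apply_apply, lin_x]
  -- the kernel
  have hker : ∀ h : H, (∀ k, c k h = 0) → h ∈ brk F H := by
    intro h hh
    by_contra hcon
    obtain ⟨ξ, hξ, hle⟩ := Submodule.exists_dual_map_eq_bot_of_notMem hcon inferInstance
    have hle' : ∀ z ∈ brk F H, ξ z = 0 := by
      intro z hz
      have : ξ z ∈ (brk F H).map ξ := ⟨z, hz, rfl⟩
      rw [hle] at this
      exact (Submodule.mem_bot F).1 this
    obtain ⟨δ, hδ, hδξ⟩ := exists_constDer ξ (fun a b => hle' _ (lie_mem_brk a b))
    let η : UniversalEnvelopingAlgebra F L → F := fun u => eps F H (δ (e u))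
    have hηadd : ∀ u v, η (u + v) = η u + η v := fun u v => by
      simp only [η, map_add]
    have hηsmul : ∀ (r : F) u, η (r • u) = r * η u := fun r u => by
      simp only [η, map_smul, smul_eq_mul]
    have hηmul : ∀ u v, η (u * v) = eps F L u * η v + eps F L v * η u := fun u v => by
      simp only [η, map_mul, hδ _ _, map_add, he]
      ring
    have hηsum : ∀ (s : Finset κ) (u : κ → UniversalEnvelopingAlgebra F L), η (∑ a ∈ s, u a) = ∑ a ∈ s, η (u a) := by
      intro s u
      simp only [η, map_sum]
    have hηbrk : ∀ m ∈ brk F L, η (ι F m) = 0 := by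
      intro m hm
      refine Submodule.span_induction ?_ ?_ ?_ ?_ hm
      · rintro _ ⟨a, b, rfl⟩
        have h1 : (ι F ⁅a, b⁆ : UniversalEnvelopingAlgebra F L) = ι F a * ι F b + (-1 : F) • (ι F b * ι F a) := by
          rw [LieHom.map_lie, LieRing.of_associative_ring_bracket]
          simp [sub_eq_add_neg]
        rw [h1, hηadd, hηsmul, hηmul, hηmul, eps_ι, eps_ι]
        ring
      · simp [η]
      · intro u v _ _ hu hv; rw [map_add, hηadd, hu, hv, add_zero]
      · intro r u _ hu; rw [map_smul, hηsmul, hu, mul_zero]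
    have hη : ∀ u, η u = ∑ k, η (ι F (B.x k)) * lin B k u := by
      intro u
      refine uea_induction (P := fun u => η u = ∑ k, η (ι F (B.x k)) * lin B k u) ?_ ?_ ?_ ?_ u
      · intro r
        simp only [lin_algebraMap, mul_zero, Finset.sum_const_zero]
        simp only [η, AlgEquiv.commutes, hδ.algebraMap', map_zero]
      · intro l
        have h1 : l = (l - ∑ i, B.c i l • B.x i) + ∑ i, B.c i l • B.x i := by abel
        conv_lhs => rw [h1]
        rw [map_add, hηadd, hηbrk _ (B.sub_mem l), zero_add, map_sum, hηsum]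
        apply Finset.sum_congr rfl
        intro k _
        rw [map_smul, hηsmul, lin_ι, mul_comm]
      · intro u v hu hv
        rw [hηadd, hu, hv, ← Finset.sum_add_distrib]
        apply Finset.sum_congr rfl
        intro k _
        rw [lin_add]; ring
      · intro u v hu hv
        rw [hηmul, hu, hv, Finset.mul_sum, Finset.mul_sum, ← Finset.sum_add_distrib]
        apply Finset.sum_congr rfl
        intro k _
        rw [lin_mul]; ring
    have h1 := hη (e.symm (ι F h))
    have h2 : η (e.symm (ι F h)) = ξ h := by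
      simp only [η, AlgEquiv.apply_symm_apply, hδξ, AlgHom.commutes]
      rfl
    rw [h2] at h1
    apply hξ
    rw [h1]
    apply Finset.sum_eq_zero
    intro k _
    rw [← hc, hh, mul_zero]
  refine ⟨{ x := x
            c := c
            c_lie := fun i a b => ?_
            c_x := fun i j => ?_
            mem := hker }, ?_⟩
  · rw [hc, LieHom.map_lie, LieRing.of_associative_ring_bracket, map_sub, map_mul, map_mul]
    have h1 : ∀ u v : UniversalEnvelopingAlgebra F L, u - v = u + (-1 : F) • v := fun u v => by simp [sub_eq_add_neg]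
    rw [h1, lin_add, lin_smul, lin_mul, lin_mul]
    ring
  · rw [hx']
    by_cases h : j = i
    · subst h; simp
    · rw [if_neg h, if_neg (fun h' => h h'.symm)]
  · intro i j
    exact hx' i j

end norm

end MP6e5a6a
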