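import Pool.Agent.Lib.MP_6e5a6a_al.NMod
import Pool.Agent.Lib.MP_6e5a6a_al.CA

/-!
# Derivations of `U(L)` and liftable fields (for MP_6e5a6a_al)
-/

open UniversalEnvelopingAlgebra MvPolynomial

attribute [local instance 100] LieRing.ofAssociativeRing

namespace MP6e5a6a

universe u v w

variable {F : Type u} [Field F] {L : Type v} [LieRing L] [LieAlgebra F L]
  {κ : Type w} [Fintype κ] [DecidableEq κ]

/-- derivations of `U(L)` -/
def IsDer (δ : UniversalEnvelopingAlgebra F L →ₗ[F] UniversalEnvelopingAlgebra F L) : Prop := ∀ u v, δ (u * v) = δ u * v + u * δ v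

theorem IsDer.one {δ : UniversalEnvelopingAlgebra F L →ₗ[F] UniversalEnvelopingAlgebra F L} (hδ : IsDer δ) : δ 1 = 0 := by
  have h := hδ 1 1
  rw [one_mul, mul_one, one_mul] at h
  exact left_eq_add.1 h

theorem IsDer.algebraMap' {δ : UniversalEnvelopingAlgebra F L →ₗ[F] UniversalEnvelopingAlgebra F L} (hδ : IsDer δ) (c : F) :
    δ (algebraMap F _ c) = 0 := by
  rw [Algebra.algebraMap_eq_smul_one, map_smul, hδ.one, smul_zero]

theorem IsDer.comm {δ δ' : UniversalEnvelopingAlgebra F L →ₗ[F] UniversalEnvelopingAlgebra F L} (hδ : IsDer δ) (hδ' : IsDer δ') :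
    IsDer (δ ∘ₗ δ' - δ' ∘ₗ δ) := by
  intro u v
  simp only [LinearMap.sub_apply, LinearMap.comp_apply, hδ u v, hδ' u v, map_add]
  rw [hδ, hδ, hδ', hδ']
  noncomm_ring

theorem IsDer.sub {δ δ' : UniversalEnvelopingAlgebra F L →ₗ[F] UniversalEnvelopingAlgebra F L} (hδ : IsDer δ) (hδ' : IsDer δ') :
    IsDer (δ - δ') := by
  intro u v
  simp only [LinearMap.sub_apply, hδ u v, hδ' u v]
  noncomm_ring

theorem IsDer.smul {δ : UniversalEnvelopingAlgebra F L →ₗ[F] UniversalEnvelopingAlgebra F L} (hδ : IsDer δ) (c : F) : IsDer (c • δ) := by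
  intro u v
  simp only [LinearMap.smul_apply, hδ u v, smul_add, smul_mul_assoc, mul_smul_comm]

theorem IsDer.sum {α : Type*} (s : Finset α) {δ : α → UniversalEnvelopingAlgebra F L →ₗ[F] UniversalEnvelopingAlgebra F L}
    (hδ : ∀ a, IsDer (δ a)) : IsDer (∑ a ∈ s, δ a) := by
  intro u v
  simp only [LinearMap.sum_apply, hδ _ u v, Finset.sum_add_distrib, Finset.sum_mul,
    Finset.mul_sum]

/-- constant coefficient derivations -/
theorem exists_constDer (ξ : L →ₗ[F] F) (hξ : ∀ a b : L, ξ ⁅a, b⁆ = 0) :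
    ∃ δ : UniversalEnvelopingAlgebra F L →ₗ[F] UniversalEnvelopingAlgebra F L, IsDer δ ∧ ∀ x, δ (ι F x) = algebraMap F _ (ξ x) := by
  obtain ⟨δ, h1, h2⟩ := derLift ((Algebra.linearMap F (UniversalEnvelopingAlgebra F L)) ∘ₗ ξ) (by
    intro x y
    simp only [LinearMap.comp_apply, Algebra.linearMap_apply, hξ, map_zero]
    rw [LieRing.of_associative_ring_bracket, LieRing.of_associative_ring_bracket,
      Algebra.commutes, Algebra.commutes (ξ y)]
    simp)
  exact ⟨δ, h1, fun x => h2 x⟩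

/-- the symbol of a derivation -/
noncomputable def symb (B : Coord F L κ) (δ : UniversalEnvelopingAlgebra F L →ₗ[F] UniversalEnvelopingAlgebra F L) : κ → MvPolynomial κ F :=
  fun i => B.chi (δ (ι F (B.x i)))

theorem chi_der_brk (B : Coord F L κ) {δ : UniversalEnvelopingAlgebra F L →ₗ[F] UniversalEnvelopingAlgebra F L} (hδ : IsDer δ) {m : L}
    (hm : m ∈ brk F L) : B.chi (δ (ι F m)) = 0 := by
  refine Submodule.span_induction ?_ ?_ ?_ ?_ hm
  · rintro _ ⟨a, b, rfl⟩
    rw [LieHom.map_lie, LieRing.of_associative_ring_bracket, map_sub, hδ, hδ]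
    simp only [map_sub, map_add, map_mul]
    ring
  · simp
  · intro x y _ _ hx hy
    rw [map_add, map_add, map_add, hx, hy, add_zero]
  · intro r x _ hx
    rw [map_smul, map_smul, map_smul, hx, smul_zero]

theorem chi_der (B : Coord F L κ) {δ : UniversalEnvelopingAlgebra F L →ₗ[F] UniversalEnvelopingAlgebra F L} (hδ : IsDer δ) (u : UniversalEnvelopingAlgebra F L) :
    B.chi (δ u) = mkDerivation F (symb B δ) (B.chi u) := by
  refine uea_induction (P := fun u => B.chi (δ u) = mkDerivation F (symb B δ) (B.chi u))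
    ?_ ?_ ?_ ?_ u
  · intro c
    rw [hδ.algebraMap', map_zero, AlgHom.commutes, Derivation.map_algebraMap]
  · intro l
    have h1 : l = (l - ∑ i, B.c i l • B.x i) + ∑ i, B.c i l • B.x i := by abel
    have h2 : B.chi (δ (ι F l)) = ∑ i, C (B.c i l) * symb B δ i := by
      conv_lhs => rw [h1]
      rw [map_add, map_add, map_add, chi_der_brk B hδ (B.sub_mem l), zero_add, map_sum, map_sum,
        map_sum]
      apply Finset.sum_congr rfl
      intro i _
      rw [map_smul, map_smul, map_smul, smul_eq_C_mul]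
      rfl
    rw [h2, B.chi_ι, map_sum]
    apply Finset.sum_congr rfl
    intro i _
    rw [Derivation.leibniz, mkDerivation_X, derivation_C, smul_zero, add_zero, smul_eq_mul]
  · intro u v hu hv
    rw [map_add, map_add, hu, hv, map_add, map_add]
  · intro u v hu hv
    rw [hδ, map_add, map_mul, map_mul, hu, hv, map_mul, Derivation.leibniz, smul_eq_mul,
      smul_eq_mul]
    ring

theorem eps_der (B : Coord F L κ) {δ : UniversalEnvelopingAlgebra F L →ₗ[F] UniversalEnvelopingAlgebra F L} (hδ : IsDer δ)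
    (h0 : ∀ i, constantCoeff (symb B δ i) = 0) (u : UniversalEnvelopingAlgebra F L) : eps F L (δ u) = 0 := by
  rw [← B.constantCoeff_chi, chi_der B hδ, mkDerivation_apply', map_sum]
  apply Finset.sum_eq_zero
  intro i _
  rw [map_mul, h0, zero_mul]

section lift

variable (B : Coord F L κ) {N : Type*} [AddCommGroup N] [Module F N]
  [Module (MvPolynomial κ F) N] [IsScalarTower F (MvPolynomial κ F) N]
  (bar : N →ₗ[MvPolynomial κ F] MvPolynomial κ F) (π : UniversalEnvelopingAlgebra F L →ₗ[F] N)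
  (h1 : ∀ u w, eps F L w = 0 → π (u * w) = B.chi u • π w)
  (h2 : ∀ n, ∃ w, eps F L w = 0 ∧ π w = n)
  (h3 : ∀ w, eps F L w = 0 → bar (π w) = B.chi w)
  (h4 : ∀ w, eps F L w = 0 → π w = 0 → w ∈ Ksub B)

include h1 in
theorem π_Ksub {z : UniversalEnvelopingAlgebra F L} (hz : z ∈ Ksub B) : π z = 0 := by
  refine Submodule.span_induction ?_ ?_ ?_ ?_ hz
  · rintro _ ⟨a, w, ha, hw, rfl⟩
    rw [h1 a w hw, ha, zero_smul]
  · simp
  · intro x y _ _ hx hy; rw [map_add, hx, hy, add_zero]
  · intro r x _ hx; rw [map_smul, hx, smul_zero]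

include h1 h2 h3 h4 in
theorem lift_of_der {δ : UniversalEnvelopingAlgebra F L →ₗ[F] UniversalEnvelopingAlgebra F L} (hδ : IsDer δ)
    (h0 : ∀ i, constantCoeff (symb B δ i) = 0) : symb B δ ∈ liftable bar := by
  have hε := eps_der B hδ h0
  have hK : ∀ z ∈ Ksub B, δ z ∈ Ksub B := by
    intro z hz
    refine Submodule.span_induction ?_ ?_ ?_ ?_ hz
    · rintro _ ⟨a, w, ha, hw, rfl⟩
      rw [hδ]
      apply (Ksub B).add_mem
      · apply mul_mem_Ksub B _ hw
        rw [chi_der B hδ, ha, map_zero]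
      · exact mul_mem_Ksub B ha (hε w)
    · rw [map_zero]; exact (Ksub B).zero_mem
    · intro x y _ _ hx hy; rw [map_add]; exact (Ksub B).add_mem hx hy
    · intro r x _ hx; rw [map_smul]; exact (Ksub B).smul_mem r hx
  -- a linear section
  let ω : Submodule F (UniversalEnvelopingAlgebra F L) := LinearMap.ker (eps F L).toLinearMap
  have hω : ∀ w, w ∈ ω ↔ eps F L w = 0 := fun w => LinearMap.mem_ker
  have hsurj : Function.Surjective (π.comp ω.subtype) := by
    intro n
    obtain ⟨w, hw, rfl⟩ := h2 n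
    exact ⟨⟨w, (hω w).2 hw⟩, rfl⟩
  obtain ⟨s, hs⟩ := LinearMap.exists_rightInverse_of_surjective (π.comp ω.subtype)
    (LinearMap.range_eq_top.2 hsurj)
  have hs' : ∀ n, π (s n : UniversalEnvelopingAlgebra F L) = n := fun n => DFunLike.congr_fun hs n
  let D : N →ₗ[F] N := π ∘ₗ δ ∘ₗ ω.subtype ∘ₗ s
  have hD : ∀ w, eps F L w = 0 → D (π w) = π (δ w) := by
    intro w hw
    change π (δ (s (π w) : UniversalEnvelopingAlgebra F L)) = π (δ w)
    rw [← sub_eq_zero, ← map_sub, ← map_sub]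
    apply π_Ksub B π h1
    apply hK
    apply h4
    · rw [map_sub, (hω _).1 (s (π w)).2, hw, sub_zero]
    · rw [map_sub, hs', sub_self]
  refine ⟨D, ?_, ?_⟩
  · intro f n
    obtain ⟨u, rfl⟩ := B.chi_surjective f
    obtain ⟨w, hw, rfl⟩ := h2 n
    have hw' : eps F L (u * w) = 0 := by rw [map_mul, hw, mul_zero]
    rw [← h1 u w hw, hD _ hw', hδ, map_add, h1 _ _ hw, h1 _ _ (hε w), chi_der B hδ, hD w hw]
  · intro n
    obtain ⟨w, hw, rfl⟩ := h2 n
    rw [hD w hw, h3 _ (hε w), h3 _ hw, chi_der B hδ]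

end lift

end MP6e5a6a
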