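import Mathlib

/-!
# The flow argument (for MP_6e5a6a_al)

`S = F[X_i : i ∈ κ]`, `N` an `S`-module with an `S`-linear map `bar : N → S`.
A lift of a polynomial vector field `v` is an `F`-linear operator `D` of `N` with
`D (f n) = X_v(f) n + f D(n)` and `bar (D n) = X_v (bar n)`.
-/

open MvPolynomial Finset.HasAntidiagonal

namespace MP6e5a6a

set_option linter.unusedSectionVars false

variable {F κ N : Type*} [Field F] [Fintype κ] [DecidableEq κ]
  [AddCommGroup N] [Module F N] [Module (MvPolynomial κ F) N]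
  [IsScalarTower F (MvPolynomial κ F) N]

/-- `D` is a lift to `N` of the vector field `v`. -/
structure IsLift (bar : N →ₗ[MvPolynomial κ F] MvPolynomial κ F) (v : κ → MvPolynomial κ F)
    (D : N →ₗ[F] N) : Prop where
  smul : ∀ (f : MvPolynomial κ F) (n : N), D (f • n) = mkDerivation F v f • n + f • D n
  bar : ∀ n, bar (D n) = mkDerivation F v (bar n)

theorem mkDerivation_add' (v w : κ → MvPolynomial κ F) :
    mkDerivation F (v + w) = mkDerivation F v + mkDerivation F w := by
  apply derivation_ext; intro i; simp [mkDerivation_X]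

theorem mkDerivation_smul' (f : MvPolynomial κ F) (v : κ → MvPolynomial κ F) :
    mkDerivation F (f • v) = f • mkDerivation F v := by
  apply derivation_ext; intro i; simp [mkDerivation_X]

theorem mkDerivation_zero' :
    mkDerivation F (0 : κ → MvPolynomial κ F) = 0 := by
  apply derivation_ext; intro i; simp [mkDerivation_X]

theorem mkDerivation_apply' (v : κ → MvPolynomial κ F) (f : MvPolynomial κ F) :
    mkDerivation F v f = ∑ i, v i * pderiv i f := by
  have h : ∀ (s : Finset κ) (f : MvPolynomial κ F),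
      (∑ i ∈ s, v i • pderiv (R := F) i) f = ∑ i ∈ s, v i * pderiv i f := by
    intro s f
    induction s using Finset.induction_on with
    | empty => simp
    | insert a s ha ih => rw [Finset.sum_insert ha, Finset.sum_insert ha, Derivation.add_apply, ih]; simp
  have : mkDerivation F v = ∑ i, v i • pderiv (R := F) i := by
    apply derivation_ext; intro i
    rw [mkDerivation_X, h]
    simp [pderiv_X, Pi.single_apply]
  rw [this, h]

namespace IsLift

variable {bar : N →ₗ[MvPolynomial κ F] MvPolynomial κ F}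

theorem add {v w : κ → MvPolynomial κ F} {D E : N →ₗ[F] N} (hD : IsLift bar v D)
    (hE : IsLift bar w E) : IsLift bar (v + w) (D + E) where
  smul f n := by
    rw [mkDerivation_add', LinearMap.add_apply, hD.smul, hE.smul, Derivation.add_apply,
      LinearMap.add_apply, add_smul, smul_add]
    abel
  bar n := by
    rw [mkDerivation_add', LinearMap.add_apply, map_add, hD.bar, hE.bar, Derivation.add_apply]

theorem smul' (g : MvPolynomial κ F) {v : κ → MvPolynomial κ F} {D : N →ₗ[F] N}
    (hD : IsLift bar v D) : IsLift bar (g • v) (g • D) where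
  smul f n := by
    rw [mkDerivation_smul', LinearMap.smul_apply, hD.smul, Derivation.smul_apply,
      LinearMap.smul_apply, smul_add, smul_smul, smul_smul, smul_smul, mul_comm g f, smul_eq_mul]
  bar n := by
    rw [mkDerivation_smul', LinearMap.smul_apply, map_smul, hD.bar, Derivation.smul_apply]

theorem zero : IsLift bar (0 : κ → MvPolynomial κ F) 0 where
  smul f n := by rw [mkDerivation_zero']; simp
  bar n := by rw [mkDerivation_zero']; simp

theorem neg {v : κ → MvPolynomial κ F} {D : N →ₗ[F] N} (hD : IsLift bar v D) :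
    IsLift bar (-v) (-D) := by
  have := hD.smul' (-1)
  simpa using this

theorem sum {α : Type*} (s : Finset α) {v : α → κ → MvPolynomial κ F} {D : α → N →ₗ[F] N}
    (hD : ∀ a ∈ s, IsLift bar (v a) (D a)) : IsLift bar (∑ a ∈ s, v a) (∑ a ∈ s, D a) := by
  classical
  induction s using Finset.induction_on with
  | empty => simpa using zero
  | insert a s ha ih =>
    rw [Finset.sum_insert ha, Finset.sum_insert ha]
    exact (hD a (Finset.mem_insert_self a s)).add
      (ih fun b hb => hD b (Finset.mem_insert_of_mem hb))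

/-- If the coefficients of the field lie in `u`, then the lift preserves `u ^ a N`. -/
theorem preserves {v : κ → MvPolynomial κ F} {D : N →ₗ[F] N} (hD : IsLift bar v D)
    (u : Ideal (MvPolynomial κ F)) (hv : ∀ i, v i ∈ u) (a : ℕ) (n : N)
    (hn : n ∈ u ^ a • (⊤ : Submodule (MvPolynomial κ F) N)) :
    D n ∈ u ^ a • (⊤ : Submodule (MvPolynomial κ F) N) := by
  have key : ∀ a : ℕ, ∀ f ∈ u ^ a, mkDerivation F v f ∈ u ^ a := by
    intro a
    induction a with
    | zero => intro f _; simp
    | succ a ih =>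
      intro f hf
      rw [pow_succ] at hf
      refine Submodule.mul_induction_on hf ?_ ?_
      · intro x hx y hy
        rw [Derivation.leibniz, smul_eq_mul, smul_eq_mul]
        apply Ideal.add_mem
        · rw [pow_succ]
          apply Ideal.mul_mem_mul hx
          rw [mkDerivation_apply']
          exact Ideal.sum_mem _ fun i _ => Ideal.mul_mem_right _ _ (hv i)
        · rw [mul_comm, pow_succ]
          exact Ideal.mul_mem_mul (ih x hx) hy
      · intro x y hx hy
        rw [map_add]
        exact Ideal.add_mem _ hx hy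
  refine Submodule.smul_induction_on hn ?_ ?_
  · intro f hf n _
    rw [hD.smul]
    exact Submodule.add_mem _ (Submodule.smul_mem_smul (key a f hf) trivial)
      (Submodule.smul_mem_smul hf trivial)
  · intro x y hx hy
    rw [map_add]
    exact Submodule.add_mem _ hx hy

end IsLift

/-- The flow sequence. -/
noncomputable def Rseq (Ev : ℕ → Module.End F N) : ℕ → Module.End F N
  | 0 => 1
  | (k + 1) => ((k : F) + 1)⁻¹ • ∑ i : Fin (k + 1), Ev (k - i.1) * Rseq Ev i.1
decreasing_by exact i.2

theorem Rseq_zero (Ev : ℕ → Module.End F N) : Rseq Ev 0 = 1 := by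
  rw [Rseq]

theorem Rseq_succ [CharZero F] (Ev : ℕ → Module.End F N) (k : ℕ) (n : N) :
    ((k : F) + 1) • Rseq Ev (k + 1) n =
      ∑ p ∈ antidiagonal k, Ev p.2 (Rseq Ev p.1 n) := by
  have hk : ((k : F) + 1) ≠ 0 := by exact_mod_cast Nat.succ_ne_zero k
  rw [Rseq, LinearMap.smul_apply, smul_smul, mul_inv_cancel₀ hk, one_smul,
    Finset.Nat.sum_antidiagonal_eq_sum_range_succ (f := fun a b => Ev b (Rseq Ev a n)),
    LinearMap.sum_apply]
  rw [← Fin.sum_univ_eq_sum_range (fun a => Ev (k - a) (Rseq Ev a n)) (k + 1)]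
  rfl


/-- The basic commutation relation of the flow. -/
theorem Rseq_comm [CharZero F] {bar : N →ₗ[MvPolynomial κ F] MvPolynomial κ F}
    (G : κ → MvPolynomial κ F) (Y : ℕ → κ → MvPolynomial κ F) (Ev : ℕ → Module.End F N)
    (hY0 : Y 0 = G) (hY : ∀ k j, Y (k + 1) j = - mkDerivation F (Y k) (G j))
    (hEv : ∀ k, IsLift bar (Y k) (Ev k)) (j : κ) (n : N) (k : ℕ) :
    Rseq Ev (k + 1) ((X j : MvPolynomial κ F) • n) =
      (X j : MvPolynomial κ F) • Rseq Ev (k + 1) n + G j • Rseq Ev k n := by
  induction k using Nat.strong_induction_on with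
  | _ k ih =>
  have hk : ((k : F) + 1) ≠ 0 := by exact_mod_cast Nat.succ_ne_zero k
  have hX : ∀ i m, Ev i ((X j : MvPolynomial κ F) • m) =
      Y i j • m + (X j : MvPolynomial κ F) • Ev i m := by
    intro i m
    rw [(hEv i).smul, mkDerivation_X]
  have hG : ∀ i m, Ev i (G j • m) = G j • Ev i m - Y (i + 1) j • m := by
    intro i m
    rw [(hEv i).smul, hY, neg_smul]
    abel
  have key : ((k : F) + 1) • Rseq Ev (k + 1) ((X j : MvPolynomial κ F) • n) =
      ((k : F) + 1) • ((X j : MvPolynomial κ F) • Rseq Ev (k + 1) n + G j • Rseq Ev k n) := by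
    rw [Rseq_succ, smul_add, smul_comm ((k : F) + 1) (X j : MvPolynomial κ F), Rseq_succ]
    rcases k with _ | k
    · simp [Rseq_zero, hX, hY0, add_comm]
    · have h1 : ∑ p ∈ antidiagonal (k + 1), Ev p.2 (Rseq Ev p.1 ((X j : MvPolynomial κ F) • n)) =
          ∑ p ∈ antidiagonal (k + 1), Ev p.2 ((X j : MvPolynomial κ F) • Rseq Ev p.1 n) +
          ∑ q ∈ antidiagonal k, Ev q.2 (G j • Rseq Ev q.1 n) := by
        rw [Finset.Nat.sum_antidiagonal_succ, Finset.Nat.sum_antidiagonal_succ, add_assoc,
          ← Finset.sum_add_distrib]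
        congr 1
        · simp [Rseq_zero]
        · apply Finset.sum_congr rfl
          intro q hq
          have hq' : q.1 < k + 1 := by
            have := mem_antidiagonal.1 hq
            omega
          rw [ih q.1 hq', map_add]
      rw [h1]
      simp_rw [hX, hG]
      rw [Finset.sum_add_distrib, Finset.sum_sub_distrib, ← Finset.smul_sum, ← Finset.smul_sum,
        ← Rseq_succ Ev k]
      have h2 : ∑ p ∈ antidiagonal (k + 1), Y p.2 j • Rseq Ev p.1 n =
          G j • Rseq Ev (k + 1) n + ∑ q ∈ antidiagonal k, Y (q.2 + 1) j • Rseq Ev q.1 n := by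
        rw [Finset.Nat.sum_antidiagonal_succ', hY0]
      rw [h2, smul_comm (G j) ((k : F) + 1)]
      push_cast
      rw [add_smul ((k : F) + 1) 1, one_smul]
      abel
  have := congrArg (fun z => ((k : F) + 1)⁻¹ • z) key
  simpa [smul_smul, inv_mul_cancel₀ hk] using this

/-- The flow theorem. -/
theorem flow [CharZero F] (bar : N →ₗ[MvPolynomial κ F] MvPolynomial κ F)
    (u : Ideal (MvPolynomial κ F)) (K0 : ℕ)
    (hK : ∀ n ∈ u ^ K0 • (⊤ : Submodule (MvPolynomial κ F) N), bar n = 0 → n = 0)
    (G : κ → MvPolynomial κ F) (hG : ∀ i, G i ∈ u ^ 2) (hG' : ∀ i j, pderiv j (G i) ∈ u)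
    (E : κ → N →ₗ[F] N) (hE : ∀ j, IsLift bar (fun i => pderiv j (G i)) (E j))
    (D0 : N →ₗ[F] N) (hD0 : IsLift bar G D0)
    (hD0' : ∀ a n, n ∈ u ^ a • (⊤ : Submodule (MvPolynomial κ F) N) →
      D0 n ∈ u ^ (a + 1) • (⊤ : Submodule (MvPolynomial κ F) N))
    (e : κ → N) (he : ∀ i, bar (e i) = X i) :
    ∃ T : N →ₗ[F] N, (∀ m, bar m = 0 → bar (T m) = 0) ∧ (∀ m, bar m = 0 → T m = 0 → m = 0) ∧
      (∀ j, bar (T (e j)) = X j + G j) ∧
      (∀ (j : κ) m, bar m = 0 → T ((X j : MvPolynomial κ F) • m) = (X j + G j) • T m) ∧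
      (∀ j k : κ, T ((X j : MvPolynomial κ F) • e k - (X k : MvPolynomial κ F) • e j) =
        (X j + G j) • T (e k) - (X k + G k) • T (e j)) := by
  classical
  -- the vector fields
  let Y : ℕ → κ → MvPolynomial κ F := fun k =>
    Nat.rec (motive := fun _ => κ → MvPolynomial κ F) G
      (fun _ Yk i => - ∑ l, Yk l * pderiv l (G i)) k
  have hY0 : Y 0 = G := rfl
  have hYs : ∀ k i, Y (k + 1) i = - ∑ l, Y k l * pderiv l (G i) := fun k i => rfl
  have hY : ∀ k j, Y (k + 1) j = - mkDerivation F (Y k) (G j) := by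
    intro k j; rw [hYs, mkDerivation_apply']
  have hYu : ∀ k j, Y k j ∈ u ^ (k + 2) := by
    intro k
    induction k with
    | zero => intro j; simpa [hY0] using hG j
    | succ k ih =>
      intro j
      rw [hYs]
      apply Ideal.neg_mem_iff _ |>.2
      apply Ideal.sum_mem
      intro l _
      rw [show k + 1 + 2 = (k + 2) + 1 by ring, pow_succ]
      exact Ideal.mul_mem_mul (ih l) (hG' j l)
  -- the lifts
  let Ev : ℕ → Module.End F N := fun k =>
    match k with
    | 0 => D0
    | (k + 1) => - ∑ l, Y k l • E l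
  have hEv : ∀ k, IsLift bar (Y k) (Ev k) := by
    intro k
    rcases k with _ | k
    · exact hD0
    · have h1 : Y (k + 1) = - ∑ l, Y k l • (fun i => pderiv l (G i)) := by
        funext i
        rw [hYs]
        simp [Finset.sum_apply]
      rw [h1]
      exact (IsLift.sum _ fun l _ => (hE l).smul' (Y k l)).neg
  have hEvu : ∀ k a n, n ∈ u ^ a • (⊤ : Submodule (MvPolynomial κ F) N) →
      Ev k n ∈ u ^ (a + k + 1) • (⊤ : Submodule (MvPolynomial κ F) N) := by
    intro k a n hn
    rcases k with _ | k
    · exact hD0' a n hn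
    · change (- ∑ l, Y k l • E l) n ∈ _
      rw [LinearMap.neg_apply, LinearMap.sum_apply]
      apply Submodule.neg_mem
      apply Submodule.sum_mem
      intro l _
      have h1 := (hE l).preserves u (fun i => hG' i l) a n hn
      rw [LinearMap.smul_apply]
      have h2 := Submodule.smul_mem_smul (hYu k l) h1
      rw [← Submodule.mul_smul, ← pow_add] at h2
      have h3 : k + 2 + a = a + (k + 1) + 1 := by ring
      rw [h3] at h2
      exact h2
  clear_value Ev Y
  have hEb : ∀ i n, bar (Ev i n) = mkDerivation F (Y i) (bar n) := fun i n => (hEv i).bar n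
  let R := Rseq Ev
  have hR0 : ∀ n, R 0 n = n := by intro n; simp [R, Rseq_zero]
  have hRs : ∀ (k : ℕ) (n : N), ((k : F) + 1) • R (k + 1) n = ∑ p ∈ antidiagonal k, Ev p.2 (R p.1 n) :=
    fun k n => Rseq_succ Ev k n
  have hRc : ∀ j n k, R (k + 1) ((X j : MvPolynomial κ F) • n) =
      (X j : MvPolynomial κ F) • R (k + 1) n + G j • R k n :=
    fun j n k => Rseq_comm G Y Ev hY0 hY hEv j n k
  have hk : ∀ k : ℕ, ((k : F) + 1) ≠ 0 := fun k => by exact_mod_cast Nat.succ_ne_zero k
  have cancel : ∀ (k : ℕ) (P : Submodule F N) (n : N), ((k : F) + 1) • n ∈ P → n ∈ P := by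
    intro k P n h
    have := P.smul_mem ((k : F) + 1)⁻¹ h
    rwa [smul_smul, inv_mul_cancel₀ (hk k), one_smul] at this
  -- filtration
  have hRu : ∀ k a n, n ∈ u ^ a • (⊤ : Submodule (MvPolynomial κ F) N) →
      R k n ∈ u ^ (a + k) • (⊤ : Submodule (MvPolynomial κ F) N) := by
    intro k
    induction k using Nat.strong_induction_on with
    | _ k ih =>
    intro a n hn
    rcases k with _ | k
    · simpa [hR0] using hn
    · apply cancel k ((u ^ (a + (k + 1)) • (⊤ : Submodule (MvPolynomial κ F) N)).restrictScalars F)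
      rw [hRs]
      apply Submodule.sum_mem
      intro p hp
      have hp' := mem_antidiagonal.1 hp
      have h1 := ih p.1 (by omega) a n hn
      have h2 := hEvu p.2 _ _ h1
      have h3 : a + p.1 + p.2 + 1 = a + (k + 1) := by omega
      rw [h3] at h2
      exact h2
  -- bar of the flow on the kernel
  have hRbar0 : ∀ k m, bar m = 0 → bar (R k m) = 0 := by
    intro k
    induction k using Nat.strong_induction_on with
    | _ k ih =>
    intro m hm
    rcases k with _ | k
    · simpa [hR0] using hm
    · apply cancel k ((LinearMap.ker bar).restrictScalars F)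
      rw [hRs]
      apply Submodule.sum_mem
      intro p hp
      have hp' := mem_antidiagonal.1 hp
      have h1 := ih p.1 (by omega) m hm
      change bar _ = 0
      rw [(hEv p.2).bar, h1, map_zero]
  -- bar of the flow on `e j`
  have hbarF : ∀ (c : F) (n : N), bar (c • n) = c • bar n := by
    intro c n
    rw [← algebraMap_smul (MvPolynomial κ F) c n, map_smul, algebraMap_smul]
  have hR1 : ∀ j, bar (R 1 (e j)) = G j := by
    intro j
    have := hRs 0 (e j)
    simp only [Nat.cast_zero, zero_add, one_smul, Finset.Nat.antidiagonal_zero,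
      Finset.sum_singleton] at this
    rw [this, hR0, (hEv 0).bar, he, mkDerivation_X, hY0]
  have hR2 : ∀ k j, bar (R (k + 2) (e j)) = 0 := by
    intro k
    induction k using Nat.strong_induction_on with
    | _ k ih =>
    intro j
    have h1 := hRs (k + 1) (e j)
    have h2 := congrArg bar h1
    rw [hbarF, map_sum, Finset.Nat.sum_antidiagonal_succ] at h2
    have h3 : ∑ p ∈ antidiagonal k, bar (Ev p.2 (R (p.1 + 1) (e j))) =
        mkDerivation F (Y k) (G j) := by
      rcases k with _ | k
      · simp only [Finset.Nat.antidiagonal_zero, Finset.sum_singleton]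
        rw [hEb, hR1]
      · rw [Finset.Nat.sum_antidiagonal_succ]
        dsimp only
        rw [hEb, hR1]
        rw [Finset.sum_eq_zero, add_zero]
        intro q hq
        have hq' := mem_antidiagonal.1 hq
        rw [hEb, ih q.1 (by omega), map_zero]
    dsimp only at h2
    rw [h3, hR0, hEb, he, mkDerivation_X, hY, neg_add_cancel] at h2
    have h4 := congrArg (fun z => ((((k + 1 : ℕ) : F) + 1)⁻¹) • z) h2
    simpa only [smul_smul, inv_mul_cancel₀ (hk (k + 1)), one_smul, smul_zero] using h4
  -- the operator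
  let T : N →ₗ[F] N := ∑ k ∈ Finset.range (K0 + 3), R k
  have hT : ∀ n, T n = ∑ k ∈ Finset.range (K0 + 3), R k n := by
    intro n; simp [T]
  -- commutation
  have hTc : ∀ j n, R (K0 + 2) n = 0 →
      T ((X j : MvPolynomial κ F) • n) = (X j + G j) • T n := by
    intro j n hn
    have h1 : ∑ k ∈ Finset.range (K0 + 3), R k n = ∑ k ∈ Finset.range (K0 + 2), R (k + 1) n + n := by
      rw [Finset.sum_range_succ', hR0]
    have h2 : ∑ k ∈ Finset.range (K0 + 3), R k n = ∑ k ∈ Finset.range (K0 + 2), R k n := by
      rw [Finset.sum_range_succ, hn, add_zero]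
    have e1 : (X j : MvPolynomial κ F) • T n =
        (X j : MvPolynomial κ F) • ∑ k ∈ Finset.range (K0 + 2), R (k + 1) n +
          (X j : MvPolynomial κ F) • n := by
      rw [hT, h1, smul_add]
    have e2 : G j • T n = G j • ∑ k ∈ Finset.range (K0 + 2), R k n := by
      rw [hT, h2]
    rw [add_smul, e1, e2, hT, Finset.sum_range_succ']
    simp_rw [hRc, hR0]
    rw [Finset.sum_add_distrib, ← Finset.smul_sum, ← Finset.smul_sum]
    abel
  have htop : ∀ n, R (K0 + 2) n ∈ u ^ K0 • (⊤ : Submodule (MvPolynomial κ F) N) := by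
    intro n
    have h1 := hRu (K0 + 2) 0 n (by simp)
    have h2 : u ^ (0 + (K0 + 2)) • (⊤ : Submodule (MvPolynomial κ F) N) ≤ u ^ K0 • ⊤ :=
      Submodule.smul_mono_left (Ideal.pow_le_pow_right (by omega))
    exact h2 h1
  have hRK : ∀ j, R (K0 + 2) (e j) = 0 := fun j => hK _ (htop _) (hR2 K0 j)
  have hRKm : ∀ m, bar m = 0 → R (K0 + 2) m = 0 := fun m hm => hK _ (htop _) (hRbar0 _ m hm)
  refine ⟨T, ?_, ?_, ?_, ?_, ?_⟩
  · intro m hm
    rw [hT, map_sum]
    exact Finset.sum_eq_zero fun k _ => hRbar0 k m hm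
  · intro m hm hTm
    have h1 : ∀ a : ℕ, m ∈ u ^ a • (⊤ : Submodule (MvPolynomial κ F) N) := by
      intro a
      induction a with
      | zero => simp
      | succ a ih =>
        rw [hT, Finset.sum_range_succ', hR0] at hTm
        have h2 : m = - ∑ k ∈ Finset.range (K0 + 2), R (k + 1) m :=
          eq_neg_of_add_eq_zero_right hTm
        rw [h2]
        apply Submodule.neg_mem
        apply Submodule.sum_mem
        intro k _
        have h3 := hRu (k + 1) a m ih
        have h4 : u ^ (a + (k + 1)) • (⊤ : Submodule (MvPolynomial κ F) N) ≤ u ^ (a + 1) • ⊤ :=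
          Submodule.smul_mono_left (Ideal.pow_le_pow_right (by omega))
        exact h4 h3
    exact hK m (h1 K0) hm
  · intro j
    rw [hT, map_sum, Finset.sum_range_succ', Finset.sum_range_succ', hR0, he, hR1]
    rw [Finset.sum_eq_zero (fun k _ => hR2 k j)]
    ring
  · intro j m hm
    exact hTc j m (hRKm m hm)
  · intro j k
    rw [map_sub, hTc j _ (hRK k), hTc k _ (hRK j)]

end MP6e5a6a
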