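import Pool.Agent.Lib.MP_6e5a6a_al.Basic

/-!
# The canonical map `L → U(L)` is injective for a finite-dimensional solvable Lie algebra
-/

open UniversalEnvelopingAlgebra MvPolynomial

attribute [local instance 100] LieRing.ofAssociativeRing

namespace MP6e5a6a

/-- coefficientwise left multiplication on `A × A` -/
private noncomputable def iiMul (F : Type*) [Field F] (A : Type*) [Ring A] [Algebra F A] :
    A →ₗ[F] Module.End F (A × A) where
  toFun a := LinearMap.prodMap (LinearMap.mulLeft F a) (LinearMap.mulLeft F a)
  map_add' a b := by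
    apply LinearMap.ext
    rintro ⟨u, v⟩
    simp [add_mul]
  map_smul' c a := by
    apply LinearMap.ext
    rintro ⟨u, v⟩
    simp

private theorem iiMul_apply {F : Type*} [Field F] {A : Type*} [Ring A] [Algebra F A] (a : A)
    (u : A × A) : iiMul F A a u = (a * u.1, a * u.2) := rfl

/-- derivation plus shift on `A × A` -/
private noncomputable def iiDer {F : Type*} [Field F] {A : Type*} [Ring A] [Algebra F A]
    (δ : A →ₗ[F] A) : Module.End F (A × A) :=
  LinearMap.prodMap δ δ + (LinearMap.inr F A A).comp (LinearMap.fst F A A)

private theorem iiDer_apply {F : Type*} [Field F] {A : Type*} [Ring A] [Algebra F A]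
    (δ : A →ₗ[F] A) (u : A × A) : iiDer δ u = (δ u.1, δ u.2 + u.1) := by
  simp [iiDer]

private theorem ii_bracket {F : Type*} [Field F] {A : Type*} [Ring A] [Algebra F A]
    (δ : A →ₗ[F] A) (hδ : ∀ u v, δ (u * v) = δ u * v + u * δ v) (a : A) :
    iiDer δ * iiMul F A a - iiMul F A a * iiDer δ = iiMul F A (δ a) := by
  apply LinearMap.ext
  rintro ⟨u, v⟩
  simp only [LinearMap.sub_apply, Module.End.mul_apply, iiMul_apply, iiDer_apply, hδ]
  ext
  · simp
  · simp [mul_add]

private theorem ii_mul {F : Type*} [Field F] {A : Type*} [Ring A] [Algebra F A] (a b : A) :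
    iiMul F A a * iiMul F A b = iiMul F A (a * b) := by
  apply LinearMap.ext
  rintro ⟨u, v⟩
  simp [iiMul_apply, mul_assoc]

private theorem iota_injective_aux (F : Type*) [Field F] (n : ℕ) :
    ∀ (L : Type*) [LieRing L] [LieAlgebra F L] [FiniteDimensional F L] [LieAlgebra.IsSolvable L],
      Module.finrank F L ≤ n → Function.Injective (ι F : L → UniversalEnvelopingAlgebra F L) := by
  induction n with
  | zero =>
    intro L _ _ _ _ hn
    have : Subsingleton L := by
      rw [← Module.finrank_zero_iff (R := F)]
      omega
    exact Function.injective_of_subsingleton _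
  | succ n ih =>
    intro L _ _ _ _ hn
    rcases subsingleton_or_nontrivial L with hs | hnt
    · exact Function.injective_of_subsingleton _
    obtain ⟨K, x, hx, hK⟩ := exists_codim_one (F := F) (L := L)
    -- the functional
    obtain ⟨f0, hf0, hf0K⟩ := Submodule.exists_dual_map_eq_bot_of_notMem
      (p := (K : Submodule F L)) (x := x) hx inferInstance
    have hf0K' : ∀ k ∈ K, f0 k = 0 := by
      intro k hk
      have : f0 k ∈ (K : Submodule F L).map f0 := Submodule.mem_map_of_mem hk
      rw [hf0K] at this
      simpa using this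
    let c : L →ₗ[F] F := (f0 x)⁻¹ • f0
    have hcx : c x = 1 := by
      change (f0 x)⁻¹ * f0 x = 1
      exact inv_mul_cancel₀ hf0
    have hcK : ∀ k ∈ K, c k = 0 := by
      intro k hk
      change (f0 x)⁻¹ * f0 k = 0
      rw [hf0K' k hk, mul_zero]
    have hsub : ∀ l : L, l - c l • x ∈ K := by
      intro l
      obtain ⟨c0, hc0⟩ := hK l
      have h1 := hcK _ hc0
      rw [map_sub, map_smul, hcx, smul_eq_mul, mul_one, sub_eq_zero] at h1
      rw [h1]
      exact hc0
    have hclie : ∀ a b : L, c ⁅a, b⁆ = 0 := by
      intro a b
      apply hcK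
      have ha := hsub a
      have hb := hsub b
      have e : ⁅a, b⁆ = ⁅a, b - c b • x⁆ + c b • ⁅a - c a • x, x⁆ := by
        simp only [lie_sub, sub_lie, lie_smul, smul_lie, lie_self, smul_zero, sub_zero]
        abel
      rw [e]
      apply K.add_mem
      · exact lie_mem_right F L K _ _ hb
      · exact K.smul_mem _ (lie_mem_left F L K _ _ ha)
    -- the projection
    let pr : L →ₗ[F] K :=
      { toFun := fun l => ⟨l - c l • x, hsub l⟩
        map_add' := fun a b => by
          apply Subtype.ext
          simp only [map_add, add_smul, LieSubmodule.coe_add]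
          abel
        map_smul' := fun r a => by
          apply Subtype.ext
          simp only [map_smul, smul_eq_mul, mul_smul, RingHom.id_apply, LieSubmodule.coe_smul,
            smul_sub] }
    have hpr : ∀ l, (pr l : L) = l - c l • x := fun l => rfl
    have hsolv : LieAlgebra.IsSolvable K := by
      have hinj : Function.Injective (K.incl : K →ₗ⁅F⁆ L) := Subtype.val_injective
      exact hinj.lieAlgebra_isSolvable
    have hfin : FiniteDimensional F K :=
      inferInstanceAs (FiniteDimensional F (K : Submodule F L))
    have hrank : Module.finrank F K ≤ n := by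
      have h1 : Module.finrank F (K : Submodule F L) < Module.finrank F L := by
        apply Submodule.finrank_lt
        intro htop
        apply hx
        have : x ∈ (K : Submodule F L) := by rw [htop]; trivial
        exact this
      have h2 : Module.finrank F K = Module.finrank F (K : Submodule F L) := rfl
      omega
    have ihK := ih K hrank
    -- the derivation
    let ad : K →ₗ[F] K :=
      { toFun := fun k => ⟨⁅x, (k : L)⁆, lie_mem_right F L K _ _ k.2⟩
        map_add' := fun a b => by
          apply Subtype.ext
          simp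
        map_smul' := fun r a => by
          apply Subtype.ext
          simp }
    have had : ∀ k, (ad k : L) = ⁅x, (k : L)⁆ := fun k => rfl
    obtain ⟨δ, hδ1, hδ2⟩ := derLift (F := F) (L := K) ((ι F : K →ₗ⁅F⁆ UniversalEnvelopingAlgebra F K).toLinearMap.comp ad)
      (by
        intro a b
        have e : ad ⁅a, b⁆ = ⁅ad a, b⁆ + ⁅a, ad b⁆ := by
          apply Subtype.ext
          simp only [LieSubmodule.coe_add, LieIdeal.coe_bracket_of_module, LieSubmodule.coe_bracket]
          simp only [had]
          exact leibniz_lie x (a : L) (b : L)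
        change ι F (ad ⁅a, b⁆) = ⁅ι F (ad a), ι F b⁆ + ⁅ι F a, ι F (ad b)⁆
        rw [e, map_add, LieHom.map_lie, LieHom.map_lie])
    have hδ3 : ∀ k : K, δ (ι F k) = ι F (ad k) := hδ2
    have hprlie : ∀ a b : L, pr ⁅a, b⁆ = ⁅pr a, pr b⁆ + c a • ad (pr b) - c b • ad (pr a) := by
      intro a b
      apply Subtype.ext
      rw [hpr, hclie, zero_smul, sub_zero]
      have e1 : ((⁅pr a, pr b⁆ + c a • ad (pr b) - c b • ad (pr a) : K) : L) =
          ⁅(pr a : L), (pr b : L)⁆ + c a • ⁅x, (pr b : L)⁆ - c b • ⁅x, (pr a : L)⁆ := rfl
      rw [e1, hpr, hpr]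
      simp only [lie_sub, sub_lie, lie_smul, smul_lie, lie_self, smul_zero, sub_zero]
      rw [← lie_skew x a, smul_neg]
      abel
    let ρ : L →ₗ⁅F⁆ Module.End F (UniversalEnvelopingAlgebra F K × UniversalEnvelopingAlgebra F K) :=
      { toFun := fun l => iiMul F _ (ι F (pr l)) + c l • iiDer δ
        map_add' := fun a b => by
          simp only [map_add, add_smul]
          abel
        map_smul' := fun r a => by
          simp only [map_smul, smul_eq_mul, mul_smul, RingHom.id_apply, smul_add]
        map_lie' := fun {a b} => by
          rw [hclie, zero_smul, add_zero, hprlie, map_sub, map_add, map_smul, map_smul,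
            LieHom.map_lie, ← hδ3, ← hδ3, LieRing.of_associative_ring_bracket,
            LieRing.of_associative_ring_bracket, map_sub, map_add, map_smul, map_smul, map_sub,
            ← ii_mul, ← ii_mul, ← ii_bracket δ hδ1, ← ii_bracket δ hδ1]
          simp only [mul_add, add_mul, smul_mul_assoc, mul_smul_comm, smul_sub]
          rw [smul_add, smul_add, smul_comm (c a) (c b) (iiDer δ * iiDer δ)]
          abel }
    have hρ : ∀ l, ρ l = iiMul F _ (ι F (pr l)) + c l • iiDer δ := fun l => rfl
    rw [injective_iff_map_eq_zero]
    intro l hl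
    have h0 : ρ l = 0 := by
      have := lift_ι_apply F ρ l
      rw [← this, hl, map_zero]
    have h1 := LinearMap.congr_fun h0 ((1 : UniversalEnvelopingAlgebra F K), (0 : UniversalEnvelopingAlgebra F K))
    rw [hρ, LinearMap.add_apply, LinearMap.smul_apply, iiMul_apply, iiDer_apply] at h1
    have hδ0 : δ 1 = 0 := by
      have := hδ1 1 1
      simpa using this
    have h2 := congrArg Prod.snd h1
    simp only [mul_one, mul_zero, hδ0, map_zero, zero_add, Prod.snd_add, Prod.smul_snd,
      LinearMap.zero_apply, Prod.snd_zero] at h2
    have hc0 : c l = 0 := by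
      have h3 := congrArg (eps F K) h2
      rw [map_smul, map_one, map_zero, smul_eq_mul, mul_one] at h3
      exact h3
    have h4 := congrArg Prod.fst h1
    simp only [mul_one, hδ0, Prod.fst_add, Prod.smul_fst, smul_zero, add_zero,
      LinearMap.zero_apply, Prod.fst_zero] at h4
    have h5 : pr l = 0 := by
      apply ihK
      rw [h4, map_zero]
    have h6 := hpr l
    rw [h5, hc0, zero_smul, sub_zero] at h6
    rw [← h6]
    rfl

/-- TASK 2. -/
theorem iota_injective (F : Type*) [Field F] (L : Type*) [LieRing L] [LieAlgebra F L]
    [FiniteDimensional F L] [LieAlgebra.IsSolvable L] :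
    Function.Injective (ι F : L → UniversalEnvelopingAlgebra F L) :=
  iota_injective_aux F _ L le_rfl

end MP6e5a6a
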