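import Pool.Agent.Lib.MP_6e5a6a_al.Noeth
import Pool.Agent.Lib.MP_6e5a6a_al.IotaInj

/-!
# A Hopfian property (for MP_6e5a6a_al)

If `L` is a finite-dimensional solvable Lie algebra, `U(L) ≃ U(H)` as algebras and
`θ : H → L` is a surjective homomorphism of Lie algebras, then `θ` is injective.
-/

open UniversalEnvelopingAlgebra MvPolynomial

attribute [local instance 100] LieRing.ofAssociativeRing

namespace MP6e5a6a

/-- A surjective endomorphism of a left Noetherian ring is injective. -/
theorem ringHom_injective_of_surjective {A : Type*} [Ring A] [IsNoetherianRing A] (g : A →+* A)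
    (hg : Function.Surjective g) : Function.Injective g := by
  have hsurj : ∀ n : ℕ, Function.Surjective (g ^ n : A →+* A) := by
    intro n
    rw [RingHom.coe_pow]
    exact hg.iterate n
  have hmono : Monotone (fun n : ℕ => RingHom.ker (g ^ n : A →+* A)) := by
    apply monotone_nat_of_le_succ
    intro n x hx
    rw [RingHom.mem_ker] at hx ⊢
    rw [pow_succ', RingHom.mul_def, RingHom.comp_apply, hx, map_zero]
  obtain ⟨n, hn⟩ := monotone_stabilizes_iff_noetherian.mpr (inferInstance : IsNoetherian A A)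
    ⟨_, hmono⟩
  rw [injective_iff_map_eq_zero]
  intro y hy
  obtain ⟨z, rfl⟩ := hsurj n y
  have h1 : z ∈ RingHom.ker (g ^ (n + 1) : A →+* A) := by
    rw [RingHom.mem_ker, pow_succ', RingHom.mul_def, RingHom.comp_apply]
    exact hy
  have h2 := hn (n + 1) (Nat.le_succ n)
  have h3 : RingHom.ker (g ^ n : A →+* A) = RingHom.ker (g ^ (n + 1) : A →+* A) := h2
  rw [← h3, RingHom.mem_ker] at h1
  exact h1

/-- A Lie algebra with a homomorphism to a solvable Lie algebra with central kernel is
solvable. -/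
theorem isSolvable_of_central_ker {F : Type*} [Field F] {L : Type*} [LieRing L] [LieAlgebra F L]
    [LieAlgebra.IsSolvable L] {Q : Type*} [LieRing Q] [LieAlgebra F Q] (f : Q →ₗ⁅F⁆ L)
    (hf : ∀ q, f q = 0 → ∀ y : Q, ⁅q, y⁆ = 0) : LieAlgebra.IsSolvable Q := by
  obtain ⟨k, hk⟩ := LieAlgebra.IsSolvable.solvable (R := F) (L := L)
  have h1 : ∀ q ∈ LieAlgebra.derivedSeries F Q k, f q = 0 := by
    intro q hq
    have h2 : f q ∈ LieAlgebra.derivedSeries F L k :=
      LieIdeal.derivedSeries_map_le (f := f) k (LieIdeal.mem_map hq)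
    rw [hk] at h2
    exact (LieSubmodule.mem_bot _).mp h2
  apply LieAlgebra.IsSolvable.mk (R := F) (k := k + 1)
  rw [LieAlgebra.derivedSeries_def, LieAlgebra.derivedSeriesOfIdeal_succ,
    LieSubmodule.lie_eq_bot_iff]
  intro x hx m _
  exact hf x (h1 x hx) m

/-- The Hopfian property. -/
theorem hopf {F : Type*} [Field F] {L : Type*} [LieRing L] [LieAlgebra F L]
    [FiniteDimensional F L] [LieAlgebra.IsSolvable L] {H : Type*} [LieRing H] [LieAlgebra F H]
    (e : UniversalEnvelopingAlgebra F L ≃ₐ[F] UniversalEnvelopingAlgebra F H) (θ : H →ₗ⁅F⁆ L) (hθ : Function.Surjective θ) :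
    Function.Injective θ := by
  -- the induced map on enveloping algebras
  let g : UniversalEnvelopingAlgebra F H →ₐ[F] UniversalEnvelopingAlgebra F L := lift F ((ι F).comp θ)
  have hgι : ∀ h : H, g (ι F h) = ι F (θ h) := by
    intro h
    simp only [g, lift_ι_apply]
    rfl
  have hgs : Function.Surjective g := by
    intro u
    refine uea_induction (P := fun u => ∃ v, g v = u) ?_ ?_ ?_ ?_ u
    · intro c
      exact ⟨algebraMap F _ c, AlgHom.commutes g c⟩
    · intro x
      obtain ⟨h, rfl⟩ := hθ x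
      exact ⟨ι F h, hgι h⟩
    · rintro _ _ ⟨a, rfl⟩ ⟨b, rfl⟩
      exact ⟨a + b, map_add g a b⟩
    · rintro _ _ ⟨a, rfl⟩ ⟨b, rfl⟩
      exact ⟨a * b, map_mul g a b⟩
  have hN : IsNoetherianRing (UniversalEnvelopingAlgebra F L) := noeth F L
  have hNH : IsNoetherianRing (UniversalEnvelopingAlgebra F H) := isNoetherianRing_of_ringEquiv _ e.toRingEquiv
  have hinj' : Function.Injective ((e : UniversalEnvelopingAlgebra F L →+* UniversalEnvelopingAlgebra F H).comp (g : UniversalEnvelopingAlgebra F H →+* UniversalEnvelopingAlgebra F L)) := by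
    apply ringHom_injective_of_surjective
    intro y
    obtain ⟨z, hz⟩ := e.surjective y
    obtain ⟨w, hw⟩ := hgs z
    exact ⟨w, by
      change e (g w) = y
      rw [hw, hz]⟩
  have hinj : Function.Injective g := by
    intro a b hab
    apply hinj'
    change e (g a) = e (g b)
    rw [hab]
  -- elements of the kernel of `θ` vanish in `U(H)`
  have hker : ∀ r : H, θ r = 0 → (ι F r : UniversalEnvelopingAlgebra F H) = 0 := by
    intro r hr
    apply hinj
    rw [hgι, hr, map_zero, map_zero]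
  -- hence they are central
  have hcent : ∀ r : H, θ r = 0 → ∀ y : H, ⁅r, y⁆ = 0 := by
    intro r hr y
    have h1 : lift F (LieAlgebra.ad F H) (ι F r) = LieAlgebra.ad F H r := by
      rw [lift_ι_apply]
    rw [hker r hr, map_zero] at h1
    have h2 := congrArg (fun T : Module.End F H => T y) h1
    simpa using h2.symm
  rw [injective_iff_map_eq_zero]
  intro r hr
  by_contra hne
  obtain ⟨φ, hφ⟩ : ∃ φ : H →ₗ[F] F, φ r ≠ 0 := by
    by_contra hcon
    push Not at hcon
    exact hne ((Module.forall_dual_apply_eq_zero_iff F r).mp hcon)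
  let R0 : LieIdeal F H :=
    { carrier := {z | θ z = 0 ∧ φ z = 0}
      add_mem' := fun {a b} ha hb => ⟨by rw [map_add, ha.1, hb.1, add_zero],
        by rw [map_add, ha.2, hb.2, add_zero]⟩
      zero_mem' := ⟨map_zero _, map_zero _⟩
      smul_mem' := fun c x hx => ⟨by rw [map_smul, hx.1, smul_zero],
        by rw [map_smul, hx.2, smul_zero]⟩
      lie_mem := fun {a m} hm => by
        have h0 : ⁅a, m⁆ = 0 := by
          rw [← lie_skew, hcent m hm.1 a, neg_zero]
        change θ ⁅a, m⁆ = 0 ∧ φ ⁅a, m⁆ = 0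
        rw [h0]
        exact ⟨map_zero _, map_zero _⟩ }
  have hR0 : ∀ z, z ∈ R0 ↔ θ z = 0 ∧ φ z = 0 := fun z => Iff.rfl
  -- the quotient
  let Q := H ⧸ R0
  let mk : H →ₗ⁅F⁆ Q :=
    { R0.toSubmodule.mkQ with
      map_lie' := fun {x y} => rfl }
  have hmks : Function.Surjective mk := Submodule.mkQ_surjective R0.toSubmodule
  have hmk0 : ∀ z, mk z = 0 ↔ z ∈ R0 := fun z => Submodule.Quotient.mk_eq_zero R0.toSubmodule
  have hθ0 : R0.toSubmodule ≤ LinearMap.ker (θ : H →ₗ[F] L) := fun z hz => hz.1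
  have hφ0 : R0.toSubmodule ≤ LinearMap.ker φ := fun z hz => hz.2
  let θQ : Q →ₗ⁅F⁆ L :=
    { R0.toSubmodule.liftQ (θ : H →ₗ[F] L) hθ0 with
      map_lie' := by
        intro x y
        obtain ⟨a, rfl⟩ := hmks x
        obtain ⟨b, rfl⟩ := hmks y
        exact θ.map_lie a b }
  have hθQ : ∀ z, θQ (mk z) = θ z := fun z => rfl
  let φQ : Q →ₗ[F] F := R0.toSubmodule.liftQ φ hφ0
  have hφQ : ∀ z, φQ (mk z) = φ z := fun z => rfl
  have hfin : FiniteDimensional F Q := by
    apply Module.Finite.of_injective ((θQ : Q →ₗ[F] L).prod φQ)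
    rw [injective_iff_map_eq_zero]
    intro q hq
    obtain ⟨z, rfl⟩ := hmks q
    rw [hmk0, hR0]
    have h1 : (θQ (mk z), φQ (mk z)) = (0 : L × F) := hq
    rw [Prod.mk_eq_zero] at h1
    exact h1
  have hsol : LieAlgebra.IsSolvable Q := by
    apply isSolvable_of_central_ker θQ
    intro q hq y
    obtain ⟨z, rfl⟩ := hmks q
    obtain ⟨w, rfl⟩ := hmks y
    rw [← LieHom.map_lie, hcent z hq w, map_zero]
  have hinjQ := iota_injective F Q
  have h1 : (ι F (mk r) : UniversalEnvelopingAlgebra F Q) = 0 := by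
    have h2 : lift F ((ι F).comp mk) (ι F r) = (ι F (mk r) : UniversalEnvelopingAlgebra F Q) := by
      rw [lift_ι_apply]
      rfl
    rw [← h2, hker r hr, map_zero]
  have h3 : mk r = 0 := by
    apply hinjQ
    rw [h1, map_zero]
  rw [hmk0, hR0] at h3
  exact hφ h3.2

end MP6e5a6a
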