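import Pool.Agent.Lib.MP_6e5a6a_al.Basic
import Pool.Agent.Lib.MP_6e5a6a_al.Flow

/-!
# The module `N = ω / I ω` (for MP_6e5a6a_al)
-/

open UniversalEnvelopingAlgebra MvPolynomial

attribute [local instance 100] LieRing.ofAssociativeRing

namespace MP6e5a6a

universe u v w

variable {F : Type u} [Field F] {L : Type v} [LieRing L] [LieAlgebra F L]
  {κ : Type w} [Fintype κ] [DecidableEq κ]

/-- the span of the products `a w`, `a ∈ ker chi`, `w ∈ ker eps` -/
def Ksub (B : Coord F L κ) : Submodule F (UniversalEnvelopingAlgebra F L) :=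
  Submodule.span F {z | ∃ a w, B.chi a = 0 ∧ eps F L w = 0 ∧ a * w = z}

theorem mul_mem_Ksub (B : Coord F L κ) {a w : UniversalEnvelopingAlgebra F L} (ha : B.chi a = 0) (hw : eps F L w = 0) :
    a * w ∈ Ksub B := Submodule.subset_span ⟨a, w, ha, hw, rfl⟩

theorem mul_left_mem_Ksub (B : Coord F L κ) (u : UniversalEnvelopingAlgebra F L) {z : UniversalEnvelopingAlgebra F L} (hz : z ∈ Ksub B) :
    u * z ∈ Ksub B := by
  refine Submodule.span_induction ?_ ?_ ?_ ?_ hz
  · rintro _ ⟨a, w, ha, hw, rfl⟩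
    rw [← mul_assoc]
    apply mul_mem_Ksub B _ hw
    rw [map_mul, ha, mul_zero]
  · rw [mul_zero]; exact (Ksub B).zero_mem
  · intro x y _ _ hx hy; rw [mul_add]; exact (Ksub B).add_mem hx hy
  · intro r x _ hx; rw [mul_smul_comm]; exact (Ksub B).smul_mem r hx

/-- The module `N = ω / I ω` with its projection. -/
theorem exists_N (B : Coord F L κ) :
    ∃ (N : Type (max u v)) (_ : AddCommGroup N) (_ : Module F N)
      (_ : Module (MvPolynomial κ F) N) (_ : IsScalarTower F (MvPolynomial κ F) N)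
      (bar : N →ₗ[MvPolynomial κ F] MvPolynomial κ F) (π : UniversalEnvelopingAlgebra F L →ₗ[F] N),
      (∀ u w, eps F L w = 0 → π (u * w) = B.chi u • π w) ∧
      (∀ n, ∃ w, eps F L w = 0 ∧ π w = n) ∧
      (∀ w, eps F L w = 0 → bar (π w) = B.chi w) ∧
      (∀ w, eps F L w = 0 → π w = 0 → w ∈ Ksub B) := by
  let ω : Submodule (UniversalEnvelopingAlgebra F L) (UniversalEnvelopingAlgebra F L) := RingHom.ker (eps F L)
  have hω : ∀ w, w ∈ ω ↔ eps F L w = 0 := fun w => RingHom.mem_ker
  let K : Submodule (UniversalEnvelopingAlgebra F L) ω := Submodule.span _ {z | ∃ a w, B.chi a = 0 ∧ a • w = z}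
  have hK : ∀ z ∈ K, (z : UniversalEnvelopingAlgebra F L) ∈ Ksub B := by
    intro z hz
    refine Submodule.span_induction ?_ ?_ ?_ ?_ hz
    · rintro _ ⟨a, w, ha, rfl⟩
      exact mul_mem_Ksub B ha ((hω _).1 w.2)
    · exact (Ksub B).zero_mem
    · intro x y _ _ hx hy
      exact (Ksub B).add_mem hx hy
    · intro r x _ hx
      exact mul_left_mem_Ksub B r hx
  have hact0 : ∀ (a : UniversalEnvelopingAlgebra F L) (n : ω ⧸ K), B.chi a = 0 → a • n = 0 := by
    intro a n ha
    obtain ⟨w, rfl⟩ := Submodule.Quotient.mk_surjective K n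
    rw [← Submodule.Quotient.mk_smul, Submodule.Quotient.mk_eq_zero]
    exact Submodule.subset_span ⟨a, w, ha, rfl⟩
  obtain ⟨gb, hgb⟩ := B.factor (Algebra.lsmul F F (ω ⧸ K)) (by
    intro l l'
    have h1 : ι F l * ι F l' - ι F l' * ι F l = ι F ⁅l, l'⁆ := by
      rw [LieHom.map_lie, LieRing.of_associative_ring_bracket]
    apply LinearMap.ext
    intro n
    change ι F l • (ι F l' • n) = ι F l' • (ι F l • n)
    rw [← sub_eq_zero, ← mul_smul, ← mul_smul, ← sub_smul, h1]
    exact hact0 _ n (B.chi_brk (lie_mem_brk l l')))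
  let _ : Module (MvPolynomial κ F) (ω ⧸ K) := Module.compHom _ gb.toRingHom
  have hsm : ∀ (u : UniversalEnvelopingAlgebra F L) (n : ω ⧸ K), B.chi u • n = u • n := by
    intro u n
    change gb (B.chi u) n = u • n
    rw [hgb]
    rfl
  have hsm' : ∀ (f : MvPolynomial κ F) (n : ω ⧸ K), f • n = gb f n := fun f n => rfl
  have : IsScalarTower F (MvPolynomial κ F) (ω ⧸ K) := by
    constructor
    intro c f n
    rw [hsm', hsm', map_smul]
    rfl
  let bar0 : ω →ₛₗ[(B.chi : UniversalEnvelopingAlgebra F L →+* MvPolynomial κ F)] MvPolynomial κ F :=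
    { toFun := fun w => B.chi w
      map_add' := fun x y => by simp
      map_smul' := fun r x => by simp }
  let bar1 := K.liftQ bar0 (by
    rw [Submodule.span_le]
    rintro _ ⟨a, w, ha, rfl⟩
    change B.chi (a * w) = 0
    rw [map_mul, ha, zero_mul])
  let bar : (ω ⧸ K) →ₗ[MvPolynomial κ F] MvPolynomial κ F :=
    { toFun := bar1
      map_add' := fun x y => map_add _ _ _
      map_smul' := fun f n => by
        obtain ⟨u, rfl⟩ := B.chi_surjective f
        rw [hsm]
        exact bar1.map_smulₛₗ u n }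
  let pr : UniversalEnvelopingAlgebra F L →ₗ[F] ω :=
    { toFun := fun u => ⟨u - algebraMap F _ (eps F L u), by
        rw [hω, map_sub, AlgHom.commutes]; simp⟩
      map_add' := fun x y => by
        ext
        simp only [map_add, Submodule.coe_add]
        abel
      map_smul' := fun c x => by
        ext
        change c • x - algebraMap F _ (eps F L (c • x)) = c • (x - algebraMap F _ (eps F L x))
        rw [map_smul, smul_sub, smul_eq_mul, map_mul, ← Algebra.smul_def] }
  let π : UniversalEnvelopingAlgebra F L →ₗ[F] (ω ⧸ K) := (K.mkQ.restrictScalars F).comp pr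
  have hπ : ∀ w (hw : eps F L w = 0), π w = Submodule.Quotient.mk (p := K) ⟨w, (hω w).2 hw⟩ := by
    intro w hw
    change Submodule.Quotient.mk (p := K) (pr w) = _
    congr 1
    ext
    simp [pr, hw]
  refine ⟨ω ⧸ K, inferInstance, inferInstance, inferInstance, inferInstance, bar, π, ?_, ?_, ?_, ?_⟩
  · intro u w hw
    rw [hπ w hw, hπ (u * w) (by rw [map_mul, hw, mul_zero]), hsm]
    rfl
  · intro n
    obtain ⟨w, rfl⟩ := Submodule.Quotient.mk_surjective K n
    exact ⟨w, (hω _).1 w.2, hπ _ ((hω _).1 w.2)⟩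
  · intro w hw
    rw [hπ w hw]
    rfl
  · intro w hw h
    rw [hπ w hw, Submodule.Quotient.mk_eq_zero] at h
    exact hK _ h

/-- `ker chi = [L, L] + I ω`. -/
theorem mem_ker_chi (B : Coord F L κ) (u : UniversalEnvelopingAlgebra F L) (hu : B.chi u = 0) :
    ∃ d ∈ brk F L, u - ι F d ∈ Ksub B := by
  have hmul : ∀ (u z : UniversalEnvelopingAlgebra F L), (∃ d ∈ brk F L, z - ι F d ∈ Ksub B) →
      ∃ d ∈ brk F L, u * z - ι F d ∈ Ksub B := by
    intro u
    refine uea_induction (P := fun u => ∀ z : UniversalEnvelopingAlgebra F L, (∃ d ∈ brk F L, z - ι F d ∈ Ksub B) →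
      ∃ d ∈ brk F L, u * z - ι F d ∈ Ksub B) ?_ ?_ ?_ ?_ u
    · rintro c z ⟨d, hd, hz⟩
      refine ⟨c • d, (brk F L).smul_mem c hd, ?_⟩
      rw [map_smul, ← Algebra.smul_def, ← smul_sub]
      exact (Ksub B).smul_mem c hz
    · rintro x z ⟨d, hd, hz⟩
      refine ⟨⁅x, d⁆, lie_mem_brk x d, ?_⟩
      have h1 : ι F x * z - ι F ⁅x, d⁆ = ι F x * (z - ι F d) + ι F d * ι F x := by
        rw [LieHom.map_lie, LieRing.of_associative_ring_bracket]
        noncomm_ring
      rw [h1]
      exact (Ksub B).add_mem (mul_left_mem_Ksub B _ hz)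
        (mul_mem_Ksub B (B.chi_brk hd) (eps_ι x))
    · rintro u v hu hv z hz
      obtain ⟨d, hd, h1⟩ := hu z hz
      obtain ⟨d', hd', h2⟩ := hv z hz
      refine ⟨d + d', (brk F L).add_mem hd hd', ?_⟩
      have h3 : (u + v) * z - ι F (d + d') = (u * z - ι F d) + (v * z - ι F d') := by
        rw [map_add]; noncomm_ring
      rw [h3]
      exact (Ksub B).add_mem h1 h2
    · rintro u v hu hv z hz
      rw [mul_assoc]
      exact hu _ (hv z hz)
  let J : Submodule (UniversalEnvelopingAlgebra F L) (UniversalEnvelopingAlgebra F L) :=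
    { carrier := {z | ∃ d ∈ brk F L, z - ι F d ∈ Ksub B}
      add_mem' := by
        rintro a b ⟨d, hd, h1⟩ ⟨d', hd', h2⟩
        refine ⟨d + d', (brk F L).add_mem hd hd', ?_⟩
        have h3 : a + b - ι F (d + d') = (a - ι F d) + (b - ι F d') := by
          rw [map_add]; abel
        rw [h3]
        exact (Ksub B).add_mem h1 h2
      zero_mem' := ⟨0, (brk F L).zero_mem, by rw [map_zero, sub_zero]; exact (Ksub B).zero_mem⟩
      smul_mem' := fun u z hz => hmul u z hz }
  have hact0 : ∀ (d : L) (n : UniversalEnvelopingAlgebra F L ⧸ J), d ∈ brk F L → ι F d • n = 0 := by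
    intro d n hd
    obtain ⟨v, rfl⟩ := Submodule.Quotient.mk_surjective J n
    rw [← Submodule.Quotient.mk_smul, Submodule.Quotient.mk_eq_zero]
    refine ⟨eps F L v • d, (brk F L).smul_mem _ hd, ?_⟩
    have h1 : ι F d • v - ι F (eps F L v • d) = ι F d * (v - algebraMap F _ (eps F L v)) := by
      rw [smul_eq_mul, mul_sub, map_smul, Algebra.smul_def, Algebra.commutes]
    rw [h1]
    apply mul_mem_Ksub B (B.chi_brk hd)
    rw [map_sub, AlgHom.commutes]
    simp
  obtain ⟨gb, hgb⟩ := B.factor (Algebra.lsmul F F (UniversalEnvelopingAlgebra F L ⧸ J)) (by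
    intro l l'
    have h1 : ι F l * ι F l' - ι F l' * ι F l = ι F ⁅l, l'⁆ := by
      rw [LieHom.map_lie, LieRing.of_associative_ring_bracket]
    apply LinearMap.ext
    intro n
    change ι F l • (ι F l' • n) = ι F l' • (ι F l • n)
    rw [← sub_eq_zero, ← mul_smul, ← mul_smul, ← sub_smul, h1]
    exact hact0 _ n (lie_mem_brk l l'))
  have h2 : Algebra.lsmul F F (UniversalEnvelopingAlgebra F L ⧸ J) u (Submodule.Quotient.mk 1) = 0 := by
    rw [← hgb, hu, map_zero]; rfl
  have h3 : (Submodule.Quotient.mk (u * 1) : UniversalEnvelopingAlgebra F L ⧸ J) = 0 := h2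
  rw [mul_one, Submodule.Quotient.mk_eq_zero] at h3
  exact h3

end MP6e5a6a
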