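import Pool.Agent.Lib.MP_6e5a6a_al.Basic

/-!
# Skew Hilbert basis theorem and Noetherianity of `U(L)` for solvable `L`
-/

open UniversalEnvelopingAlgebra MvPolynomial

attribute [local instance 100] LieRing.ofAssociativeRing

namespace MP6e5a6a


section skew

variable {A : Type*} [Ring A] (R : Subring A) (v : A)

/-- the elements of degree `< k` in `v` -/
def degLT (k : ℕ) : Submodule R A := Submodule.span R ((fun i : ℕ => v ^ i) '' Set.Iio k)

theorem degLT_mono {k l : ℕ} (h : k ≤ l) : degLT R v k ≤ degLT R v l :=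
  Submodule.span_mono (Set.image_mono (Set.Iio_subset_Iio h))

theorem pow_mem_degLT {i k : ℕ} (h : i < k) : v ^ i ∈ degLT R v k :=
  Submodule.subset_span ⟨i, h, rfl⟩

theorem degLT_zero : degLT R v 0 = ⊥ := by
  have : (Set.Iio 0 : Set ℕ) = ∅ := by ext x; simp
  simp [degLT, this]

theorem mem_degLT_succ {k : ℕ} {a : A} (ha : a ∈ degLT R v (k + 1)) :
    ∃ r : R, a - r • v ^ k ∈ degLT R v k := by
  refine Submodule.span_induction ?_ ?_ ?_ ?_ ha
  · rintro _ ⟨i, hi, rfl⟩
    rcases Nat.lt_succ_iff_lt_or_eq.mp hi with h | h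
    · exact ⟨0, by simpa using pow_mem_degLT R v h⟩
    · subst h
      exact ⟨1, by simp⟩
  · exact ⟨0, by simp⟩
  · rintro x y _ _ ⟨r, hr⟩ ⟨s, hs⟩
    refine ⟨r + s, ?_⟩
    have : x + y - (r + s) • v ^ k = (x - r • v ^ k) + (y - s • v ^ k) := by
      rw [add_smul]; abel
    rw [this]
    exact add_mem hr hs
  · rintro c x _ ⟨r, hr⟩
    refine ⟨c * r, ?_⟩
    have : c • x - (c * r) • v ^ k = c • (x - r • v ^ k) := by
      rw [smul_sub, mul_smul]
    rw [this]
    exact Submodule.smul_mem _ _ hr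

variable {R v}

theorem v_mul_smul (hv : ∀ r ∈ R, v * r - r * v ∈ R) (r : R) (a : A) :
    v * (r • a) = r • (v * a) + (⟨v * r - r * v, hv r r.2⟩ : R) • a := by
  simp only [Subring.smul_def, smul_eq_mul]
  noncomm_ring

theorem v_mul_mem_degLT (hv : ∀ r ∈ R, v * r - r * v ∈ R) {k : ℕ} {a : A}
    (ha : a ∈ degLT R v k) : v * a ∈ degLT R v (k + 1) := by
  refine Submodule.span_induction
    (p := fun a _ => v * a ∈ degLT R v (k + 1) ∧ a ∈ degLT R v k) ?_ ?_ ?_ ?_ ha |>.1
  · rintro _ ⟨i, hi, rfl⟩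
    refine ⟨?_, pow_mem_degLT R v hi⟩
    change v * v ^ i ∈ _
    rw [← pow_succ']
    exact pow_mem_degLT R v (Nat.succ_lt_succ hi)
  · simp
  · rintro x y _ _ ⟨h1, h2⟩ ⟨h3, h4⟩
    exact ⟨by rw [mul_add]; exact add_mem h1 h3, add_mem h2 h4⟩
  · rintro c x _ ⟨h1, h2⟩
    refine ⟨?_, Submodule.smul_mem _ _ h2⟩
    rw [v_mul_smul hv]
    exact add_mem (Submodule.smul_mem _ _ h1)
      (Submodule.smul_mem _ _ (degLT_mono R v (Nat.le_succ k) h2))

/-- leading coefficients in degree `k` of elements of the left ideal `J` -/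
def lead (R : Subring A) (v : A) (J : Ideal A) (k : ℕ) : Ideal R where
  carrier := {r | ∃ a ∈ J, a - r • v ^ k ∈ degLT R v k}
  zero_mem' := ⟨0, J.zero_mem, by simp⟩
  add_mem' := by
    rintro r s ⟨a, ha, hra⟩ ⟨b, hb, hsb⟩
    refine ⟨a + b, J.add_mem ha hb, ?_⟩
    have : a + b - (r + s) • v ^ k = (a - r • v ^ k) + (b - s • v ^ k) := by
      rw [add_smul]; abel
    rw [this]
    exact add_mem hra hsb
  smul_mem' := by
    rintro c r ⟨a, ha, hra⟩
    refine ⟨c • a, ?_, ?_⟩
    · rw [Subring.smul_def, smul_eq_mul]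
      exact J.mul_mem_left _ ha
    · have : c • a - (c • r) • v ^ k = c • (a - r • v ^ k) := by
        rw [smul_sub, smul_eq_mul, mul_smul]
      rw [this]
      exact Submodule.smul_mem _ _ hra

theorem mem_lead {J : Ideal A} {k : ℕ} {r : R} :
    r ∈ lead R v J k ↔ ∃ a ∈ J, a - r • v ^ k ∈ degLT R v k := Iff.rfl

theorem lead_mono_left {J J' : Ideal A} (h : J ≤ J') (k : ℕ) : lead R v J k ≤ lead R v J' k := by
  rintro r ⟨a, ha, hra⟩
  exact ⟨a, h ha, hra⟩

theorem lead_succ (hv : ∀ r ∈ R, v * r - r * v ∈ R) (J : Ideal A) (k : ℕ) :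
    lead R v J k ≤ lead R v J (k + 1) := by
  rintro r ⟨a, ha, hra⟩
  refine ⟨v * a, J.mul_mem_left _ ha, ?_⟩
  have h1 := v_mul_mem_degLT hv hra
  have h2 := v_mul_smul hv r (v ^ k)
  have h3 : v * a - r • v ^ (k + 1) =
      v * (a - r • v ^ k) + (⟨v * r - r * v, hv r r.2⟩ : R) • v ^ k := by
    rw [mul_sub, h2, pow_succ']
    abel
  rw [h3]
  exact add_mem h1 (Submodule.smul_mem _ _ (pow_mem_degLT R v (Nat.lt_succ_self k)))

theorem lead_mono_right (hv : ∀ r ∈ R, v * r - r * v ∈ R) (J : Ideal A) :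
    Monotone (lead R v J) := monotone_nat_of_le_succ (lead_succ hv J)

theorem exists_mem_degLT
    (hgen : ∀ a : A, a ∈ Submodule.span R (Set.range (fun k : ℕ => v ^ k))) (a : A) :
    ∃ k, a ∈ degLT R v k := by
  refine Submodule.span_induction ?_ ?_ ?_ ?_ (hgen a)
  · rintro _ ⟨i, rfl⟩
    exact ⟨i + 1, pow_mem_degLT R v (Nat.lt_succ_self i)⟩
  · exact ⟨0, zero_mem _⟩
  · rintro x y _ _ ⟨k, hk⟩ ⟨l, hl⟩
    exact ⟨max k l, add_mem (degLT_mono R v (le_max_left _ _) hk)
      (degLT_mono R v (le_max_right _ _) hl)⟩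
  · rintro c x _ ⟨k, hk⟩
    exact ⟨k, Submodule.smul_mem _ _ hk⟩

theorem le_of_lead_le
    (hgen : ∀ a : A, a ∈ Submodule.span R (Set.range (fun k : ℕ => v ^ k)))
    {J J' : Ideal A} (hJ : J ≤ J') (h : ∀ k, lead R v J' k ≤ lead R v J k) : J' ≤ J := by
  have key : ∀ k, ∀ a ∈ J', a ∈ degLT R v k → a ∈ J := by
    intro k
    induction k with
    | zero =>
      intro a _ hak
      rw [degLT_zero, Submodule.mem_bot] at hak
      rw [hak]; exact J.zero_mem
    | succ k ih =>
      intro a ha hak
      obtain ⟨r, hr⟩ := mem_degLT_succ R v hak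
      obtain ⟨b, hb, hrb⟩ := h k (mem_lead.mpr ⟨a, ha, hr⟩)
      have h1 : a - b ∈ J := by
        apply ih
        · exact J'.sub_mem ha (hJ hb)
        · have : a - b = (a - r • v ^ k) - (b - r • v ^ k) := by abel
          rw [this]
          exact sub_mem hr hrb
      have : a = (a - b) + b := by abel
      rw [this]
      exact J.add_mem h1 hb
  intro a ha
  obtain ⟨k, hk⟩ := exists_mem_degLT hgen a
  exact key k a ha hk

/-- Skew Hilbert basis theorem. -/
theorem skewHilbert {A : Type*} [Ring A] (R : Subring A) [IsNoetherianRing R] (v : A)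
    (hv : ∀ r ∈ R, v * r - r * v ∈ R)
    (hgen : ∀ a : A, a ∈ Submodule.span R (Set.range (fun k : ℕ => v ^ k))) :
    IsNoetherianRing A := by
  rw [isNoetherianRing_iff, ← monotone_stabilizes_iff_noetherian]
  intro f
  -- the diagonal chain
  let d : ℕ →o Ideal R :=
    { toFun := fun n => lead R v (f n) n
      monotone' := fun m n h =>
        (lead_mono_left (f.monotone h) m).trans (lead_mono_right hv (f n) h) }
  obtain ⟨n0, hn0⟩ := (monotone_stabilizes_iff_noetherian (R := R) (M := R)).mpr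
    inferInstance d
  -- the columns
  have hcol : ∀ k, ∃ n, ∀ m, n ≤ m → lead R v (f n) k = lead R v (f m) k := by
    intro k
    let g : ℕ →o Ideal R :=
      { toFun := fun n => lead R v (f n) k
        monotone' := fun m n h => lead_mono_left (f.monotone h) k }
    exact (monotone_stabilizes_iff_noetherian (R := R) (M := R)).mpr inferInstance g
  choose N hN using hcol
  let M := max n0 ((Finset.range n0).sup N)
  have hM0 : n0 ≤ M := le_max_left _ _
  have hMk : ∀ k < n0, N k ≤ M := fun k hk =>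
    (Finset.le_sup (f := N) (Finset.mem_range.mpr hk)).trans (le_max_right _ _)
  refine ⟨M, fun m hm => ?_⟩
  apply le_antisymm (f.monotone hm)
  apply le_of_lead_le hgen (f.monotone hm)
  intro k
  rcases lt_or_ge k n0 with hk | hk
  · rw [← hN k m ((hMk k hk).trans hm), ← hN k M (hMk k hk)]
  · have h1 : lead R v (f m) k ≤ d (max m k) :=
      (lead_mono_left (f.monotone (le_max_left m k)) k).trans
        (lead_mono_right hv _ (le_max_right m k))
    have h2 : d n0 = d (max m k) := hn0 _ (hk.trans (le_max_right _ _))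
    have h3 : d n0 ≤ lead R v (f M) k :=
      (lead_mono_left (f.monotone hM0) n0).trans (lead_mono_right hv _ hk)
    exact h1.trans (h2.symm.le.trans h3)

end skew

theorem noeth_aux {F : Type*} [Field F] (n : ℕ) :
    ∀ (L : Type*) [LieRing L] [LieAlgebra F L] [FiniteDimensional F L]
      [LieAlgebra.IsSolvable L], Module.finrank F L = n → IsNoetherianRing (UniversalEnvelopingAlgebra F L) := by
  induction n using Nat.strong_induction_on with
  | _ n ih =>
  intro L _ _ _ _ hn
  rcases subsingleton_or_nontrivial L with hL | hL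
  · -- `U(L) = F`
    have hsurj : Function.Surjective (algebraMap F (UniversalEnvelopingAlgebra F L)) := by
      intro u
      refine uea_induction (P := fun u => ∃ c, algebraMap F (UniversalEnvelopingAlgebra F L) c = u) ?_ ?_ ?_ ?_ u
      · intro c; exact ⟨c, rfl⟩
      · intro x; exact ⟨0, by rw [Subsingleton.elim x 0, map_zero, map_zero]⟩
      · rintro u v ⟨a, rfl⟩ ⟨b, rfl⟩; exact ⟨a + b, map_add _ _ _⟩
      · rintro u v ⟨a, rfl⟩ ⟨b, rfl⟩; exact ⟨a * b, map_mul _ _ _⟩
    exact isNoetherianRing_of_surjective F _ (algebraMap F (UniversalEnvelopingAlgebra F L)) hsurj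
  · obtain ⟨K, x, hxK, hK⟩ := exists_codim_one (F := F) (L := L)
    have hlt : Module.finrank F K < n := by
      rw [← hn]
      apply Submodule.finrank_lt (s := (K : Submodule F L))
      intro h
      apply hxK
      have : x ∈ (K : Submodule F L) := by rw [h]; trivial
      exact this
    have hKN : IsNoetherianRing (UniversalEnvelopingAlgebra F K) := ih _ hlt K rfl
    let φ : UniversalEnvelopingAlgebra F K →ₐ[F] UniversalEnvelopingAlgebra F L := lift F ((ι F).comp K.incl)
    have hφ : ∀ y : K, φ (ι F y) = ι F (y : L) := by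
      intro y
      simp only [φ, lift_ι_apply]
      rfl
    let R : Subring (UniversalEnvelopingAlgebra F L) := (φ : UniversalEnvelopingAlgebra F K →+* UniversalEnvelopingAlgebra F L).range
    have hRN : IsNoetherianRing R :=
      isNoetherianRing_of_surjective _ _ (φ : UniversalEnvelopingAlgebra F K →+* UniversalEnvelopingAlgebra F L).rangeRestrict
        (RingHom.rangeRestrict_surjective _)
    have hφR : ∀ u, φ u ∈ R := fun u => ⟨u, rfl⟩
    have hcR : ∀ c : F, algebraMap F (UniversalEnvelopingAlgebra F L) c ∈ R := fun c => ⟨algebraMap F _ c, by simp⟩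
    have hv : ∀ r ∈ R, ι F x * r - r * ι F x ∈ R := by
      rintro _ ⟨u, rfl⟩
      change ι F x * φ u - φ u * ι F x ∈ R
      refine uea_induction (P := fun u => ι F x * φ u - φ u * ι F x ∈ R) ?_ ?_ ?_ ?_ u
      · intro c
        rw [AlgHom.commutes, Algebra.commutes, sub_self]
        exact R.zero_mem
      · intro y
        have hmem : ⁅x, (y : L)⁆ ∈ K := lie_mem_right F L K x y y.2
        have : ι F x * φ (ι F y) - φ (ι F y) * ι F x = φ (ι F (⟨⁅x, (y : L)⁆, hmem⟩ : K)) := by
          rw [hφ, hφ, LieHom.map_lie, LieRing.of_associative_ring_bracket]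
        rw [this]
        exact hφR _
      · intro a b ha hb
        have : ι F x * φ (a + b) - φ (a + b) * ι F x =
            (ι F x * φ a - φ a * ι F x) + (ι F x * φ b - φ b * ι F x) := by
          rw [map_add, mul_add, add_mul]; abel
        rw [this]
        exact R.add_mem ha hb
      · intro a b ha hb
        have : ι F x * φ (a * b) - φ (a * b) * ι F x =
            (ι F x * φ a - φ a * ι F x) * φ b + φ a * (ι F x * φ b - φ b * ι F x) := by
          rw [map_mul]
          noncomm_ring
        rw [this]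
        exact R.add_mem (R.mul_mem ha (hφR b)) (R.mul_mem (hφR a) hb)
    refine skewHilbert R (ι F x) hv ?_
    set S : Submodule R (UniversalEnvelopingAlgebra F L) := Submodule.span R (Set.range (fun k : ℕ => (ι F x) ^ k))
      with hS
    have hRS : ∀ r ∈ R, ∀ s ∈ S, r * s ∈ S := by
      intro r hr s hs
      have := S.smul_mem (⟨r, hr⟩ : R) hs
      simpa [Subring.smul_def] using this
    have hvS : ∀ s ∈ S, ι F x * s ∈ S := by
      intro s hs
      refine Submodule.span_induction
        (p := fun s _ => ι F x * s ∈ S ∧ s ∈ S) ?_ ?_ ?_ ?_ hs |>.1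
      · rintro _ ⟨i, rfl⟩
        refine ⟨Submodule.subset_span ⟨i + 1, pow_succ' _ _⟩, Submodule.subset_span ⟨i, rfl⟩⟩
      · simp
      · rintro a b _ _ ⟨h1, h2⟩ ⟨h3, h4⟩
        exact ⟨by rw [mul_add]; exact add_mem h1 h3, add_mem h2 h4⟩
      · rintro c a _ ⟨h1, h2⟩
        refine ⟨?_, Submodule.smul_mem _ _ h2⟩
        rw [v_mul_smul hv]
        exact add_mem (Submodule.smul_mem _ _ h1) (Submodule.smul_mem _ _ h2)
    have hmul : ∀ u : UniversalEnvelopingAlgebra F L, ∀ s ∈ S, u * s ∈ S := by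
      intro u
      refine uea_induction (P := fun u => ∀ s ∈ S, u * s ∈ S) ?_ ?_ ?_ ?_ u
      · intro c s hs
        exact hRS _ (hcR c) s hs
      · intro l s hs
        obtain ⟨c, hc⟩ := hK l
        have hl : ι F l = φ (ι F (⟨l - c • x, hc⟩ : K)) + algebraMap F _ c * ι F x := by
          rw [hφ]
          simp [Algebra.smul_def]
        rw [hl, add_mul, mul_assoc]
        exact add_mem (hRS _ (hφR _) s hs) (hRS _ (hcR c) _ (hvS s hs))
      · intro a b ha hb s hs
        rw [add_mul]
        exact add_mem (ha s hs) (hb s hs)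
      · intro a b ha hb s hs
        rw [mul_assoc]
        exact ha _ (hb s hs)
    intro u
    have h1 : (1 : UniversalEnvelopingAlgebra F L) ∈ S := Submodule.subset_span ⟨0, pow_zero _⟩
    have := hmul u 1 h1
    rwa [mul_one] at this

/-- `U(L)` is Noetherian. -/
theorem noeth (F : Type*) [Field F] (L : Type*) [LieRing L] [LieAlgebra F L]
    [FiniteDimensional F L] [LieAlgebra.IsSolvable L] : IsNoetherianRing (UniversalEnvelopingAlgebra F L) :=
  noeth_aux _ L rfl

end MP6e5a6a
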