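import Pool.Agent.Lib.MP_6e5a6a_al.Basic

/-!
# A retraction of `U(L)` onto `[L, L]` for a metabelian Lie algebra in characteristic zero
-/

open UniversalEnvelopingAlgebra MvPolynomial

attribute [local instance 100] LieRing.ofAssociativeRing

namespace MP6e5a6a

section

variable {F : Type*} [Field F] {L : Type*} [LieRing L] [LieAlgebra F L]

theorem Rep_brk_induction {P : L → Prop} (h0 : P 0) (hadd : ∀ u v, P u → P v → P (u + v))
    (hsmul : ∀ (c : F) u, P u → P (c • u)) (hb : ∀ a b : L, P ⁅a, b⁆) {m : L}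
    (hm : m ∈ brk F L) : P m := by
  refine Submodule.span_induction ?_ h0 ?_ ?_ hm
  · rintro _ ⟨a, b, rfl⟩; exact hb a b
  · intro u v _ _ hu hv; exact hadd u v hu hv
  · intro r u _ hu; exact hsmul r u hu

theorem Rep_meta (hmeta : ∀ a b c d : L, ⁅⁅a, b⁆, ⁅c, d⁆⁆ = 0) {m m' : L} (hm : m ∈ brk F L)
    (hm' : m' ∈ brk F L) : ⁅m, m'⁆ = 0 := by
  refine Rep_brk_induction (P := fun m => ⁅m, m'⁆ = 0) (by simp) (fun u v hu hv => by
    simp [hu, hv]) (fun c u hu => by simp [hu]) (fun a b => ?_) hm
  refine Rep_brk_induction (P := fun m' => ⁅⁅a, b⁆, m'⁆ = 0) (by simp) (fun u v hu hv => by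
    simp [hu, hv]) (fun c u hu => by simp [hu]) (fun c d => hmeta a b c d) hm'

/-- the adjoint action on `[L, L]` -/
def RepAd (F : Type*) [Field F] (L : Type*) [LieRing L] [LieAlgebra F L] :
    L →ₗ⁅F⁆ Module.End F (brk F L) where
  toFun l :=
    { toFun := fun m => ⟨⁅l, (m : L)⁆, lie_mem_brk l m⟩
      map_add' := fun m m' => by ext; simp
      map_smul' := fun c m => by ext; simp }
  map_add' l l' := by ext m; simp
  map_smul' c l := by ext m; simp
  map_lie' {l l'} := by
    ext m
    simp [LieRing.of_associative_ring_bracket, Module.End.mul_apply]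

theorem RepAd_apply (l : L) (m : brk F L) : ((RepAd F L l m : brk F L) : L) = ⁅l, (m : L)⁆ := rfl

/-- the action of `U(L)` on `[L, L]` -/
noncomputable def RepG (F : Type*) [Field F] (L : Type*) [LieRing L] [LieAlgebra F L] :
    UniversalEnvelopingAlgebra F L →ₐ[F] Module.End F (brk F L) := lift F (RepAd F L)

theorem RepG_ι (l : L) : RepG F L (ι F l) = RepAd F L l := by
  unfold RepG; rw [lift_ι_apply]

theorem RepG_comm (hmeta : ∀ a b c d : L, ⁅⁅a, b⁆, ⁅c, d⁆⁆ = 0) (l l' : L) :
    RepG F L (ι F l) * RepG F L (ι F l') = RepG F L (ι F l') * RepG F L (ι F l) := by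
  rw [RepG_ι, RepG_ι]
  ext m
  change ⁅l, ⁅l', (m : L)⁆⁆ = ⁅l', ⁅l, (m : L)⁆⁆
  have h1 := lie_lie l l' (m : L)
  rw [Rep_meta hmeta (lie_mem_brk l l') m.2] at h1
  exact (sub_eq_zero.1 h1.symm)

/-- divide the homogeneous components by degree plus one -/
noncomputable def Replam (F : Type*) [Field F] (κ : Type*) :
    MvPolynomial κ F →ₗ[F] MvPolynomial κ F :=
  (basisMonomials κ F).constr F (fun s => ((s.degree : F) + 1)⁻¹ • monomial s 1)

theorem Replam_monomial {κ : Type*} (s : κ →₀ ℕ) :
    Replam F κ (monomial s 1) = ((s.degree : F) + 1)⁻¹ • monomial s 1 := by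
  unfold Replam
  have h := (basisMonomials κ F).constr_basis F
    (fun s => ((s.degree : F) + 1)⁻¹ • (monomial s 1 : MvPolynomial κ F)) s
  rw [coe_basisMonomials] at h
  exact h


section Key

variable {κ : Type*} [Fintype κ] [DecidableEq κ] (B : Coord F L κ)

/-- the brackets of the coordinate vectors -/
def Repcc (i j : κ) : brk F L := ⟨⁅B.x i, B.x j⁆, lie_mem_brk _ _⟩

theorem Repcc_swap (i j : κ) : Repcc B j i = - Repcc B i j := by
  ext
  simp only [Repcc, NegMemClass.coe_neg]
  exact (lie_skew (B.x j) (B.x i)).symm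

variable (gb : MvPolynomial κ F →ₐ[F] Module.End F (brk F L))

/-- the correction terms -/
noncomputable def RepN (i : κ) : MvPolynomial κ F →ₗ[F] brk F L where
  toFun f := ∑ k, gb (pderiv k (Replam F κ f)) (Repcc B k i)
  map_add' f g := by
    simp only [map_add, LinearMap.add_apply, Finset.sum_add_distrib]
  map_smul' c f := by
    simp only [map_smul, Derivation.map_smul, LinearMap.smul_apply, Finset.smul_sum,
      RingHom.id_apply]

theorem RepN_apply (i : κ) (f : MvPolynomial κ F) :
    RepN B gb i f = ∑ k, gb (pderiv k (Replam F κ f)) (Repcc B k i) := rfl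

omit [Fintype κ] [DecidableEq κ] in
theorem Rep_gb_mul (p q : MvPolynomial κ F) (m : brk F L) : gb (p * q) m = gb q (gb p m) := by
  rw [mul_comm, map_mul]
  rfl

theorem RepN_X_mul (hX : ∀ i, gb (X i) = RepAd F L (B.x i)) (i j : κ) (s : κ →₀ ℕ) :
    RepN B gb j (X i * monomial s 1) = ((s.degree : F) + 2)⁻¹ •
      (gb (monomial s 1) (Repcc B i j) + ∑ k, gb (pderiv k (monomial s 1))
        (RepAd F L (B.x i) (Repcc B k j))) := by
  have h1 : (X i * monomial s 1 : MvPolynomial κ F) = monomial (Finsupp.single i 1 + s) 1 := by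
    rw [X, monomial_mul, one_mul]
  have h2 : Replam F κ (X i * monomial s 1) =
      ((s.degree : F) + 2)⁻¹ • (X i * monomial s 1 : MvPolynomial κ F) := by
    rw [h1, Replam_monomial, map_add, Finsupp.degree_single]
    congr 2
    push_cast
    ring
  rw [RepN_apply, h2]
  simp only [Derivation.map_smul, map_smul, LinearMap.smul_apply]
  rw [← Finset.smul_sum]
  congr 1
  have h3 : ∀ k, gb (pderiv k (X i * monomial s 1)) (Repcc B k j) =
      gb (pderiv k (monomial s 1)) (RepAd F L (B.x i) (Repcc B k j)) +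
        (if k = i then gb (monomial s 1) (Repcc B k j) else 0) := by
    intro k
    rw [Derivation.leibniz, smul_eq_mul, smul_eq_mul, map_add, LinearMap.add_apply, Rep_gb_mul,
      hX, pderiv_X]
    congr 1
    by_cases hk : k = i
    · subst hk
      simp
    · simp [hk, Ne.symm hk]
  simp only [h3, Finset.sum_add_distrib, Finset.sum_ite_eq', Finset.mem_univ, if_true]
  rw [add_comm]

theorem RepN_key [CharZero F] (hX : ∀ i, gb (X i) = RepAd F L (B.x i)) (i j : κ)
    (f : MvPolynomial κ F) :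
    RepN B gb j (X i * f) - RepN B gb i (X j * f) = gb f (Repcc B i j) := by
  induction f using MvPolynomial.induction_on' with
  | monomial s a =>
    have h1 : (monomial s a : MvPolynomial κ F) = a • monomial s 1 := by
      rw [smul_monomial]; simp
    rw [h1, mul_smul_comm, mul_smul_comm, map_smul, map_smul, map_smul, ← smul_sub,
      LinearMap.smul_apply]
    congr 1
    rw [RepN_X_mul B gb hX, RepN_X_mul B gb hX, ← smul_sub]
    have h2 : ∀ k, RepAd F L (B.x i) (Repcc B k j) - RepAd F L (B.x j) (Repcc B k i) =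
        gb (X k) (Repcc B i j) := by
      intro k
      rw [hX]
      ext
      simp only [AddSubgroupClass.coe_sub, RepAd_apply, Repcc]
      rw [leibniz_lie (B.x k) (B.x i) (B.x j)]
      have := lie_skew (B.x j) (⁅B.x k, B.x i⁆)
      rw [← this]
      abel
    have h3 : ∑ k, gb (pderiv k (monomial s 1)) (RepAd F L (B.x i) (Repcc B k j)) -
        ∑ k, gb (pderiv k (monomial s 1)) (RepAd F L (B.x j) (Repcc B k i)) =
        (s.degree : F) • gb (monomial s 1) (Repcc B i j) := by
      rw [← Finset.sum_sub_distrib]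
      have h4 : ∀ k, gb (pderiv k (monomial s 1)) (RepAd F L (B.x i) (Repcc B k j)) -
          gb (pderiv k (monomial s 1)) (RepAd F L (B.x j) (Repcc B k i)) =
          gb (X k * pderiv k (monomial s 1)) (Repcc B i j) := by
        intro k
        rw [← map_sub, h2, Rep_gb_mul]
      simp only [h4]
      rw [← LinearMap.sum_apply, ← map_sum]
      have h5 : (monomial s (1 : F) : MvPolynomial κ F).IsHomogeneous s.degree :=
        isHomogeneous_monomial _ rfl
      rw [h5.sum_X_mul_pderiv, ← Nat.cast_smul_eq_nsmul F, map_smul]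
      rfl
    have h6 : gb (monomial s 1) (Repcc B i j) + ∑ k, gb (pderiv k (monomial s 1))
        (RepAd F L (B.x i) (Repcc B k j)) - (gb (monomial s 1) (Repcc B j i) +
        ∑ k, gb (pderiv k (monomial s 1)) (RepAd F L (B.x j) (Repcc B k i))) =
        ((s.degree : F) + 2) • gb (monomial s 1) (Repcc B i j) := by
      rw [Repcc_swap B i j, map_neg]
      have : gb (monomial s 1) (Repcc B i j) + ∑ k, gb (pderiv k (monomial s 1))
          (RepAd F L (B.x i) (Repcc B k j)) - (- gb (monomial s 1) (Repcc B i j) +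
          ∑ k, gb (pderiv k (monomial s 1)) (RepAd F L (B.x j) (Repcc B k i))) =
          (∑ k, gb (pderiv k (monomial s 1)) (RepAd F L (B.x i) (Repcc B k j)) -
          ∑ k, gb (pderiv k (monomial s 1)) (RepAd F L (B.x j) (Repcc B k i))) +
          (2 : F) • gb (monomial s 1) (Repcc B i j) := by
        rw [two_smul]; abel
      rw [this, h3, ← add_smul]
    rw [h6, smul_smul, inv_mul_cancel₀, one_smul]
    have : ((s.degree : F) + 2) = ((s.degree + 2 : ℕ) : F) := by push_cast; ring
    rw [this]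
    exact Nat.cast_ne_zero.2 (by omega)
  | add p q hp hq =>
    rw [mul_add, mul_add, map_add, map_add, map_add, LinearMap.add_apply, ← hp, ← hq]
    abel

/-- the value of the representation on `(0, 1)` -/
noncomputable def RepNL (l : L) : MvPolynomial κ F →ₗ[F] brk F L :=
  ∑ i, B.c i l • RepN B gb i +
    { toFun := fun f => gb f ⟨l - ∑ i, B.c i l • B.x i, B.sub_mem l⟩
      map_add' := fun f g => by simp only [map_add, LinearMap.add_apply]
      map_smul' := fun c f => by simp only [map_smul, LinearMap.smul_apply, RingHom.id_apply] }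

theorem RepNL_apply (l : L) (f : MvPolynomial κ F) : RepNL B gb l f =
    ∑ i, B.c i l • RepN B gb i f + gb f ⟨l - ∑ i, B.c i l • B.x i, B.sub_mem l⟩ := by
  simp [RepNL]

theorem RepNL_add (l l' : L) : RepNL B gb (l + l') = RepNL B gb l + RepNL B gb l' := by
  refine LinearMap.ext (fun f => ?_)
  rw [LinearMap.add_apply, RepNL_apply, RepNL_apply, RepNL_apply]
  have h : (⟨l + l' - ∑ i, B.c i (l + l') • B.x i, B.sub_mem (l + l')⟩ : brk F L) =
      ⟨l - ∑ i, B.c i l • B.x i, B.sub_mem l⟩ + ⟨l' - ∑ i, B.c i l' • B.x i, B.sub_mem l'⟩ := by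
    ext
    simp only [map_add, add_smul, Finset.sum_add_distrib, Submodule.coe_add]
    abel
  rw [h, map_add]
  simp only [map_add, add_smul, Finset.sum_add_distrib]
  abel

theorem RepNL_smul (c : F) (l : L) : RepNL B gb (c • l) = c • RepNL B gb l := by
  refine LinearMap.ext (fun f => ?_)
  rw [LinearMap.smul_apply, RepNL_apply, RepNL_apply]
  have h : (⟨c • l - ∑ i, B.c i (c • l) • B.x i, B.sub_mem (c • l)⟩ : brk F L) =
      c • ⟨l - ∑ i, B.c i l • B.x i, B.sub_mem l⟩ := by
    ext
    simp only [map_smul, smul_eq_mul, mul_smul, ← Finset.smul_sum, ← smul_sub,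
      SetLike.mk_smul_mk]
  rw [h, map_smul, smul_add]
  simp only [map_smul, smul_eq_mul, mul_smul, ← Finset.smul_sum]

theorem RepNL_brk {l : L} (hl : l ∈ brk F L) : RepNL B gb l 1 = ⟨l, hl⟩ := by
  rw [RepNL_apply]
  have h : ∀ i, B.c i l = 0 := fun i => B.c_brk i hl
  simp only [h, zero_smul, Finset.sum_const_zero, zero_add, sub_zero, map_one]
  rfl

/-- the cocycle identity -/
theorem RepNL_key [CharZero F] (hmeta : ∀ a b c d : L, ⁅⁅a, b⁆, ⁅c, d⁆⁆ = 0)
    (hgb : ∀ l, gb (B.chi (ι F l)) = RepAd F L l) (l l' : L)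
    (f : MvPolynomial κ F) :
    RepNL B gb l' (B.chi (ι F l) * f) - RepNL B gb l (B.chi (ι F l') * f) =
      gb f ⟨⁅l, l'⁆, lie_mem_brk l l'⟩ := by
  have hX : ∀ i, gb (X i) = RepAd F L (B.x i) := fun i => by rw [← B.chi_x i, hgb]
  have hexp : ∀ (a : L) (j : κ), RepN B gb j (B.chi (ι F a) * f) =
      ∑ i, B.c i a • RepN B gb j (X i * f) := by
    intro a j
    rw [B.chi_ι, Finset.sum_mul, map_sum]
    refine Finset.sum_congr rfl (fun i _ => ?_)
    rw [mul_assoc, ← MvPolynomial.smul_eq_C_mul, map_smul]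
  rw [RepNL_apply, RepNL_apply, Rep_gb_mul, Rep_gb_mul, hgb, hgb]
  simp only [hexp, Finset.smul_sum]
  rw [Finset.sum_comm (s := Finset.univ) (t := Finset.univ)
    (f := fun i j => B.c i l • B.c j l' • RepN B gb i (X j * f))]
  set m : brk F L := ⟨l - ∑ i, B.c i l • B.x i, B.sub_mem l⟩ with hm
  set m' : brk F L := ⟨l' - ∑ i, B.c i l' • B.x i, B.sub_mem l'⟩ with hm'
  have h1 : ∑ j, ∑ i, B.c j l' • B.c i l • RepN B gb j (X i * f) -
      ∑ j, ∑ i, B.c i l • B.c j l' • RepN B gb i (X j * f) =
      gb f (∑ j, ∑ i, B.c j l' • B.c i l • Repcc B i j) := by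
    rw [← Finset.sum_sub_distrib, map_sum]
    refine Finset.sum_congr rfl (fun j _ => ?_)
    rw [← Finset.sum_sub_distrib, map_sum]
    refine Finset.sum_congr rfl (fun i _ => ?_)
    rw [smul_comm (B.c i l) (B.c j l'), ← smul_sub, ← smul_sub, RepN_key B gb hX, map_smul,
      map_smul]
  have h2 : (⟨⁅l, l'⁆, lie_mem_brk l l'⟩ : brk F L) =
      ∑ j, ∑ i, B.c j l' • B.c i l • Repcc B i j + RepAd F L l m' - RepAd F L l' m := by
    ext
    have hl : l = (m : L) + ∑ i, B.c i l • B.x i := by rw [hm]; simp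
    have hl' : l' = (m' : L) + ∑ i, B.c i l' • B.x i := by rw [hm']; simp
    set x := ∑ i, B.c i l • B.x i with hx
    set y := ∑ i, B.c i l' • B.x i with hy
    have hxy : ((∑ j, ∑ i, B.c j l' • B.c i l • Repcc B i j : brk F L) : L) = ⁅x, y⁆ := by
      rw [hx, hy, lie_sum]
      simp only [sum_lie, Submodule.coe_sum, Submodule.coe_smul, Repcc]
      refine Finset.sum_congr rfl (fun j _ => ?_)
      refine Finset.sum_congr rfl (fun i _ => ?_)
      rw [smul_lie, lie_smul, smul_comm]
    simp only [AddSubgroupClass.coe_sub, Submodule.coe_add, RepAd_apply]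
    rw [hxy]
    have e1 : ⁅(m : L), (m' : L)⁆ = 0 := Rep_meta hmeta m.2 m'.2
    have e2 : ⁅(m' : L), (m : L)⁆ = 0 := Rep_meta hmeta m'.2 m.2
    have e3 : ⁅l, l'⁆ = ⁅l, (m' : L)⁆ + ⁅(m : L), y⁆ + ⁅x, y⁆ := by
      conv_lhs => rw [hl', lie_add]
      conv_lhs => 
        arg 2
        rw [hl, add_lie]
      rw [add_assoc]
    have e4 : ⁅l', (m : L)⁆ = - ⁅(m : L), y⁆ := by
      conv_lhs => rw [hl', add_lie, e2, zero_add]
      exact (lie_skew y (m : L)).symm
    rw [e3, e4]
    abel
  rw [h2, map_sub, map_add, ← h1]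
  abel

/-- the representation -/
noncomputable def RepRho (hkey : ∀ (l l' : L) (f : MvPolynomial κ F),
    RepNL B gb l' (B.chi (ι F l) * f) - RepNL B gb l (B.chi (ι F l') * f) =
      gb f ⟨⁅l, l'⁆, lie_mem_brk l l'⟩) :
    L →ₗ⁅F⁆ Module.End F ((MvPolynomial κ F →ₗ[F] brk F L) × F) where
  toFun l :=
    { toFun := fun w => (w.1 ∘ₗ LinearMap.mulLeft F (B.chi (ι F l)) + w.2 • RepNL B gb l, 0)
      map_add' := fun w w' => by
        refine Prod.ext ?_ (by simp)
        simp only [Prod.fst_add, Prod.snd_add, LinearMap.add_comp, add_smul]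
        abel
      map_smul' := fun c w => by
        refine Prod.ext ?_ (by simp)
        simp only [Prod.smul_fst, Prod.smul_snd, LinearMap.smul_comp, smul_eq_mul, mul_smul,
          RingHom.id_apply, smul_add] }
  map_add' l l' := by
    refine LinearMap.ext (fun w => Prod.ext ?_ (by simp))
    refine LinearMap.ext (fun f => ?_)
    simp only [LinearMap.coe_mk, AddHom.coe_mk, LinearMap.add_apply, Prod.fst_add,
      LinearMap.comp_apply, LinearMap.mulLeft_apply, LinearMap.smul_apply, RepNL_add, map_add,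
      add_mul, smul_add]
    abel
  map_smul' c l := by
    refine LinearMap.ext (fun w => Prod.ext ?_ (by simp))
    refine LinearMap.ext (fun f => ?_)
    simp only [LinearMap.coe_mk, AddHom.coe_mk, LinearMap.add_apply, Prod.smul_fst,
      LinearMap.comp_apply, LinearMap.mulLeft_apply, LinearMap.smul_apply, RepNL_smul, map_smul,
      smul_mul_assoc, smul_add, RingHom.id_apply, smul_comm w.2 c]
  map_lie' {l l'} := by
    refine LinearMap.ext (fun w => Prod.ext ?_ (by
      simp [LieRing.of_associative_ring_bracket, Module.End.mul_apply]))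
    refine LinearMap.ext (fun f => ?_)
    have h1 : B.chi (ι F ⁅l, l'⁆) = 0 := B.chi_brk (lie_mem_brk l l')
    have h2 : RepNL B gb ⁅l, l'⁆ f = gb f ⟨⁅l, l'⁆, lie_mem_brk l l'⟩ := by
      rw [RepNL_apply]
      simp [B.c_lie]
    have h3 := hkey l l' f
    simp only [LieRing.of_associative_ring_bracket, Module.End.mul_apply, LinearMap.coe_mk,
      AddHom.coe_mk, LinearMap.sub_apply, Prod.fst_sub, LinearMap.add_apply,
      LinearMap.comp_apply, LinearMap.mulLeft_apply, LinearMap.smul_apply, zero_smul, add_zero,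
      h1, zero_mul, map_zero, zero_add, h2, ← h3]
    rw [smul_sub]
    have h4 : B.chi (ι F l') * (B.chi (ι F l) * f) = B.chi (ι F l) * (B.chi (ι F l') * f) := by
      ring
    rw [h4]
    abel

end Key

end

/-- TASK 4. -/
theorem exists_retraction {F : Type*} [Field F] [CharZero F] {L : Type*} [LieRing L]
    [LieAlgebra F L] (hmeta : ∀ a b c d : L, ⁅⁅a, b⁆, ⁅c, d⁆⁆ = 0)
    {κ : Type*} [Fintype κ] [DecidableEq κ] (B : Coord F L κ) :
    ∃ Λ : UniversalEnvelopingAlgebra F L →ₗ[F] L, (∀ a w, B.chi a = 0 → eps F L w = 0 → Λ (a * w) = 0) ∧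
      ∀ m ∈ brk F L, Λ (ι F m) = m := by
  obtain ⟨gb, hgb⟩ := B.factor (RepG F L) (RepG_comm hmeta)
  have hgb' : ∀ l, gb (B.chi (ι F l)) = RepAd F L l := fun l => by rw [hgb, RepG_ι]
  set ρ := RepRho B gb (fun l l' f => RepNL_key B gb hmeta hgb' l l' f) with hρ
  set R : UniversalEnvelopingAlgebra F L →ₐ[F] Module.End F ((MvPolynomial κ F →ₗ[F] brk F L) × F) := lift F ρ with hR
  have hRι : ∀ l w, R (ι F l) w =
      (w.1 ∘ₗ LinearMap.mulLeft F (B.chi (ι F l)) + w.2 • RepNL B gb l, 0) := by
    intro l w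
    rw [hR, lift_ι_apply]
    rfl
  -- facts
  have ha : ∀ (u : UniversalEnvelopingAlgebra F L) (ν : MvPolynomial κ F →ₗ[F] brk F L),
      R u (ν, 0) = (ν ∘ₗ LinearMap.mulLeft F (B.chi u), 0) := by
    intro u
    refine uea_induction (P := fun u => ∀ ν : MvPolynomial κ F →ₗ[F] brk F L,
      R u (ν, 0) = (ν ∘ₗ LinearMap.mulLeft F (B.chi u), 0)) ?_ ?_ ?_ ?_ u
    · intro c ν
      rw [AlgHom.commutes, AlgHom.commutes]
      refine Prod.ext (LinearMap.ext (fun f => ?_)) (by simp [Module.algebraMap_end_apply])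
      simp only [Module.algebraMap_end_apply, Prod.smul_mk, LinearMap.smul_apply,
        LinearMap.comp_apply, LinearMap.mulLeft_apply, MvPolynomial.algebraMap_eq]
      rw [← MvPolynomial.smul_eq_C_mul, map_smul]
    · intro l ν
      rw [hRι]
      simp
    · intro u v hu hv ν
      rw [map_add, LinearMap.add_apply, hu, hv, map_add]
      refine Prod.ext (LinearMap.ext (fun f => ?_)) (by simp)
      simp [add_mul]
    · intro u v hu hv ν
      rw [map_mul, Module.End.mul_apply, hv, hu, map_mul]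
      refine Prod.ext (LinearMap.ext (fun f => ?_)) rfl
      simp only [LinearMap.comp_apply, LinearMap.mulLeft_apply]
      congr 1
      ring
  have hb : ∀ (u : UniversalEnvelopingAlgebra F L) (w : (MvPolynomial κ F →ₗ[F] brk F L) × F),
      (R u w).2 = eps F L u * w.2 := by
    intro u
    refine uea_induction (P := fun u => ∀ w : (MvPolynomial κ F →ₗ[F] brk F L) × F,
      (R u w).2 = eps F L u * w.2) ?_ ?_ ?_ ?_ u
    · intro c w
      rw [AlgHom.commutes, AlgHom.commutes]
      simp [Module.algebraMap_end_apply]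
    · intro l w
      rw [hRι, eps_ι]
      simp
    · intro u v hu hv w
      rw [map_add, LinearMap.add_apply, Prod.snd_add, hu, hv, map_add, add_mul]
    · intro u v hu hv w
      rw [map_mul, Module.End.mul_apply, hu, hv, map_mul, mul_assoc]
  refine ⟨{ toFun := fun u => (((R u (0, 1)).1 1 : brk F L) : L)
            map_add' := fun u v => by simp
            map_smul' := fun c u => by simp }, ?_, ?_⟩
  · intro a w ha0 hw0
    change (((R (a * w) (0, 1)).1 1 : brk F L) : L) = 0
    rw [map_mul, Module.End.mul_apply]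
    have h1 : R w (0, 1) = ((R w (0, 1)).1, 0) := by
      refine Prod.ext rfl ?_
      rw [hb, hw0, zero_mul]
    rw [h1, ha, ha0]
    simp
  · intro m hm
    change (((R (ι F m) (0, 1)).1 1 : brk F L) : L) = m
    rw [hRι]
    simp only [LinearMap.zero_comp, zero_add, one_smul]
    rw [RepNL_brk B gb hm]

end MP6e5a6a
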