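import Pool.Agent.Lib.MP_6e5a6a_al.Coords

/-!
# The surjection `H → L` (for MP_6e5a6a_al)
-/

open UniversalEnvelopingAlgebra MvPolynomial

attribute [local instance 100] LieRing.ofAssociativeRing

namespace MP6e5a6a

theorem Coord.induction {F : Type*} [Field F] {L : Type*} [LieRing L] [LieAlgebra F L]
    {κ : Type*} [Fintype κ] [DecidableEq κ] (B : Coord F L κ) {Q : L → Prop}
    (h1 : ∀ m ∈ brk F L, Q m) (h2 : ∀ i, Q (B.x i)) (h3 : ∀ a b, Q a → Q b → Q (a + b))
    (h4 : ∀ (c : F) a, Q a → Q (c • a)) (l : L) : Q l := by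
  have h : l = (l - ∑ i, B.c i l • B.x i) + ∑ i, B.c i l • B.x i := by abel
  rw [h]
  apply h3 _ _ (h1 _ (B.sub_mem l))
  apply Finset.sum_induction _ Q h3 (h1 0 (brk F L).zero_mem)
  intro i _
  exact h4 _ _ (h2 i)

/-- The retraction statement proved in `Rep.lean`. -/
def HasRetraction {F : Type*} [Field F] {L : Type*} [LieRing L]
    [LieAlgebra F L] {κ : Type*} [Fintype κ] [DecidableEq κ] (B : Coord F L κ) : Prop :=
  ∃ Λ : UniversalEnvelopingAlgebra F L →ₗ[F] L, (∀ a w, B.chi a = 0 → eps F L w = 0 → Λ (a * w) = 0) ∧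
      ∀ m ∈ brk F L, Λ (ι F m) = m

theorem exists_surj {F : Type*} [Field F] [CharZero F] {L : Type*} [LieRing L] [LieAlgebra F L]
    [FiniteDimensional F L] (hmeta : ∀ a b c d : L, ⁅⁅a, b⁆, ⁅c, d⁆⁆ = 0)
    (hret : ∀ {κ : Type} [Fintype κ] [DecidableEq κ] (B : Coord F L κ), HasRetraction B)
    {H : Type*} [LieRing H] [LieAlgebra F H] (e : UniversalEnvelopingAlgebra F L ≃ₐ[F] UniversalEnvelopingAlgebra F H)
    (he : ∀ u, eps F H (e u) = eps F L u) :
    ∃ θ : H →ₗ⁅F⁆ L, Function.Surjective θ := by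
  classical
  obtain ⟨κ, hκ1, hκ2, B, nil, hnil, hnil'⟩ := exists_coord (F := F) hmeta
  obtain ⟨N, _, _, _, _, bar, π, h1, h2, h3, h4⟩ := exists_N B
  obtain ⟨B', hB'⟩ := exists_coord_H B e he
  obtain ⟨Λ, hΛ1, hΛ2⟩ := hret B
  have he' : ∀ u, eps F L (e.symm u) = eps F H u := by
    intro u; rw [← he, AlgEquiv.apply_symm_apply]
  have hbr : ∀ u w : UniversalEnvelopingAlgebra F L, eps F L u = 0 → eps F L w = 0 →
      π (u * w - w * u) = B.chi u • π w - B.chi w • π u := by
    intro u w hu hw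
    rw [map_sub, h1 u w hw, h1 w u hu]
  -- invariance of `ker chi`
  have hchi1 : ∀ u : UniversalEnvelopingAlgebra F L, B.chi u = 0 → B'.chi (e u) = 0 := by
    obtain ⟨gb, hgb⟩ := B.factor (B'.chi.comp (e : UniversalEnvelopingAlgebra F L →ₐ[F] UniversalEnvelopingAlgebra F H))
      (fun l l' => mul_comm _ _)
    intro u hu
    have := hgb u
    rw [hu, map_zero] at this
    exact this.symm
  have hchi2 : ∀ u : UniversalEnvelopingAlgebra F H, B'.chi u = 0 → B.chi (e.symm u) = 0 := by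
    obtain ⟨gb, hgb⟩ := B'.factor (B.chi.comp (e.symm : UniversalEnvelopingAlgebra F H →ₐ[F] UniversalEnvelopingAlgebra F L))
      (fun l l' => mul_comm _ _)
    intro u hu
    have := hgb u
    rw [hu, map_zero] at this
    exact this.symm
  have hKe : ∀ z ∈ Ksub B', e.symm z ∈ Ksub B := by
    intro z hz
    refine Submodule.span_induction ?_ ?_ ?_ ?_ hz
    · rintro _ ⟨a, w, ha, hw, rfl⟩
      rw [map_mul]
      exact mul_mem_Ksub B (hchi2 a ha) (by rw [he', hw])
    · rw [map_zero]; exact (Ksub B).zero_mem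
    · intro x y _ _ hx hy; rw [map_add]; exact (Ksub B).add_mem hx hy
    · intro r x _ hx; rw [map_smul]; exact (Ksub B).smul_mem r hx
  have hπK : ∀ z ∈ Ksub B, π z = 0 := fun z hz => π_Ksub B π h1 hz
  have hΛK : ∀ z ∈ Ksub B, Λ z = 0 := by
    intro z hz
    refine Submodule.span_induction ?_ ?_ ?_ ?_ hz
    · rintro _ ⟨a, w, ha, hw, rfl⟩
      exact hΛ1 a w ha hw
    · simp
    · intro x y _ _ hx hy; rw [map_add, hx, hy, add_zero]
    · intro r x _ hx; rw [map_smul, hx, smul_zero]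
  have hπinj : ∀ m ∈ brk F L, π (ι F m) = 0 → m = 0 := by
    intro m hm h
    have := hΛK _ (h4 _ (eps_ι m) h)
    rw [hΛ2 m hm] at this
    exact this
  have hπm : ∀ l : L, ∀ m ∈ brk F L, B.chi (ι F l) • π (ι F m) = π (ι F ⁅l, m⁆) := by
    intro l m hm
    have h5 := hbr (ι F l) (ι F m) (eps_ι l) (eps_ι m)
    rw [B.chi_brk hm, zero_smul, sub_zero] at h5
    rw [← h5, LieHom.map_lie, LieRing.of_associative_ring_bracket]
  have hbarm : ∀ m ∈ brk F L, bar (π (ι F m)) = 0 := by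
    intro m hm
    rw [h3 _ (eps_ι m), B.chi_brk hm]
  have hker : ∀ n, bar n = 0 → ∃ m ∈ brk F L, π (ι F m) = n := by
    intro n hn
    obtain ⟨w, hw, rfl⟩ := h2 n
    rw [h3 w hw] at hn
    obtain ⟨d, hd, hd'⟩ := mem_ker_chi B w hn
    refine ⟨d, hd, ?_⟩
    have := hπK _ hd'
    rw [map_sub] at this
    exact (sub_eq_zero.1 this).symm
  have hkerH : ∀ n, bar n = 0 → ∃ d ∈ brk F H, π (e.symm (ι F d)) = n := by
    intro n hn
    obtain ⟨w, hw, rfl⟩ := h2 n
    rw [h3 w hw] at hn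
    obtain ⟨d, hd, hd'⟩ := mem_ker_chi B' (e w) (hchi1 w hn)
    refine ⟨d, hd, ?_⟩
    have := hπK _ (hKe _ hd')
    rw [map_sub, map_sub, AlgEquiv.symm_apply_apply] at this
    exact (sub_eq_zero.1 this).symm
  have hbarH : ∀ d ∈ brk F H, bar (π (e.symm (ι F d))) = 0 := by
    intro d hd
    rw [h3 _ (by rw [he', eps_ι])]
    exact hchi2 _ (B'.chi_brk hd)
  -- finite dimensionality
  let q : brk F L →ₗ[F] LinearMap.ker bar :=
    { toFun := fun m => ⟨π (ι F (m : L)), hbarm m m.2⟩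
      map_add' := fun x y => by ext; simp
      map_smul' := fun r x => by ext; simp }
  have hfd : Module.Finite F (LinearMap.ker bar) := by
    apply Module.Finite.of_surjective q
    rintro ⟨n, hn⟩
    obtain ⟨m, hm, h⟩ := hker n hn
    exact ⟨⟨m, hm⟩, Subtype.ext h⟩
  -- nilpotency
  have hpow : ∀ (l : L) (p : ℕ) (m : brk F L),
      (B.chi (ι F l)) ^ p • π (ι F (m : L)) = π (ι F (((adM F L l) ^ p) m : L)) := by
    intro l p
    induction p with
    | zero => intro m; simp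
    | succ p ih =>
      intro m
      rw [pow_succ', mul_smul, ih m, hπm l _ (Subtype.coe_prop _), pow_succ', Module.End.mul_apply]
      rfl
  have hnilX : ∀ i ∈ nil, ∃ p : ℕ, (X i : MvPolynomial κ F) ^ p ∈ (LinearMap.ker bar).annihilator := by
    intro i hi
    obtain ⟨p, hp⟩ := hnil i hi
    refine ⟨p, ?_⟩
    rw [Submodule.mem_annihilator]
    intro n hn
    obtain ⟨m, hm, rfl⟩ := hker n hn
    rw [← B.chi_x i, hpow (B.x i) p ⟨m, hm⟩, hp]
    simp
  have hnilC : ∀ c : κ → F, (∃ p : ℕ, (∑ i, C (c i) * X i) ^ p ∈ (LinearMap.ker bar).annihilator) →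
      ∀ i, i ∉ nil → c i = 0 := by
    rintro c ⟨p, hp⟩ i hi
    have hcl : ∀ k, B.c k (∑ i, c i • B.x i) = c k := by
      intro k
      rw [map_sum]
      simp [B.c_x]
    have h5 : B.chi (ι F (∑ i, c i • B.x i)) = ∑ i, C (c i) * X i := by
      rw [B.chi_ι]
      simp_rw [hcl]
    have h6 : IsNilpotent (adM F L (∑ i, c i • B.x i)) := by
      refine ⟨p, ?_⟩
      ext m
      apply hπinj _ (Subtype.coe_prop _)
      rw [← hpow, h5]
      exact Submodule.mem_annihilator.1 hp _ (hbarm m m.2)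
    have h7 := hnil' _ h6 i hi
    rwa [hcl] at h7
  -- constant derivations of `U(L)`
  choose dL hdL hdL' using fun k => exists_constDer (B.c k) (B.c_lie k)
  have hsymbdL : ∀ k, symb B (dL k) = Pi.single k 1 := by
    intro k
    funext i
    simp only [symb, hdL', AlgHom.commutes, B.c_x]
    rw [MvPolynomial.algebraMap_eq, Pi.single_apply]
    by_cases h : k = i
    · subst h; simp
    · rw [if_neg h, if_neg (fun h' => h h'.symm), C_0]
  let P : Set (κ → MvPolynomial κ F) := {b | ∃ δ, IsDer δ ∧ symb B δ = b}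
  have hP1 : ∀ b ∈ P, ∀ k, (fun i => pderiv k (b i)) ∈ P := by
    rintro b ⟨δ, hδ, rfl⟩ k
    refine ⟨dL k ∘ₗ δ - δ ∘ₗ dL k, (hdL k).comm hδ, ?_⟩
    funext i
    simp only [symb, LinearMap.sub_apply, LinearMap.comp_apply, hdL', hδ.algebraMap',
      sub_zero]
    rw [chi_der B (hdL k), hsymbdL, pderiv_def]
  have hP2 : ∀ b ∈ P, (fun i => b i - C (constantCoeff (b i))) ∈ liftable bar := by
    rintro b ⟨δ, hδ, rfl⟩
    have hδ' : IsDer (δ - ∑ k, constantCoeff (symb B δ k) • dL k) :=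
      hδ.sub (IsDer.sum _ fun k => (hdL k).smul _)
    have hs : symb B (δ - ∑ k, constantCoeff (symb B δ k) • dL k) =
        fun i => symb B δ i - C (constantCoeff (symb B δ i)) := by
      funext i
      have h5 : ∀ k, B.chi (dL k (ι F (B.x i))) = if i = k then 1 else 0 := by
        intro k
        have := congrFun (hsymbdL k) i
        rw [Pi.single_apply] at this
        exact this
      change B.chi ((δ - ∑ k, constantCoeff (symb B δ k) • dL k) (ι F (B.x i))) = _
      rw [LinearMap.sub_apply, LinearMap.sum_apply, map_sub, map_sum]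
      simp_rw [LinearMap.smul_apply, map_smul, h5]
      rw [Finset.sum_eq_single i]
      · rw [if_pos rfl, smul_eq_C_mul, mul_one]; rfl
      · intro k _ hk
        rw [if_neg (fun h => hk h.symm), smul_zero]
      · intro h; exact absurd (Finset.mem_univ _) h
    rw [← hs]
    apply lift_of_der B bar π h1 h2 h3 h4 hδ'
    intro i
    rw [hs]
    simp
  -- constant derivations of `U(H)`
  choose dH hdH hdH' using fun k => exists_constDer (B'.c k) (B'.c_lie k)
  let δ : κ → UniversalEnvelopingAlgebra F L →ₗ[F] UniversalEnvelopingAlgebra F L := fun j =>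
    e.symm.toLinearMap ∘ₗ dH j ∘ₗ e.toLinearMap
  have hδ' : ∀ j u, δ j u = e.symm (dH j (e u)) := fun j u => rfl
  have hδ : ∀ j, IsDer (δ j) := by
    intro j u v
    rw [hδ', hδ', hδ', map_mul, hdH j, map_add, map_mul, map_mul, AlgEquiv.symm_apply_apply,
      AlgEquiv.symm_apply_apply]
  let Ψ : κ → MvPolynomial κ F := fun i => B.chi (e.symm (ι F (B'.x i)))
  have hΨ0 : ∀ i, constantCoeff (Ψ i) = 0 := by
    intro i
    rw [B.constantCoeff_chi, he', eps_ι]
  have hΨ1 : ∀ i j, constantCoeff (pderiv j (Ψ i)) = if i = j then 1 else 0 := hB'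
  have hkey : ∀ i j, ∑ k, symb B (δ j) k * pderiv k (Ψ i) = if j = i then 1 else 0 := by
    intro i j
    have h5 := chi_der B (hδ j) (e.symm (ι F (B'.x i)))
    rw [mkDerivation_apply'] at h5
    rw [← h5, hδ', AlgEquiv.apply_symm_apply, hdH', AlgEquiv.commutes, AlgHom.commutes, B'.c_x,
      MvPolynomial.algebraMap_eq]
    split_ifs <;> simp
  have ha : ∀ j k, ∑ i, pderiv j (Ψ i) * symb B (δ i) k = if j = k then 1 else 0 := by
    let Am : Matrix κ κ (MvPolynomial κ F) := fun j k => symb B (δ j) k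
    let Q : Matrix κ κ (MvPolynomial κ F) := fun k i => pderiv k (Ψ i)
    have hAQ : Am * Q = 1 := by
      ext1 j i
      rw [Matrix.mul_apply, Matrix.one_apply]
      exact hkey i j
    have hQA : Q * Am = 1 := mul_eq_one_comm.1 hAQ
    intro j k
    have := congrFun (congrFun hQA j) k
    rw [Matrix.mul_apply, Matrix.one_apply] at this
    exact this
  have hex : ∀ i, bar (π (ι F (B.x i))) = X i := by
    intro i
    rw [h3 _ (eps_ι _), B.chi_x]
  obtain ⟨T, hT1, hT2, hT3, hT4, hT5⟩ := ca bar hfd P hP1 hP2 nil hnilX hnilC Ψ hΨ0 hB'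
    (fun j => symb B (δ j)) (fun j => ⟨δ j, hδ j, rfl⟩) ha (fun i => π (ι F (B.x i))) hex
  -- surjectivity of `T` on the kernel
  have hTsurj : ∀ n, bar n = 0 → ∃ m ∈ brk F L, T (π (ι F m)) = n := by
    let Tk : LinearMap.ker bar →ₗ[F] LinearMap.ker bar :=
      { toFun := fun n => ⟨T n, hT1 _ n.2⟩
        map_add' := fun x y => by ext; simp
        map_smul' := fun r x => by ext; simp }
    have hinj : Function.Injective Tk := by
      rw [injective_iff_map_eq_zero]
      intro n hn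
      apply Subtype.ext
      exact hT2 _ n.2 (congrArg Subtype.val hn)
    have hsurj := LinearMap.injective_iff_surjective.1 hinj
    intro n hn
    obtain ⟨n', hn'⟩ := hsurj ⟨n, hn⟩
    obtain ⟨m, hm, hm'⟩ := hker n' n'.2
    refine ⟨m, hm, ?_⟩
    rw [hm']
    exact congrArg Subtype.val hn'
  let ψ : L →ₗ[F] N := T ∘ₗ π ∘ₗ (ι F : L →ₗ⁅F⁆ UniversalEnvelopingAlgebra F L).toLinearMap
  have hψ : ∀ l, ψ l = T (π (ι F l)) := fun l => rfl
  have hψm : ∀ m ∈ brk F L, bar (ψ m) = 0 := fun m hm => hT1 _ (hbarm m hm)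
  have hψx : ∀ j, bar (ψ (B.x j)) = Ψ j := hT3
  have hbarF : ∀ (c : F) (n : N), bar (c • n) = c • bar n := by
    intro c n
    rw [← algebraMap_smul (MvPolynomial κ F) c n, map_smul, algebraMap_smul]
  -- `ψ` is injective
  have hψinj : Function.Injective ψ := by
    rw [injective_iff_map_eq_zero]
    intro l hl
    have hlin : ∀ l, ∀ k, constantCoeff (pderiv k (bar (ψ l))) = B.c k l := by
      intro l
      refine B.induction (Q := fun l => ∀ k, constantCoeff (pderiv k (bar (ψ l))) = B.c k l)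
        ?_ ?_ ?_ ?_ l
      · intro m hm k
        rw [hψm m hm, map_zero, map_zero, B.c_brk k hm]
      · intro i k
        rw [hψx, B.c_x, hΨ1]
        by_cases h : i = k
        · subst h; rfl
        · rw [if_neg h, if_neg (fun h' => h h'.symm)]
      · intro a b ha hb k
        simp only [map_add, ha, hb]
      · intro c a ha k
        rw [map_smul ψ, hbarF, Derivation.map_smul, map_smul (B.c k), ← ha k, smul_eq_C_mul, map_mul,
          constantCoeff_C, smul_eq_mul]
    have hl' : l ∈ brk F L := by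
      apply B.mem
      intro k
      rw [← hlin l k, hl]
      simp
    exact hπinj l hl' (hT2 _ (hbarm l hl') hl)
  -- brackets
  have hTbr : ∀ l l', ψ ⁅l, l'⁆ = bar (ψ l) • ψ l' - bar (ψ l') • ψ l := by
    have hanti : ∀ l l', ψ ⁅l, l'⁆ = bar (ψ l) • ψ l' - bar (ψ l') • ψ l →
        ψ ⁅l', l⁆ = bar (ψ l') • ψ l - bar (ψ l) • ψ l' := by
      intro l l' h
      rw [← lie_skew, map_neg, h, neg_sub]
    have hxm : ∀ j, ∀ m ∈ brk F L, ψ ⁅B.x j, m⁆ = bar (ψ (B.x j)) • ψ m - bar (ψ m) • ψ (B.x j) := by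
      intro j m hm
      rw [hψm m hm, zero_smul, sub_zero, hψx, hψ, ← hπm _ _ hm, B.chi_x, hT4 j _ (hbarm m hm)]
      rfl
    have hadd : ∀ l a b, (ψ ⁅l, a⁆ = bar (ψ l) • ψ a - bar (ψ a) • ψ l) →
        (ψ ⁅l, b⁆ = bar (ψ l) • ψ b - bar (ψ b) • ψ l) →
        ψ ⁅l, a + b⁆ = bar (ψ l) • ψ (a + b) - bar (ψ (a + b)) • ψ l := by
      intro l a b ha hb
      rw [lie_add, map_add, ha, hb, map_add, map_add, smul_add, add_smul]
      abel
    have hsmul : ∀ l (c : F) a, (ψ ⁅l, a⁆ = bar (ψ l) • ψ a - bar (ψ a) • ψ l) →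
        ψ ⁅l, c • a⁆ = bar (ψ l) • ψ (c • a) - bar (ψ (c • a)) • ψ l := by
      intro l c a ha
      rw [lie_smul, map_smul, ha, map_smul, hbarF, smul_sub, smul_comm c (bar (ψ l)), smul_assoc]
    have hx : ∀ j l', ψ ⁅B.x j, l'⁆ = bar (ψ (B.x j)) • ψ l' - bar (ψ l') • ψ (B.x j) := by
      intro j l'
      refine B.induction (Q := fun l' => ψ ⁅B.x j, l'⁆ =
        bar (ψ (B.x j)) • ψ l' - bar (ψ l') • ψ (B.x j)) ?_ ?_ ?_ ?_ l'
      · exact hxm j
      · intro k
        have h5 : π (ι F ⁅B.x j, B.x k⁆) = (X j : MvPolynomial κ F) • π (ι F (B.x k)) -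
            (X k : MvPolynomial κ F) • π (ι F (B.x j)) := by
          rw [LieHom.map_lie, LieRing.of_associative_ring_bracket, hbr _ _ (eps_ι _) (eps_ι _),
            B.chi_x, B.chi_x]
        rw [hψ, h5, hT5, hψx, hψx]
        rfl
      · intro a b; exact hadd _ a b
      · intro c a; exact hsmul _ c a
    have hm : ∀ m ∈ brk F L, ∀ l', ψ ⁅m, l'⁆ = bar (ψ m) • ψ l' - bar (ψ l') • ψ m := by
      intro m hm l'
      refine B.induction (Q := fun l' => ψ ⁅m, l'⁆ = bar (ψ m) • ψ l' - bar (ψ l') • ψ m)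
        ?_ ?_ ?_ ?_ l'
      · intro m' hm'
        rw [lie_brk_brk hmeta hm hm', map_zero, hψm m hm, hψm m' hm', zero_smul, zero_smul,
          sub_zero]
      · intro k
        exact hanti _ _ (hxm k m hm)
      · intro a b; exact hadd _ a b
      · intro c a; exact hsmul _ c a
    intro l l'
    apply hanti
    refine B.induction (Q := fun l => ψ ⁅l', l⁆ = bar (ψ l') • ψ l - bar (ψ l) • ψ l')
      ?_ ?_ ?_ ?_ l
    · intro m hm'; exact hanti _ _ (hm m hm' l')
    · intro j; exact hanti _ _ (hx j l')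
    · intro a b; exact hadd _ a b
    · intro c a; exact hsmul _ c a
  have hHbr : ∀ h h' : H, π (e.symm (ι F ⁅h, h'⁆)) =
      bar (π (e.symm (ι F h))) • π (e.symm (ι F h')) -
        bar (π (e.symm (ι F h'))) • π (e.symm (ι F h)) := by
    intro h h'
    have hh : ∀ h : H, eps F L (e.symm (ι F h)) = 0 := fun h => by rw [he', eps_ι]
    rw [h3 _ (hh h), h3 _ (hh h'), LieHom.map_lie, LieRing.of_associative_ring_bracket, map_sub,
      map_mul, map_mul, hbr _ _ (hh h) (hh h')]
  have hΨbar : ∀ i, bar (π (e.symm (ι F (B'.x i)))) = Ψ i := by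
    intro i
    rw [h3 _ (by rw [he', eps_ι])]
  -- ranges
  have hr1 : ∀ h : H, ∃ l : L, ψ l = π (e.symm (ι F h)) := by
    intro h
    refine B'.induction (Q := fun h => ∃ l : L, ψ l = π (e.symm (ι F h))) ?_ ?_ ?_ ?_ h
    · intro d hd
      obtain ⟨m, _, hm'⟩ := hTsurj _ (hbarH d hd)
      exact ⟨m, hm'⟩
    · intro i
      obtain ⟨m, _, hm'⟩ := hTsurj (π (e.symm (ι F (B'.x i))) - ψ (B.x i)) (by
        rw [map_sub, hΨbar, hψx, sub_self])
      refine ⟨B.x i + m, ?_⟩
      rw [map_add, hψ m, hm']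
      abel
    · rintro a b ⟨l, hl⟩ ⟨l', hl'⟩
      exact ⟨l + l', by rw [map_add, hl, hl', map_add, map_add, map_add]⟩
    · rintro c a ⟨l, hl⟩
      exact ⟨c • l, by rw [map_smul, hl, map_smul, map_smul, map_smul]⟩
  have hr2 : ∀ l : L, ∃ h : H, π (e.symm (ι F h)) = ψ l := by
    intro l
    refine B.induction (Q := fun l => ∃ h : H, π (e.symm (ι F h)) = ψ l) ?_ ?_ ?_ ?_ l
    · intro m hm
      obtain ⟨d, _, hd'⟩ := hkerH _ (hψm m hm)
      exact ⟨d, hd'⟩
    · intro i
      obtain ⟨d, _, hd'⟩ := hkerH (ψ (B.x i) - π (e.symm (ι F (B'.x i)))) (by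
        rw [map_sub, hΨbar, hψx, sub_self])
      refine ⟨B'.x i + d, ?_⟩
      rw [map_add, map_add, map_add, hd']
      abel
    · rintro a b ⟨l, hl⟩ ⟨l', hl'⟩
      exact ⟨l + l', by rw [map_add, map_add, map_add, hl, hl', map_add]⟩
    · rintro c a ⟨l, hl⟩
      exact ⟨c • l, by rw [map_smul, map_smul, map_smul, hl, map_smul]⟩
  choose θ0 hθ0 using hr1
  let θ : H →ₗ⁅F⁆ L :=
    { toFun := θ0
      map_add' := fun a b => by
        apply hψinj
        rw [hθ0, map_add ψ, hθ0, hθ0, map_add, map_add, map_add]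
      map_smul' := fun c a => by
        apply hψinj
        rw [hθ0, RingHom.id_apply, map_smul ψ, hθ0, map_smul, map_smul, map_smul]
      map_lie' := fun {a b} => by
        apply hψinj
        rw [hθ0, hTbr, hθ0, hθ0, hHbr] }
  refine ⟨θ, fun l => ?_⟩
  obtain ⟨h, hh⟩ := hr2 l
  refine ⟨h, ?_⟩
  apply hψinj
  change ψ (θ0 h) = ψ l
  rw [hθ0, hh]

end MP6e5a6a
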